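import Mathlib

set_option autoImplicit false

/-! # High moments of sums of periodic functions over primes -/

namespace Pool.Agent.H735A

open Finset

lemma sum_blocks (f : ℕ → ℝ) (R q : ℕ) :
    ∑ m ∈ range (R * q), f m = ∑ r ∈ range R, ∑ j ∈ range q, f (r + R * j) := by
  rw [Finset.sum_comm]
  induction q with
  | zero => simp
  | succ q ih =>
    rw [Nat.mul_succ, Finset.sum_range_add, ih, Finset.sum_range_succ]
    congr 1
    apply sum_congr rfl
    intro r _
    rw [add_comm]

/-- a family of functions of zero mean, one for every prime, periodic modulo the prime -/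
structure Fam where
  g : ℕ → ℕ → ℝ
  per : ∀ p m, g p m = g p (m % p)
  bd : ∀ p m, |g p m| ≤ 1
  zero : ∀ p, p.Prime → ∑ j ∈ range p, g p j = 0

lemma Fam.shift (F : Fam) {p R : ℕ} (h : p ∣ R) (m j : ℕ) : F.g p (m + R * j) = F.g p m := by
  obtain ⟨s, rfl⟩ := h
  rw [F.per p (m + p * s * j), F.per p m, mul_assoc, Nat.add_mul_mod_self_left]

lemma Fam.inner (F : Fam) {q : ℕ} (hq : q.Prime) (r R : ℕ) (hc : Nat.Coprime R q) :
    ∑ j ∈ range q, F.g q (r + R * j) = 0 := by
  have hinj : Set.InjOn (fun j => (r + R * j) % q) (range q : Set ℕ) := by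
    intro j hj j' hj' h
    have hj1 : j < q := by simpa using hj
    have hj2 : j' < q := by simpa using hj'
    have h1 : r + R * j ≡ r + R * j' [MOD q] := h
    have h2 : R * j ≡ R * j' [MOD q] := Nat.ModEq.add_left_cancel' r h1
    have h3 : j ≡ j' [MOD q] := Nat.ModEq.cancel_left_of_coprime (by
      rw [Nat.gcd_comm]; exact hc) h2
    exact Nat.ModEq.eq_of_lt_of_lt h3 hj1 hj2
  have himg : (range q).image (fun j => (r + R * j) % q) = range q := by
    apply Finset.eq_of_subset_of_card_le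
    · intro i hi
      rw [mem_image] at hi
      obtain ⟨j, _, rfl⟩ := hi
      rw [mem_range]
      exact Nat.mod_lt _ hq.pos
    · rw [card_image_of_injOn hinj]
  calc ∑ j ∈ range q, F.g q (r + R * j) = ∑ j ∈ range q, F.g q ((r + R * j) % q) :=
        sum_congr rfl fun j _ => F.per q _
    _ = ∑ i ∈ (range q).image (fun j => (r + R * j) % q), F.g q i := (sum_image hinj).symm
    _ = ∑ i ∈ range q, F.g q i := by rw [himg]
    _ = 0 := F.zero q hq

lemma Fam.complete (F : Fam) {n : ℕ} (f : Fin n → ℕ) (hf : ∀ i, (f i).Prime) (i0 : Fin n)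
    (hu : ∀ i, i ≠ i0 → f i ≠ f i0) :
    ∑ m ∈ range (∏ p ∈ univ.image f, p), ∏ i, F.g (f i) m = 0 := by
  classical
  set q := f i0 with hq
  set R := ∏ p ∈ (univ.image f).erase q, p with hR
  have hqI : q ∈ univ.image f := mem_image_of_mem f (mem_univ i0)
  have hprod : ∏ p ∈ univ.image f, p = R * q :=
    (Finset.prod_erase_mul (univ.image f) (fun p => p) hqI).symm
  have hcop : Nat.Coprime R q := by
    apply Nat.Coprime.prod_left
    intro p hp
    rw [mem_erase, mem_image] at hp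
    obtain ⟨h1, i, _, rfl⟩ := hp
    exact (Nat.coprime_primes (hf i) (hf i0)).2 h1
  rw [hprod, sum_blocks]
  apply sum_eq_zero
  intro r _
  have h1 : ∀ j ∈ range q, ∏ i, F.g (f i) (r + R * j) =
      F.g q (r + R * j) * ∏ i ∈ univ.erase i0, F.g (f i) r := by
    intro j _
    rw [← Finset.mul_prod_erase univ (fun i => F.g (f i) (r + R * j)) (mem_univ i0)]
    congr 1
    apply prod_congr rfl
    intro i hi
    apply F.shift
    apply Finset.dvd_prod_of_mem (fun p => p)
    rw [mem_erase]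
    exact ⟨hu i (ne_of_mem_erase hi), mem_image_of_mem f (mem_univ i)⟩
  rw [sum_congr rfl h1, ← sum_mul, F.inner (hf i0) r R hcop, zero_mul]

lemma incomplete (F : ℕ → ℝ) (N : ℕ) (hN : 0 < N) (hper : ∀ m, F (N + m) = F m)
    (hb : ∀ m, |F m| ≤ 1) (h0 : ∑ m ∈ range N, F m = 0) (y : ℕ) :
    |∑ m ∈ range y, F m| ≤ N := by
  induction y using Nat.strong_induction_on with
  | _ y ih =>
    by_cases hy : y < N
    · calc |∑ m ∈ range y, F m| ≤ ∑ m ∈ range y, |F m| := abs_sum_le_sum_abs _ _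
        _ ≤ ∑ m ∈ range y, 1 := sum_le_sum fun m _ => hb m
        _ = y := by simp
        _ ≤ N := by exact_mod_cast hy.le
    · push Not at hy
      obtain ⟨z, rfl⟩ := Nat.exists_eq_add_of_le hy
      rw [Finset.sum_range_add, h0, zero_add, sum_congr rfl fun m _ => hper m]
      exact ih z (by omega)

lemma prod_abs_le (F : Fam) {n : ℕ} (f : Fin n → ℕ) (m : ℕ) : |∏ i, F.g (f i) m| ≤ 1 := by
  rw [Finset.abs_prod]
  exact Finset.prod_le_one (fun i _ => abs_nonneg _) fun i _ => F.bd _ _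

/-- every value is taken at least twice -/
def Pairs {n : ℕ} (f : Fin n → ℕ) : Prop := ∀ i, ∃ j, j ≠ i ∧ f j = f i

lemma tuple_bound (F : Fam) {n : ℕ} (f : Fin n → ℕ) (x y : ℕ) (hx : 1 ≤ x)
    (hf : ∀ i, (f i).Prime ∧ f i ≤ x) (hn : ¬ Pairs f) :
    |∑ m ∈ range y, ∏ i, F.g (f i) m| ≤ (x : ℝ) ^ n := by
  classical
  unfold Pairs at hn
  push Not at hn
  obtain ⟨i0, h0⟩ := hn
  set N := ∏ p ∈ univ.image f, p with hN
  have hNpos : 0 < N := by
    apply Finset.prod_pos
    intro p hp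
    rw [mem_image] at hp
    obtain ⟨i, _, rfl⟩ := hp
    exact (hf i).1.pos
  have h1 := incomplete (fun m => ∏ i, F.g (f i) m) N hNpos (fun m => by
    apply prod_congr rfl
    intro i _
    have h2 : f i ∣ N := Finset.dvd_prod_of_mem (fun p => p) (mem_image_of_mem f (mem_univ i))
    have h3 := F.shift h2 m 1
    rw [mul_one] at h3
    rw [add_comm]
    exact h3) (prod_abs_le F f)
    (F.complete f (fun i => (hf i).1) i0 (fun i hi => h0 i hi)) y
  refine h1.trans ?_
  have h4 : N ≤ x ^ #(univ.image f) := by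
    apply Finset.prod_le_pow_card
    intro p hp
    rw [mem_image] at hp
    obtain ⟨i, _, rfl⟩ := hp
    exact (hf i).2
  have h5 : #(univ.image f) ≤ n := card_image_le.trans (by simp)
  have h6 : N ≤ x ^ n := h4.trans (Nat.pow_le_pow_right hx h5)
  exact_mod_cast h6

lemma count_pairs (P : Finset ℕ) (k : ℕ) (hk : 1 ≤ k) [DecidablePred (Pairs (n := 2 * k))] :
    #((Fintype.piFinset (fun _ : Fin (2 * k) => P)).filter Pairs) ≤ k ^ (2 * k) * #P ^ k := by
  classical
  have hsub : (Fintype.piFinset (fun _ : Fin (2 * k) => P)).filter Pairs ⊆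
      ((Fintype.piFinset (fun _ : Fin k => P)) ×ˢ
        (univ : Finset (Fin (2 * k) → Fin k))).image (fun w => w.1 ∘ w.2) := by
    intro f hf
    rw [mem_filter, Fintype.mem_piFinset] at hf
    obtain ⟨hfP, hpr⟩ := hf
    set I := univ.image f with hI
    have hIk : #I ≤ k := by
      have h1 := Finset.card_eq_sum_card_image f (univ : Finset (Fin (2 * k)))
      have h2 : #I * 2 ≤ ∑ b ∈ I, #(univ.filter (fun a => f a = b)) := by
        rw [← smul_eq_mul]
        apply Finset.card_nsmul_le_sum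
        intro b hb
        rw [hI, mem_image] at hb
        obtain ⟨i, _, rfl⟩ := hb
        obtain ⟨j, hj1, hj2⟩ := hpr i
        have : 1 < #(univ.filter (fun a => f a = f i)) := by
          rw [Finset.one_lt_card]
          exact ⟨j, by simp [hj2], i, by simp, hj1⟩
        omega
      rw [card_univ, Fintype.card_fin, ← hI] at h1
      have h3 : #I * 2 ≤ 2 * k := h2.trans (le_of_eq h1.symm)
      omega
    obtain ⟨e, he⟩ : ∃ e : I → Fin k, Function.Injective e :=
      ⟨fun b => Fin.castLE hIk (I.equivFin b), fun a b h => by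
        have := Fin.castLE_injective hIk h
        exact I.equivFin.injective this⟩
    have hfI : ∀ i, f i ∈ I := fun i => mem_image_of_mem f (mem_univ i)
    have h0 : 0 < 2 * k := by omega
    rw [mem_image]
    refine ⟨(Function.extend e (fun b : I => (b : ℕ)) (fun _ => f ⟨0, h0⟩),
      fun i => e ⟨f i, hfI i⟩), ?_, ?_⟩
    · rw [mem_product]
      refine ⟨?_, mem_univ _⟩
      rw [Fintype.mem_piFinset]
      intro j
      dsimp only
      by_cases hj : ∃ b, e b = j
      · obtain ⟨b, rfl⟩ := hj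
        rw [he.extend_apply]
        obtain ⟨b, hb⟩ := b
        rw [hI, mem_image] at hb
        obtain ⟨i, _, rfl⟩ := hb
        exact hfP i
      · rw [Function.extend_apply' _ _ _ hj]
        exact hfP _
    · funext i
      simp only [Function.comp]
      rw [he.extend_apply]
  refine (card_le_card hsub).trans (card_image_le.trans ?_)
  rw [card_product, Fintype.card_piFinset_const]
  simp [mul_comm]

theorem moment (F : Fam) (P : Finset ℕ) (x k y : ℕ) (hx : 1 ≤ x) (hk : 1 ≤ k)
    (hP : ∀ p ∈ P, p.Prime ∧ p ≤ x) :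
    ∑ m ∈ range y, (∑ p ∈ P, F.g p m) ^ (2 * k) ≤
      (k : ℝ) ^ (2 * k) * (#P : ℝ) ^ k * y + (#P : ℝ) ^ (2 * k) * (x : ℝ) ^ (2 * k) := by
  classical
  have h1 : ∀ m, (∑ p ∈ P, F.g p m) ^ (2 * k) =
      ∑ f ∈ Fintype.piFinset (fun _ : Fin (2 * k) => P), ∏ i, F.g (f i) m := by
    intro m
    rw [← Finset.prod_univ_sum (fun _ : Fin (2 * k) => P) (fun _ p => F.g p m)]
    simp
  rw [sum_congr rfl fun m _ => h1 m, sum_comm]
  have h2 : ∀ f ∈ Fintype.piFinset (fun _ : Fin (2 * k) => P),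
      ∑ m ∈ range y, ∏ i, F.g (f i) m ≤ (if Pairs f then (y : ℝ) else 0) + (x : ℝ) ^ (2 * k) := by
    intro f hf
    rw [Fintype.mem_piFinset] at hf
    split_ifs with h
    · have h3 : ∑ m ∈ range y, ∏ i, F.g (f i) m ≤ y := by
        calc ∑ m ∈ range y, ∏ i, F.g (f i) m ≤ ∑ m ∈ range y, (1 : ℝ) :=
              sum_le_sum fun m _ => (le_abs_self _).trans (prod_abs_le F f m)
          _ = y := by simp
      have h4 : (0 : ℝ) ≤ (x : ℝ) ^ (2 * k) := by positivity
      linarith
    · have h3 := tuple_bound F f x y hx (fun i => hP _ (hf i)) h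
      have h4 := le_abs_self (∑ m ∈ range y, ∏ i, F.g (f i) m)
      linarith
  refine (sum_le_sum h2).trans ?_
  rw [sum_add_distrib, sum_const, nsmul_eq_mul, ← sum_filter, sum_const, nsmul_eq_mul,
    Fintype.card_piFinset_const]
  have h5 := count_pairs P k hk
  have h6 : ((#((Fintype.piFinset (fun _ : Fin (2 * k) => P)).filter Pairs) : ℕ) : ℝ) ≤
      (k : ℝ) ^ (2 * k) * (#P : ℝ) ^ k := by exact_mod_cast h5
  have h7 : (0 : ℝ) ≤ y := Nat.cast_nonneg _
  have h8 := mul_le_mul_of_nonneg_right h6 h7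
  have h9 : (((#P ^ (2 * k) : ℕ)) : ℝ) = (#P : ℝ) ^ (2 * k) := by push_cast; ring
  rw [h9]
  linarith

/-- Markov -/
theorem large_count (F : Fam) (P : Finset ℕ) (x k y : ℕ) (hx : 1 ≤ x) (hk : 1 ≤ k)
    (hP : ∀ p ∈ P, p.Prime ∧ p ≤ x) (T : ℝ) (hT : 0 < T) :
    (#((range y).filter (fun m => T < |∑ p ∈ P, F.g p m|)) : ℝ) * T ^ (2 * k) ≤
      (k : ℝ) ^ (2 * k) * (#P : ℝ) ^ k * y + (#P : ℝ) ^ (2 * k) * (x : ℝ) ^ (2 * k) := by
  refine le_trans ?_ (moment F P x k y hx hk hP)
  calc (#((range y).filter (fun m => T < |∑ p ∈ P, F.g p m|)) : ℝ) * T ^ (2 * k)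
      = ∑ m ∈ (range y).filter (fun m => T < |∑ p ∈ P, F.g p m|), T ^ (2 * k) := by
        rw [sum_const, nsmul_eq_mul]
    _ ≤ ∑ m ∈ (range y).filter (fun m => T < |∑ p ∈ P, F.g p m|),
        (∑ p ∈ P, F.g p m) ^ (2 * k) := by
        apply sum_le_sum
        intro m hm
        rw [mem_filter] at hm
        rw [← (even_two_mul k).pow_abs (∑ p ∈ P, F.g p m)]
        exact pow_le_pow_left₀ hT.le hm.2.le _
    _ ≤ ∑ m ∈ range y, (∑ p ∈ P, F.g p m) ^ (2 * k) := by
        apply sum_le_sum_of_subset_of_nonneg (filter_subset _ _)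
        intro m _ _
        exact (even_two_mul k).pow_nonneg _

end Pool.Agent.H735A
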