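import Mathlib
import Pool.Agent.H735A.Moment
import Pool.Agent.Y586.SW.GM

set_option autoImplicit false

/-! # The characteristic function of a sum of periodic functions over primes -/

namespace Pool.Agent.H735A

open Finset Filter Topology
open Pool.Agent.Y586.SW (Sm tay)

lemma sum_blocks' {M : Type} [AddCommMonoid M] (f : ℕ → M) (R q : ℕ) :
    ∑ m ∈ range (R * q), f m = ∑ r ∈ range R, ∑ j ∈ range q, f (r + R * j) := by
  rw [Finset.sum_comm]
  induction q with
  | zero => simp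
  | succ q ih =>
    rw [Nat.mul_succ, Finset.sum_range_add, ih, Finset.sum_range_succ]
    congr 1
    apply sum_congr rfl
    intro r _
    rw [add_comm]

lemma sum_shift {M : Type} [AddCommMonoid M] (h : ℕ → M) {q : ℕ} (hq : q.Prime)
    (hper : ∀ m, h m = h (m % q)) (r R : ℕ) (hc : Nat.Coprime R q) :
    ∑ j ∈ range q, h (r + R * j) = ∑ i ∈ range q, h i := by
  have hinj : Set.InjOn (fun j => (r + R * j) % q) (range q : Set ℕ) := by
    intro j hj j' hj' h
    have hj1 : j < q := by simpa using hj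
    have hj2 : j' < q := by simpa using hj'
    have h1 : r + R * j ≡ r + R * j' [MOD q] := h
    have h2 : R * j ≡ R * j' [MOD q] := Nat.ModEq.add_left_cancel' r h1
    have h3 : j ≡ j' [MOD q] := Nat.ModEq.cancel_left_of_coprime (by
      rw [Nat.gcd_comm]; exact hc) h2
    exact Nat.ModEq.eq_of_lt_of_lt h3 hj1 hj2
  have himg : (range q).image (fun j => (r + R * j) % q) = range q := by
    apply Finset.eq_of_subset_of_card_le
    · intro i hi
      rw [mem_image] at hi
      obtain ⟨j, _, rfl⟩ := hi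
      rw [mem_range]
      exact Nat.mod_lt _ hq.pos
    · rw [card_image_of_injOn hinj]
  calc ∑ j ∈ range q, h (r + R * j) = ∑ j ∈ range q, h ((r + R * j) % q) :=
        sum_congr rfl fun j _ => hper _
    _ = ∑ i ∈ (range q).image (fun j => (r + R * j) % q), h i := (sum_image hinj).symm
    _ = ∑ i ∈ range q, h i := by rw [himg]

/-- averages over a complete period factor -/
lemma prod_formula {A : Type} [CommRing A] (h : ℕ → ℕ → A) (hper : ∀ p m, h p m = h p (m % p))
    (P : Finset ℕ) (hP : ∀ p ∈ P, p.Prime) :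
    ∑ m ∈ range (∏ p ∈ P, p), ∏ p ∈ P, h p m = ∏ p ∈ P, ∑ j ∈ range p, h p j := by
  classical
  induction P using Finset.induction_on with
  | empty => simp
  | insert q P hq ih =>
    rw [prod_insert hq, prod_insert hq]
    have ih' := ih (fun p hp => hP p (mem_insert_of_mem hp))
    have hqp := hP q (mem_insert_self _ _)
    set R := ∏ p ∈ P, p with hR
    have hcop : Nat.Coprime R q := by
      apply Nat.Coprime.prod_left
      intro p hp
      rw [Nat.coprime_primes (hP p (mem_insert_of_mem hp)) hqp]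
      rintro rfl
      exact hq hp
    rw [mul_comm q R, sum_blocks']
    have h1 : ∀ r ∈ range R, ∑ j ∈ range q, ∏ p ∈ insert q P, h p (r + R * j) =
        (∏ p ∈ P, h p r) * ∑ i ∈ range q, h q i := by
      intro r _
      rw [← sum_shift (h q) hqp (hper q) r R hcop, mul_sum]
      apply sum_congr rfl
      intro j _
      rw [prod_insert hq, mul_comm]
      congr 1
      apply prod_congr rfl
      intro p hp
      obtain ⟨s, hs⟩ : p ∣ R := Finset.dvd_prod_of_mem (fun p => p) hp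
      rw [hper p (r + R * j), hper p r, hs, mul_assoc, Nat.add_mul_mod_self_left]
    rw [sum_congr rfl h1, ← sum_mul, ih', mul_comm]

/-- the variance modulo `p` -/
noncomputable def Fam.va (F : Fam) (p : ℕ) : ℝ := (∑ j ∈ range p, F.g p j ^ 2) / p

lemma Fam.va_nonneg (F : Fam) (p : ℕ) : 0 ≤ F.va p :=
  div_nonneg (sum_nonneg fun _ _ => sq_nonneg _) (Nat.cast_nonneg _)

lemma Fam.va_le (F : Fam) {p : ℕ} (hp : 0 < p) (δ : ℝ) (hδ : ∀ m, |F.g p m| ≤ δ) :
    F.va p ≤ δ ^ 2 := by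
  unfold Fam.va
  rw [div_le_iff₀ (by exact_mod_cast hp)]
  calc ∑ j ∈ range p, F.g p j ^ 2 ≤ ∑ j ∈ range p, δ ^ 2 := by
        apply sum_le_sum
        intro j _
        rw [← sq_abs]
        exact pow_le_pow_left₀ (abs_nonneg _) (hδ j) 2
    _ = δ ^ 2 * p := by rw [sum_const, card_range, nsmul_eq_mul, mul_comm]

lemma exp_quad (u : ℝ) (hu : |u| ≤ 1) : Real.exp u ≤ 1 + u + u ^ 2 := by
  have := Real.abs_exp_sub_one_sub_id_le hu
  have := (abs_le.1 this).2
  linarith

lemma exp_mean (F : Fam) (P : Finset ℕ) (hP : ∀ p ∈ P, p.Prime) (s : ℝ)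
    (hs : ∀ p ∈ P, ∀ m, |s * F.g p m| ≤ 1) :
    ∑ m ∈ range (∏ p ∈ P, p), Real.exp (s * ∑ p ∈ P, F.g p m) ≤
      (∏ p ∈ P, p : ℕ) * Real.exp (s ^ 2 * ∑ p ∈ P, F.va p) := by
  have h1 : ∀ m ∈ range (∏ p ∈ P, p), Real.exp (s * ∑ p ∈ P, F.g p m) =
      ∏ p ∈ P, Real.exp (s * F.g p m) := by
    intro m _
    rw [mul_sum, Real.exp_sum]
  rw [sum_congr rfl h1, prod_formula (fun p m => Real.exp (s * F.g p m))
    (fun p m => by rw [F.per p m]) P hP]
  push_cast
  rw [mul_sum, Real.exp_sum, ← prod_mul_distrib]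
  apply Finset.prod_le_prod
  · intro p _
    exact sum_nonneg fun _ _ => (Real.exp_pos _).le
  · intro p hp
    have hp0 : (0 : ℝ) < p := by exact_mod_cast (hP p hp).pos
    calc ∑ j ∈ range p, Real.exp (s * F.g p j)
        ≤ ∑ j ∈ range p, (1 + s * F.g p j + (s * F.g p j) ^ 2) :=
          sum_le_sum fun j _ => exp_quad _ (hs p hp j)
      _ = p * (1 + s ^ 2 * F.va p) := by
          rw [sum_add_distrib, sum_add_distrib, ← mul_sum, F.zero p (hP p hp)]
          simp only [mul_pow]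
          rw [← mul_sum]
          unfold Fam.va
          simp
          field_simp
      _ ≤ p * Real.exp (s ^ 2 * F.va p) := by
          have := Real.add_one_le_exp (s ^ 2 * F.va p)
          gcongr
          linarith

/-- moments over the complete period -/
lemma model_mom (F : Fam) (P : Finset ℕ) (hP : ∀ p ∈ P, p.Prime) (k : ℕ)
    (hs : ∀ p ∈ P, ∀ m, |F.g p m| ≤ 1 / 2) :
    ∑ m ∈ range (∏ p ∈ P, p), (∑ p ∈ P, F.g p m) ^ (2 * k) ≤
      (∏ p ∈ P, p : ℕ) * ((2 * k).factorial * (2 / 4 ^ k * Real.exp (4 * ∑ p ∈ P, F.va p))) := by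
  have h1 : ∀ u : ℝ, u ^ (2 * k) ≤ (2 * k).factorial * (1 / 4 ^ k) *
      (Real.exp (2 * u) + Real.exp (-2 * u)) := by
    intro u
    have h2 := Real.pow_div_factorial_le_exp (|2 * u|) (abs_nonneg _) (2 * k)
    rw [Even.pow_abs ⟨k, by ring⟩, div_le_iff₀ (by positivity)] at h2
    have h3 : Real.exp |2 * u| ≤ Real.exp (2 * u) + Real.exp (-2 * u) := by
      have e1 := Real.exp_pos (2 * u)
      have e2 := Real.exp_pos (-2 * u)
      rcases abs_cases (2 * u) with h | h
      · rw [h.1]; linarith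
      · rw [h.1, ← neg_mul]; linarith
    have h4 : (2 * u) ^ (2 * k) = 4 ^ k * u ^ (2 * k) := by
      rw [mul_pow, pow_mul 2 2 k]; norm_num
    rw [h4] at h2
    have h5 : (0 : ℝ) < 4 ^ k := by positivity
    have h6 : (0 : ℝ) < (2 * k).factorial := by positivity
    rw [mul_assoc, one_div, ← div_eq_inv_mul, mul_div_assoc', le_div_iff₀ h5]
    nlinarith
  have hsp : ∀ p ∈ P, ∀ m, |2 * F.g p m| ≤ 1 := by
    intro p hp m
    rw [abs_mul, abs_two]
    linarith [hs p hp m]
  have hsm : ∀ p ∈ P, ∀ m, |(-2) * F.g p m| ≤ 1 := by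
    intro p hp m
    rw [abs_mul, abs_neg, abs_two]
    linarith [hs p hp m]
  have h2 := exp_mean F P hP 2 hsp
  have h3 := exp_mean F P hP (-2) hsm
  have e4 : ((-2 : ℝ)) ^ 2 = 4 := by norm_num
  have e5 : ((2 : ℝ)) ^ 2 = 4 := by norm_num
  rw [e4] at h3
  rw [e5] at h2
  calc ∑ m ∈ range (∏ p ∈ P, p), (∑ p ∈ P, F.g p m) ^ (2 * k)
      ≤ ∑ m ∈ range (∏ p ∈ P, p), (2 * k).factorial * (1 / 4 ^ k) *
        (Real.exp (2 * ∑ p ∈ P, F.g p m) + Real.exp (-2 * ∑ p ∈ P, F.g p m)) :=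
        sum_le_sum fun m _ => h1 _
    _ = (2 * k).factorial * (1 / 4 ^ k) * (∑ m ∈ range (∏ p ∈ P, p),
        Real.exp (2 * ∑ p ∈ P, F.g p m) + ∑ m ∈ range (∏ p ∈ P, p),
        Real.exp (-2 * ∑ p ∈ P, F.g p m)) := by
        rw [← mul_sum, sum_add_distrib]
    _ ≤ (2 * k).factorial * (1 / 4 ^ k) *
        ((∏ p ∈ P, p : ℕ) * Real.exp (4 * ∑ p ∈ P, F.va p) +
          (∏ p ∈ P, p : ℕ) * Real.exp (4 * ∑ p ∈ P, F.va p)) := by
        gcongr
    _ = _ := by ring

lemma per_cmp (h : ℕ → ℝ) (R s : ℕ) (hR : 0 < R) (hs : 0 < s) (hper : ∀ m, h (R + m) = h m)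
    (hb : ∀ m, |h m| ≤ 1) (y : ℕ) :
    |∑ m ∈ range y, h m - (y : ℝ) * ((∑ m ∈ range (R * s), h m) / ((R * s : ℕ) : ℝ))| ≤ 2 * R := by
  have hR0 : (0 : ℝ) < R := by exact_mod_cast hR
  have hs0 : (0 : ℝ) < s := by exact_mod_cast hs
  set μ := (∑ m ∈ range R, h m) / R with hμ
  have hshift : ∀ r j, h (r + R * j) = h r := by
    intro r j
    induction j with
    | zero => simp
    | succ j ih =>
      rw [Nat.mul_succ, ← add_assoc, add_comm (r + R * j) R, hper, ih]
  have h1 : (∑ m ∈ range (R * s), h m) / ((R * s : ℕ) : ℝ) = μ := by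
    rw [sum_blocks']
    simp only [hshift, sum_const, card_range, nsmul_eq_mul]
    rw [← mul_sum, hμ]
    push_cast
    field_simp
  have hμ1 : |μ| ≤ 1 := by
    rw [hμ, abs_div, abs_of_pos hR0, div_le_one hR0]
    calc |∑ m ∈ range R, h m| ≤ ∑ m ∈ range R, |h m| := abs_sum_le_sum_abs _ _
      _ ≤ ∑ m ∈ range R, (1 : ℝ) := sum_le_sum fun m _ => hb m
      _ = R := by simp
  rw [h1]
  have h2 := incomplete (fun m => (h m - μ) / 2) R hR (fun m => by simp only [hper]) (fun m => by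
    rw [abs_div, abs_two, div_le_one (by norm_num)]
    calc |h m - μ| ≤ |h m| + |μ| := abs_sub _ _
      _ ≤ 2 := by linarith [hb m]) (by
    rw [← sum_div, sum_sub_distrib, sum_const, card_range, nsmul_eq_mul, hμ, mul_div_cancel₀ _ hR0.ne']
    simp) y
  have h3 : ∑ m ∈ range y, h m - (y : ℝ) * μ = 2 * ∑ m ∈ range y, (h m - μ) / 2 := by
    rw [← sum_div, sum_sub_distrib, sum_const, card_range, nsmul_eq_mul]
    ring
  rw [h3, abs_mul, abs_two]
  linarith

lemma mom_cmp (F : Fam) (P : Finset ℕ) (x j y : ℕ) (hx : 1 ≤ x)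
    (hP : ∀ p ∈ P, p.Prime ∧ p ≤ x) :
    |∑ m ∈ range y, (∑ p ∈ P, F.g p m) ^ j - (y : ℝ) *
      ((∑ m ∈ range (∏ p ∈ P, p), (∑ p ∈ P, F.g p m) ^ j) / ((∏ p ∈ P, p : ℕ) : ℝ))| ≤
      2 * ((#P : ℝ) * x) ^ j := by
  classical
  have h1 : ∀ m, (∑ p ∈ P, F.g p m) ^ j =
      ∑ f ∈ Fintype.piFinset (fun _ : Fin j => P), ∏ i, F.g (f i) m := by
    intro m
    rw [← Finset.prod_univ_sum (fun _ : Fin j => P) (fun _ p => F.g p m)]
    simp
  simp only [h1]
  rw [sum_comm, sum_comm (s := range (∏ p ∈ P, p)), sum_div, mul_sum, ← sum_sub_distrib]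
  refine (abs_sum_le_sum_abs _ _).trans ?_
  have h2 : ∀ f ∈ Fintype.piFinset (fun _ : Fin j => P),
      |∑ m ∈ range y, ∏ i, F.g (f i) m - (y : ℝ) * ((∑ m ∈ range (∏ p ∈ P, p),
        ∏ i, F.g (f i) m) / ((∏ p ∈ P, p : ℕ) : ℝ))| ≤ 2 * (x : ℝ) ^ j := by
    intro f hf
    rw [Fintype.mem_piFinset] at hf
    set N := ∏ p ∈ univ.image f, p with hN
    have hNpos : 0 < N := by
      apply Finset.prod_pos
      intro p hp
      rw [mem_image] at hp
      obtain ⟨i, _, rfl⟩ := hp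
      exact (hP _ (hf i)).1.pos
    have hsub : univ.image f ⊆ P := by
      intro p hp
      rw [mem_image] at hp
      obtain ⟨i, _, rfl⟩ := hp
      exact hf i
    obtain ⟨s, hs⟩ : N ∣ ∏ p ∈ P, p := Finset.prod_dvd_prod_of_subset _ _ _ hsub
    have hPpos : 0 < ∏ p ∈ P, p := Finset.prod_pos fun p hp => (hP p hp).1.pos
    have hspos : 0 < s := by
      rcases Nat.eq_zero_or_pos s with h | h
      · rw [hs, h, mul_zero] at hPpos
        exact absurd hPpos (lt_irrefl _)
      · exact h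
    have h3 := per_cmp (fun m => ∏ i, F.g (f i) m) N s hNpos hspos (fun m => by
      apply prod_congr rfl
      intro i _
      have h2 : f i ∣ N := Finset.dvd_prod_of_mem (fun p => p) (mem_image_of_mem f (mem_univ i))
      have h3 := F.shift h2 m 1
      rw [mul_one] at h3
      rw [add_comm]
      exact h3) (prod_abs_le F f) y
    rw [hs]
    refine h3.trans ?_
    have h4 : N ≤ x ^ #(univ.image f) := by
      apply Finset.prod_le_pow_card
      intro p hp
      exact (hP p (hsub hp)).2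
    have h5 : #(univ.image f) ≤ j := card_image_le.trans (by simp)
    have h6 : N ≤ x ^ j := h4.trans (Nat.pow_le_pow_right hx h5)
    have h7 : (N : ℝ) ≤ (x : ℝ) ^ j := by exact_mod_cast h6
    linarith
  refine (sum_le_sum h2).trans ?_
  rw [sum_const, nsmul_eq_mul, Fintype.card_piFinset_const, mul_pow]
  push_cast
  linarith

/-- the factor of a prime in the characteristic function -/
noncomputable def Fam.ph (F : Fam) (p : ℕ) : ℂ :=
  (∑ j ∈ range p, Complex.exp (Complex.I * ((F.g p j : ℝ) : ℂ))) / p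

lemma ph_norm (F : Fam) {p : ℕ} (hp : 0 < p) : ‖F.ph p‖ ≤ 1 := by
  unfold Fam.ph
  rw [norm_div, Complex.norm_natCast, div_le_one (by exact_mod_cast hp)]
  refine (norm_sum_le _ _).trans ?_
  calc ∑ j ∈ range p, ‖Complex.exp (Complex.I * ((F.g p j : ℝ) : ℂ))‖ = ∑ j ∈ range p, (1 : ℝ) := by
        apply sum_congr rfl
        intro j _
        rw [mul_comm]
        exact Complex.norm_exp_ofReal_mul_I _
    _ ≤ p := by simp

lemma ph_gauss (F : Fam) {p : ℕ} (hp : p.Prime) (δ : ℝ) (hδ1 : δ ≤ 1)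
    (hb : ∀ m, |F.g p m| ≤ δ) :
    ‖F.ph p - ((Real.exp (-(F.va p) / 2) : ℝ) : ℂ)‖ ≤ 2 * δ * F.va p := by
  have hp0 : (0 : ℝ) < p := by exact_mod_cast hp.pos
  have hδ0 : 0 ≤ δ := (abs_nonneg _).trans (hb 0)
  have hv0 := F.va_nonneg p
  have hv1 := F.va_le hp.pos δ hb
  -- first step
  have h1 : ‖F.ph p - ((1 - F.va p / 2 : ℝ) : ℂ)‖ ≤ δ * F.va p := by
    have e1 : F.ph p - ((1 - F.va p / 2 : ℝ) : ℂ) =
        (∑ j ∈ range p, (Complex.exp (Complex.I * ((F.g p j : ℝ) : ℂ)) - Sm 3 (F.g p j))) / p := by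
      have e2 : ∑ j ∈ range p, Sm 3 (F.g p j) = (p : ℂ) * ((1 - F.va p / 2 : ℝ) : ℂ) := by
        have e3 : ∀ j ∈ range p, Sm 3 (F.g p j) =
            ((1 - F.g p j ^ 2 / 2 : ℝ) : ℂ) + Complex.I * ((F.g p j : ℝ) : ℂ) := by
          intro j _
          unfold Sm
          have hI : (Complex.I * ((F.g p j : ℝ) : ℂ)) ^ 2 = -((F.g p j : ℝ) : ℂ) ^ 2 := by
            rw [mul_pow, Complex.I_sq]; ring
          rw [sum_range_succ, sum_range_succ, sum_range_succ, sum_range_zero, hI]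
          push_cast
          norm_num [Nat.factorial]
          ring
        rw [sum_congr rfl e3, sum_add_distrib, ← mul_sum, ← Complex.ofReal_sum, ← Complex.ofReal_sum,
          F.zero p hp, Complex.ofReal_zero, mul_zero, add_zero, ← Complex.ofReal_natCast,
          ← Complex.ofReal_mul]
        congr 1
        rw [sum_sub_distrib, ← sum_div]
        unfold Fam.va
        simp
        field_simp
      rw [sum_sub_distrib, e2]
      unfold Fam.ph
      have hpc : (p : ℂ) ≠ 0 := by exact_mod_cast hp.ne_zero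
      field_simp
    rw [e1, norm_div, Complex.norm_natCast, div_le_iff₀ hp0]
    refine (norm_sum_le _ _).trans ?_
    calc ∑ j ∈ range p, ‖Complex.exp (Complex.I * ((F.g p j : ℝ) : ℂ)) - Sm 3 (F.g p j)‖
        ≤ ∑ j ∈ range p, δ * F.g p j ^ 2 := by
          apply sum_le_sum
          intro j _
          refine (tay 3 (F.g p j)).trans ?_
          have h2 := hb j
          have h3 : |F.g p j| ^ 3 = |F.g p j| * F.g p j ^ 2 := by
            rw [pow_succ, sq_abs]; ring
          rw [h3]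
          have h4 : |F.g p j| * F.g p j ^ 2 ≤ δ * F.g p j ^ 2 :=
            mul_le_mul_of_nonneg_right h2 (sq_nonneg _)
          have h5 : 0 ≤ |F.g p j| * F.g p j ^ 2 := by positivity
          refine le_trans (div_le_self h5 ?_) h4
          norm_num [Nat.factorial]
      _ = δ * F.va p * p := by
          rw [← mul_sum]
          unfold Fam.va
          field_simp
  have h2 : ‖((1 - F.va p / 2 : ℝ) : ℂ) - ((Real.exp (-(F.va p) / 2) : ℝ) : ℂ)‖ ≤ δ * F.va p := by
    rw [← Complex.ofReal_sub, Complex.norm_real, Real.norm_eq_abs]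
    have h3 := Real.abs_exp_sub_one_sub_id_le (x := -(F.va p) / 2) (by
      rw [abs_div, abs_neg, abs_of_nonneg hv0, abs_two]
      nlinarith)
    rw [abs_sub_comm]
    have e1 : Real.exp (-(F.va p) / 2) - (1 - F.va p / 2) =
        Real.exp (-(F.va p) / 2) - 1 - -(F.va p) / 2 := by ring
    rw [e1]
    refine h3.trans ?_
    nlinarith [mul_nonneg hv0 hv0, mul_nonneg hδ0 hv0]
  calc ‖F.ph p - ((Real.exp (-(F.va p) / 2) : ℝ) : ℂ)‖ ≤ ‖F.ph p - ((1 - F.va p / 2 : ℝ) : ℂ)‖ +
        ‖((1 - F.va p / 2 : ℝ) : ℂ) - ((Real.exp (-(F.va p) / 2) : ℝ) : ℂ)‖ := norm_sub_le_norm_sub_add_norm_sub _ _ _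
    _ ≤ _ := by linarith

lemma prod_cmp (P : Finset ℕ) (a b : ℕ → ℂ) (ha : ∀ p ∈ P, ‖a p‖ ≤ 1) (hb : ∀ p ∈ P, ‖b p‖ ≤ 1) :
    ‖∏ p ∈ P, a p - ∏ p ∈ P, b p‖ ≤ ∑ p ∈ P, ‖a p - b p‖ := by
  classical
  induction P using Finset.induction_on with
  | empty => simp
  | insert q P hq ih =>
    rw [prod_insert hq, prod_insert hq, sum_insert hq]
    have ih' := ih (fun p hp => ha p (mem_insert_of_mem hp)) (fun p hp => hb p (mem_insert_of_mem hp))
    have e : a q * ∏ p ∈ P, a p - b q * ∏ p ∈ P, b p =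
        a q * (∏ p ∈ P, a p - ∏ p ∈ P, b p) + (a q - b q) * ∏ p ∈ P, b p := by ring
    rw [e]
    refine (norm_add_le _ _).trans ?_
    rw [norm_mul, norm_mul, add_comm]
    have h1 : ‖∏ p ∈ P, b p‖ ≤ 1 := by
      rw [norm_prod]
      exact prod_le_one (fun _ _ => norm_nonneg _) fun p hp => hb p (mem_insert_of_mem hp)
    have h2 := ha q (mem_insert_self _ _)
    exact add_le_add (mul_le_of_le_one_right (norm_nonneg _) h1)
      ((mul_le_of_le_one_left (norm_nonneg _) h2).trans ih')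

/-- the characteristic function over the complete period -/
lemma char_model (F : Fam) (P : Finset ℕ) (hP : ∀ p ∈ P, p.Prime) :
    (∑ m ∈ range (∏ p ∈ P, p), Complex.exp (Complex.I * ((∑ p ∈ P, F.g p m : ℝ) : ℂ))) /
      ((∏ p ∈ P, p : ℕ) : ℂ) = ∏ p ∈ P, F.ph p := by
  have h1 : ∀ m ∈ range (∏ p ∈ P, p), Complex.exp (Complex.I * ((∑ p ∈ P, F.g p m : ℝ) : ℂ)) =
      ∏ p ∈ P, Complex.exp (Complex.I * ((F.g p m : ℝ) : ℂ)) := by
    intro m _
    rw [Complex.ofReal_sum, mul_sum, Complex.exp_sum]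
  rw [sum_congr rfl h1, prod_formula (fun p m => Complex.exp (Complex.I * ((F.g p m : ℝ) : ℂ)))
    (fun p m => by rw [F.per p m]) P hP]
  unfold Fam.ph
  rw [prod_div_distrib]
  push_cast
  rfl

end Pool.Agent.H735A
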