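import Mathlib
import Pool.Agent.H735A.Gauss
import Pool.Agent.R421.EK.Law

set_option autoImplicit false

/-! # The joint Gaussian law -/

namespace Pool.Agent.H735A

open Finset Filter Topology
open Pool.Agent.Y586.SW (Sm tay)

lemma avg_cmp (Z : ℕ → ℝ) (y N k : ℕ) (hy : 0 < y) (hN : 0 < N) (E : ℕ → ℝ)
    (hE : ∀ j ≤ 2 * k, |(∑ m ∈ range y, Z m ^ j) / y - (∑ m ∈ range N, Z m ^ j) / N| ≤ E j)
    (M : ℝ) (hM : (∑ m ∈ range N, Z m ^ (2 * k)) / N ≤ (2 * k).factorial * M) :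
    ‖(∑ m ∈ range y, Complex.exp (Complex.I * ((Z m : ℝ) : ℂ))) / y -
      (∑ m ∈ range N, Complex.exp (Complex.I * ((Z m : ℝ) : ℂ))) / N‖ ≤
      ∑ j ∈ range (2 * k + 1), E j + 2 * M := by
  have hy0 : (0 : ℝ) < y := by exact_mod_cast hy
  have hN0 : (0 : ℝ) < N := by exact_mod_cast hN
  let f : ℝ → ℂ := fun u => Complex.exp (Complex.I * (u : ℂ))
  have htay : ∀ u : ℝ, ‖f u - Sm (2 * k) u‖ ≤ u ^ (2 * k) / (2 * k).factorial := by
    intro u
    have h1 := tay (2 * k) u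
    rwa [Even.pow_abs ⟨k, by ring⟩] at h1
  have hfac : (0 : ℝ) < ((2 * k).factorial : ℕ) := by positivity
  have gen : ∀ T : ℕ, 0 < T → ‖(∑ m ∈ range T, f (Z m)) / T - (∑ m ∈ range T, Sm (2 * k) (Z m)) / T‖ ≤
      (∑ m ∈ range T, Z m ^ (2 * k)) / T / (2 * k).factorial := by
    intro T hT
    have hT0 : (0 : ℝ) < T := by exact_mod_cast hT
    rw [← sub_div, ← sum_sub_distrib, norm_div, Complex.norm_natCast]
    rw [div_div, mul_comm (T : ℝ), ← div_div]
    apply div_le_div_of_nonneg_right _ hT0.le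
    rw [sum_div]
    exact (norm_sum_le _ _).trans (sum_le_sum fun s _ => htay _)
  have e1 := gen y hy
  have e2 := gen N hN
  have e3 : ‖(∑ m ∈ range y, Sm (2 * k) (Z m)) / y - (∑ m ∈ range N, Sm (2 * k) (Z m)) / N‖ ≤
      ∑ j ∈ range (2 * k), E j := by
    have h1 : (∑ m ∈ range y, Sm (2 * k) (Z m)) / y - (∑ m ∈ range N, Sm (2 * k) (Z m)) / N =
        ∑ j ∈ range (2 * k), Complex.I ^ j / (j.factorial : ℂ) *
          (((∑ m ∈ range y, Z m ^ j) / y - (∑ m ∈ range N, Z m ^ j) / N : ℝ) : ℂ) := by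
      unfold Sm
      rw [sum_comm, sum_comm (s := range N), sum_div, sum_div, ← sum_sub_distrib]
      refine sum_congr rfl fun j _ => ?_
      push_cast
      simp_rw [mul_pow]
      rw [← sum_div, ← mul_sum, ← sum_div, ← mul_sum]
      ring
    rw [h1]
    refine (norm_sum_le _ _).trans (sum_le_sum fun j hj => ?_)
    rw [mem_range] at hj
    rw [norm_mul, norm_div, norm_pow, Complex.norm_I, one_pow, Complex.norm_natCast, Complex.norm_real,
      Real.norm_eq_abs]
    have h2 : (1 : ℝ) / (j.factorial : ℕ) ≤ 1 := by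
      rw [div_le_one (by positivity)]
      exact_mod_cast Nat.succ_le_of_lt j.factorial_pos
    exact (mul_le_of_le_one_left (abs_nonneg _) h2).trans (hE j hj.le)
  have h5 : ‖(∑ m ∈ range y, f (Z m)) / y - (∑ m ∈ range N, f (Z m)) / N‖ ≤
      (∑ m ∈ range y, Z m ^ (2 * k)) / y / (2 * k).factorial + ∑ j ∈ range (2 * k), E j +
        (∑ m ∈ range N, Z m ^ (2 * k)) / N / (2 * k).factorial := by
    have h6 : (∑ m ∈ range y, f (Z m)) / y - (∑ m ∈ range N, f (Z m)) / N =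
      ((∑ m ∈ range y, f (Z m)) / y - (∑ m ∈ range y, Sm (2 * k) (Z m)) / y) +
      ((∑ m ∈ range y, Sm (2 * k) (Z m)) / y - (∑ m ∈ range N, Sm (2 * k) (Z m)) / N) -
      ((∑ m ∈ range N, f (Z m)) / N - (∑ m ∈ range N, Sm (2 * k) (Z m)) / N) := by ring
    rw [h6]
    refine (norm_sub_le _ _).trans (add_le_add ((norm_add_le _ _).trans (add_le_add e1 e3)) e2)
  refine h5.trans ?_
  have h6 := (abs_le.1 (hE (2 * k) le_rfl)).2
  have hE0 : 0 ≤ E (2 * k) := (abs_nonneg _).trans (hE (2 * k) le_rfl)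
  have h7 : (∑ m ∈ range N, Z m ^ (2 * k)) / N / (2 * k).factorial ≤ M := by
    rw [div_le_iff₀ hfac]
    exact hM.trans (le_of_eq (mul_comm _ _))
  have h8 : (∑ m ∈ range y, Z m ^ (2 * k)) / y / (2 * k).factorial ≤ M + E (2 * k) := by
    have h10 : (∑ m ∈ range y, Z m ^ (2 * k)) / y ≤ (∑ m ∈ range N, Z m ^ (2 * k)) / N + E (2 * k) := by
      linarith
    calc (∑ m ∈ range y, Z m ^ (2 * k)) / y / (2 * k).factorial ≤
          ((∑ m ∈ range N, Z m ^ (2 * k)) / N + E (2 * k)) / (2 * k).factorial := by gcongr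
      _ = (∑ m ∈ range N, Z m ^ (2 * k)) / N / (2 * k).factorial + E (2 * k) / (2 * k).factorial := by
          rw [add_div]
      _ ≤ M + E (2 * k) := by
          have h9 : E (2 * k) / (2 * k).factorial ≤ E (2 * k) := by
            apply div_le_self hE0
            exact_mod_cast Nat.succ_le_of_lt (2 * k).factorial_pos
          linarith
  rw [sum_range_succ]
  linarith

theorem char_cmp (F : Fam) (P : Finset ℕ) (x k y : ℕ) (hx : 1 ≤ x) (hy : 1 ≤ y)
    (hP : ∀ p ∈ P, p.Prime ∧ p ≤ x) (δ : ℝ) (hδ : δ ≤ 1 / 2) (hb : ∀ p ∈ P, ∀ m, |F.g p m| ≤ δ) :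
    ‖(∑ m ∈ range y, Complex.exp (Complex.I * ((∑ p ∈ P, F.g p m : ℝ) : ℂ))) / y -
      ((Real.exp (-(∑ p ∈ P, F.va p) / 2) : ℝ) : ℂ)‖ ≤
      ∑ j ∈ range (2 * k + 1), 2 * ((#P : ℝ) * x) ^ j / y +
        4 / 4 ^ k * Real.exp (4 * ∑ p ∈ P, F.va p) + 2 * δ * ∑ p ∈ P, F.va p := by
  have hPp : ∀ p ∈ P, p.Prime := fun p hp => (hP p hp).1
  have hy0 : (0 : ℝ) < y := by exact_mod_cast hy
  set N := ∏ p ∈ P, p with hN
  have hNpos : 0 < N := Finset.prod_pos fun p hp => (hPp p hp).pos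
  have hN0 : (0 : ℝ) < N := by exact_mod_cast hNpos
  have h1 := avg_cmp (fun m => ∑ p ∈ P, F.g p m) y N k hy hNpos
    (fun j => 2 * ((#P : ℝ) * x) ^ j / y) (by
      intro j _
      have h2 := mom_cmp F P x j y hx hP
      rw [← hN] at h2
      have h3 : (∑ m ∈ range y, (∑ p ∈ P, F.g p m) ^ j) / y - (∑ m ∈ range N, (∑ p ∈ P, F.g p m) ^ j) / N
          = (∑ m ∈ range y, (∑ p ∈ P, F.g p m) ^ j - (y : ℝ) *
            ((∑ m ∈ range N, (∑ p ∈ P, F.g p m) ^ j) / (N : ℝ))) / y := by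
        field_simp
      rw [h3, abs_div, abs_of_pos hy0]
      gcongr) (2 / 4 ^ k * Real.exp (4 * ∑ p ∈ P, F.va p)) (by
      have h2 := model_mom F P hPp k (fun p hp m => (hb p hp m).trans hδ)
      rw [div_le_iff₀ hN0]
      exact h2.trans (le_of_eq (mul_comm _ _)))
  have h2 : ‖(∑ m ∈ range N, Complex.exp (Complex.I * ((∑ p ∈ P, F.g p m : ℝ) : ℂ))) / (N : ℂ) -
      ((Real.exp (-(∑ p ∈ P, F.va p) / 2) : ℝ) : ℂ)‖ ≤ 2 * δ * ∑ p ∈ P, F.va p := by
    rw [hN, char_model F P hPp]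
    have h3 : ((Real.exp (-(∑ p ∈ P, F.va p) / 2) : ℝ) : ℂ) =
        ∏ p ∈ P, ((Real.exp (-(F.va p) / 2) : ℝ) : ℂ) := by
      rw [← Complex.ofReal_prod, ← Real.exp_sum]
      congr 2
      rw [← sum_neg_distrib, sum_div]
    rw [h3]
    refine (prod_cmp P _ _ (fun p hp => ph_norm F (hPp p hp).pos) (fun p hp => ?_)).trans ?_
    · rw [Complex.norm_real, Real.norm_eq_abs, abs_of_pos (Real.exp_pos _), Real.exp_le_one_iff]
      have := F.va_nonneg p
      linarith
    · rw [mul_sum]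
      apply sum_le_sum
      intro p hp
      exact ph_gauss F (hPp p hp) δ (by linarith) (hb p hp)
  refine (norm_sub_le_norm_sub_add_norm_sub _
    ((∑ m ∈ range N, Complex.exp (Complex.I * ((∑ p ∈ P, F.g p m : ℝ) : ℂ))) / (N : ℂ)) _).trans ?_
  have e4 : 2 * (2 / 4 ^ k * Real.exp (4 * ∑ p ∈ P, F.va p)) =
      4 / 4 ^ k * Real.exp (4 * ∑ p ∈ P, F.va p) := by ring
  rw [e4] at h1
  linarith

/-- scaling -/
noncomputable def Fam.scale (F : Fam) (c : ℕ → ℝ) (hc : ∀ p, |c p| ≤ 1) : Fam where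
  g := fun p m => c p * F.g p m
  per := fun p m => by rw [F.per p m]
  bd := fun p m => by
    rw [abs_mul]
    exact mul_le_one₀ (hc p) (abs_nonneg _) (F.bd p m)
  zero := fun p hp => by rw [← mul_sum, F.zero p hp, mul_zero]

lemma Fam.scale_va (F : Fam) (c : ℕ → ℝ) (hc : ∀ p, |c p| ≤ 1) (p : ℕ) :
    (F.scale c hc).va p = c p ^ 2 * F.va p := by
  unfold Fam.va Fam.scale
  simp only [mul_pow]
  rw [← mul_sum, mul_div_assoc]

theorem gauss_lim {ι : Type} [Fintype ι] [DecidableEq ι] (F : ℕ → Fam) (x y : ℕ → ℕ)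
    (P : ℕ → ι → Finset ℕ) (hP : ∀ n i, ∀ p ∈ P n i, p.Prime ∧ p ≤ x n)
    (hdis : ∀ n i j, i ≠ j → Disjoint (P n i) (P n j)) (hx : Tendsto x atTop atTop)
    (hy : ∀ K : ℕ, ∀ᶠ n in atTop, x n ^ K ≤ y n) (W : ℕ → ι → ℝ)
    (hW : ∀ i, Tendsto (fun n => W n i) atTop atTop)
    (hV : ∀ i, Tendsto (fun n => (∑ p ∈ P n i, (F n).va p) / W n i) atTop (𝓝 1))
    (s : ℕ → ι → ℝ) (hs : ∀ i, Tendsto (fun n => s n i / √(W n i)) atTop (𝓝 0)) (θ : ι → ℝ) :
    Tendsto (fun n => (∑ m ∈ range (y n), Complex.exp (((∑ i, θ i *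
      ((∑ p ∈ P n i, (F n).g p m + s n i) / √(W n i)) : ℝ) : ℂ) * Complex.I)) / (y n : ℂ)) atTop
      (𝓝 (((Real.exp (-(∑ i, θ i ^ 2) / 2) : ℝ) : ℂ))) := by
  classical
  let c : ℕ → ℕ → ℝ := fun n p => ∑ i, if p ∈ P n i then θ i / √(W n i) else 0
  let U : ℕ → Finset ℕ := fun n => univ.biUnion (P n)
  let Θ : ℕ → ℝ := fun n => ∑ i, θ i ^ 2 * ((∑ p ∈ P n i, (F n).va p) / W n i)
  let δ : ℕ → ℝ := fun n => ∑ i, |θ i| / √(W n i)
  let A : ℕ → ℝ := fun n => ∑ i, θ i * (s n i / √(W n i))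
  have hsW : ∀ i, Tendsto (fun n => √(W n i)) atTop atTop := fun i =>
    (Real.tendsto_sqrt_atTop).comp (hW i)
  have hΘ : Tendsto Θ atTop (𝓝 (∑ i, θ i ^ 2)) := by
    have : Tendsto Θ atTop (𝓝 (∑ i, θ i ^ 2 * 1)) :=
      tendsto_finsetSum _ fun i _ => (hV i).const_mul _
    simpa using this
  have hδ : Tendsto δ atTop (𝓝 0) := by
    have : Tendsto δ atTop (𝓝 (∑ i : ι, (0 : ℝ))) :=
      tendsto_finsetSum _ fun i _ => (tendsto_const_nhds).div_atTop (hsW i)
    simpa using this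
  have hA : Tendsto A atTop (𝓝 0) := by
    have : Tendsto A atTop (𝓝 (∑ i : ι, θ i * (0 : ℝ))) :=
      tendsto_finsetSum _ fun i _ => (hs i).const_mul _
    simpa using this
  have hδ0 : ∀ n, 0 ≤ δ n := fun n => sum_nonneg fun i _ => by positivity
  -- coefficients
  have hcU : ∀ n i p, p ∈ P n i → c n p = θ i / √(W n i) := by
    intro n i p hp
    simp only [c]
    rw [sum_eq_single i]
    · rw [if_pos hp]
    · intro j _ hj
      rw [if_neg]
      intro hpj
      exact Finset.disjoint_left.1 (hdis n i j hj.symm) hp hpj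
    · intro h
      exact absurd (mem_univ i) h
  have hcb : ∀ n p, |c n p| ≤ δ n := by
    intro n p
    simp only [c, δ]
    refine (abs_sum_le_sum_abs _ _).trans (sum_le_sum fun i _ => ?_)
    split_ifs
    · rw [abs_div, abs_of_nonneg (Real.sqrt_nonneg _)]
    · rw [abs_zero]; positivity
  have hlin : ∀ n m, ∑ i, θ i * ((∑ p ∈ P n i, (F n).g p m + s n i) / √(W n i)) =
      A n + ∑ p ∈ U n, c n p * (F n).g p m := by
    intro n m
    have h1 : ∑ p ∈ U n, c n p * (F n).g p m = ∑ i, ∑ p ∈ P n i, c n p * (F n).g p m := by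
      simp only [U]
      rw [sum_biUnion]
      intro i _ j _ hij
      exact hdis n i j hij
    rw [h1, ← sum_add_distrib]
    refine sum_congr rfl fun i _ => ?_
    have e : ∑ p ∈ P n i, c n p * (F n).g p m = θ i / √(W n i) * ∑ p ∈ P n i, (F n).g p m := by
      rw [mul_sum]
      exact sum_congr rfl fun p hp => by rw [hcU n i p hp]
    rw [e]
    ring
  have key : Tendsto (fun n => (∑ m ∈ range (y n), Complex.exp (Complex.I *
      ((∑ p ∈ U n, c n p * (F n).g p m : ℝ) : ℂ))) / (y n : ℂ) -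
        ((Real.exp (-(Θ n) / 2) : ℝ) : ℂ)) atTop (𝓝 0) := by
    rw [tendsto_zero_iff_norm_tendsto_zero, Metric.tendsto_nhds]
    intro ε hε
    -- choice of `k`
    have hk1 : Tendsto (fun k : ℕ => 4 / (4 : ℝ) ^ k * Real.exp (4 * (∑ i, θ i ^ 2 + 1))) atTop
        (𝓝 0) := by
      have h3 : Tendsto (fun k : ℕ => (4 : ℝ) ^ k) atTop atTop :=
        tendsto_pow_atTop_atTop_of_one_lt (by norm_num)
      have h4 := ((tendsto_const_nhds (x := (4 : ℝ))).div_atTop h3).mul_const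
        (Real.exp (4 * (∑ i, θ i ^ 2 + 1)))
      simpa using h4
    obtain ⟨k, hk⟩ := ((Metric.tendsto_nhds.1 hk1) (ε / 4) (by positivity)).exists
    rw [Real.dist_eq, sub_zero] at hk
    have hk' := (le_abs_self _).trans_lt hk
    have hxr : Tendsto (fun n => (x n : ℝ)) atTop atTop := tendsto_natCast_atTop_atTop.comp hx
    have hδΘ : Tendsto (fun n => 2 * δ n * Θ n) atTop (𝓝 0) := by
      have := (hδ.const_mul 2).mul hΘ
      simpa using this
    have hU : ∀ n, ∀ p ∈ U n, p.Prime ∧ p ≤ x n := by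
      intro n p hp
      simp only [U, mem_biUnion, mem_univ, true_and] at hp
      obtain ⟨i, hi⟩ := hp
      exact hP n i p hi
    filter_upwards [hxr.eventually_gt_atTop ((4 * (2 * k + 1)) * (4 / ε)), hx.eventually_ge_atTop 1,
      hy (4 * k + 1), (Metric.tendsto_nhds.1 hδ) (1 / 2) (by norm_num),
      (Metric.tendsto_nhds.1 hΘ) 1 (by norm_num), (Metric.tendsto_nhds.1 hδΘ) (ε / 4) (by positivity),
      eventually_all.2 (fun i => (hW i).eventually_gt_atTop 0)]
      with n h1 h2 h3 h4 h5 h6 h7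
    rw [Real.dist_eq, sub_zero] at h4 h6
    rw [Real.dist_eq] at h5
    have h4' := (le_abs_self _).trans_lt h4
    have h6' := (le_abs_self _).trans_lt h6
    have h5' := (abs_lt.1 h5).2
    have hy1 : 1 ≤ y n := le_trans (Nat.one_le_pow _ _ h2) h3
    have hc1 : ∀ p, |c n p| ≤ 1 := fun p => by linarith [hcb n p]
    have h8 := char_cmp ((F n).scale (c n) hc1) (U n) (x n) k (y n) h2 hy1 (hU n) (δ n)
      h4'.le (fun p _ m => by
        change |c n p * (F n).g p m| ≤ δ n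
        rw [abs_mul]
        exact (mul_le_of_le_one_right (abs_nonneg _) ((F n).bd p m)).trans (hcb n p))
    have h9 : ∑ p ∈ U n, ((F n).scale (c n) hc1).va p = Θ n := by
      simp only [U, Θ]
      rw [sum_biUnion (fun i _ j _ hij => hdis n i j hij)]
      refine sum_congr rfl fun i _ => ?_
      have e : ∑ p ∈ P n i, ((F n).scale (c n) hc1).va p =
          (θ i / √(W n i)) ^ 2 * ∑ p ∈ P n i, (F n).va p := by
        rw [mul_sum]
        exact sum_congr rfl fun p hp => by rw [Fam.scale_va, hcU n i p hp]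
      rw [e, div_pow, Real.sq_sqrt (h7 i).le]
      ring
    rw [h9] at h8
    have h10 : ∀ m, ∑ p ∈ U n, ((F n).scale (c n) hc1).g p m = ∑ p ∈ U n, c n p * (F n).g p m :=
      fun m => rfl
    simp only [h10] at h8
    rw [dist_zero_right, norm_norm]
    refine h8.trans_lt ?_
    have hx0 : (0 : ℝ) < x n := by exact_mod_cast h2
    have hx1 : (1 : ℝ) ≤ x n := by exact_mod_cast h2
    have hyx : (x n : ℝ) ^ (4 * k + 1) ≤ y n := by exact_mod_cast h3
    have hy0 : (0 : ℝ) < y n := by exact_mod_cast hy1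
    have hUx : (#(U n) : ℝ) ≤ x n := by
      have h11 : U n ⊆ Icc 1 (x n) := fun p hp => by
        rw [mem_Icc]
        exact ⟨(hU n p hp).1.pos, (hU n p hp).2⟩
      have := card_le_card h11
      rw [Nat.card_Icc] at this
      exact_mod_cast (by omega : #(U n) ≤ x n)
    have h12 : ∑ j ∈ range (2 * k + 1), 2 * ((#(U n) : ℝ) * x n) ^ j / y n < ε / 4 := by
      calc ∑ j ∈ range (2 * k + 1), 2 * ((#(U n) : ℝ) * x n) ^ j / y n
          ≤ ∑ j ∈ range (2 * k + 1), 2 * (1 / (x n : ℝ)) := by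
            apply sum_le_sum
            intro j hj
            rw [mem_range] at hj
            rw [mul_div_assoc]
            apply mul_le_mul_of_nonneg_left _ (by norm_num)
            rw [div_le_div_iff₀ hy0 hx0, one_mul]
            calc ((#(U n) : ℝ) * x n) ^ j * x n ≤ ((x n : ℝ) * x n) ^ j * x n := by gcongr
              _ = (x n : ℝ) ^ (2 * j + 1) := by
                rw [← pow_two, ← pow_mul, pow_succ]
              _ ≤ (x n : ℝ) ^ (4 * k + 1) := pow_le_pow_right₀ hx1 (by omega)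
              _ ≤ y n := hyx
        _ = (2 * (2 * k + 1)) / x n := by
            rw [sum_const, card_range, nsmul_eq_mul]
            push_cast
            ring
        _ < ε / 4 := by
            rw [div_lt_iff₀ hx0]
            have h13 : (4 * (2 * (k : ℝ) + 1)) * (4 / ε) * (ε / 4) = 4 * (2 * k + 1) := by
              field_simp
            have h14 : (4 * (2 * (k : ℝ) + 1)) * (4 / ε) * (ε / 4) < x n * (ε / 4) :=
              mul_lt_mul_of_pos_right h1 (by positivity)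
            have h15 : (0 : ℝ) ≤ k := Nat.cast_nonneg _
            linarith
    have h13 : 4 / 4 ^ k * Real.exp (4 * Θ n) < ε / 4 := by
      refine lt_of_le_of_lt ?_ hk'
      gcongr
      linarith
    linarith
  have h1 : Tendsto (fun n => (∑ m ∈ range (y n), Complex.exp (Complex.I *
      ((∑ p ∈ U n, c n p * (F n).g p m : ℝ) : ℂ))) / (y n : ℂ)) atTop
        (𝓝 ((Real.exp (-(∑ i, θ i ^ 2) / 2) : ℝ) : ℂ)) := by
    have h2 : Tendsto (fun n => ((Real.exp (-(Θ n) / 2) : ℝ) : ℂ)) atTop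
        (𝓝 ((Real.exp (-(∑ i, θ i ^ 2) / 2) : ℝ) : ℂ)) :=
      (Complex.continuous_ofReal.tendsto _).comp
        ((Real.continuous_exp.tendsto _).comp (hΘ.neg.div_const 2))
    have h3 := key.add h2
    simpa using h3
  have h2 : Tendsto (fun n => Complex.exp (Complex.I * ((A n : ℝ) : ℂ))) atTop (𝓝 1) := by
    have h3 : Tendsto (fun n => Complex.exp (Complex.I * ((A n : ℝ) : ℂ))) atTop
        (𝓝 (Complex.exp (Complex.I * ((0 : ℝ) : ℂ)))) :=
      (Complex.continuous_exp.tendsto _).comp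
        (((Complex.continuous_ofReal.tendsto _).comp hA).const_mul Complex.I)
    simpa using h3
  have h3 := h2.mul h1
  rw [one_mul] at h3
  refine h3.congr fun n => ?_
  rw [mul_div_assoc', mul_sum]
  congr 1
  refine sum_congr rfl fun m _ => ?_
  rw [hlin, ← Complex.exp_add]
  congr 1
  push_cast
  ring

/-- the joint law for `m < y` -/
theorem gauss_law {ι : Type} [Fintype ι] [DecidableEq ι] (F : ℕ → Fam) (x y : ℕ → ℕ)
    (P : ℕ → ι → Finset ℕ) (hP : ∀ n i, ∀ p ∈ P n i, p.Prime ∧ p ≤ x n)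
    (hdis : ∀ n i j, i ≠ j → Disjoint (P n i) (P n j)) (hx : Tendsto x atTop atTop)
    (hy : ∀ K : ℕ, ∀ᶠ n in atTop, x n ^ K ≤ y n) (W : ℕ → ι → ℝ)
    (hW : ∀ i, Tendsto (fun n => W n i) atTop atTop)
    (hV : ∀ i, Tendsto (fun n => (∑ p ∈ P n i, (F n).va p) / W n i) atTop (𝓝 1))
    (s : ℕ → ι → ℝ) (hs : ∀ i, Tendsto (fun n => s n i / √(W n i)) atTop (𝓝 0)) (t : ι → ℝ)
    [∀ n, DecidablePred (fun m : ℕ => ∀ i, (∑ p ∈ P n i, (F n).g p m + s n i) / √(W n i) ≤ t i)] :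
    Tendsto (fun n => (#((range (y n)).filter
      (fun m => ∀ i, (∑ p ∈ P n i, (F n).g p m + s n i) / √(W n i) ≤ t i)) : ℝ) / y n) atTop
      (𝓝 (∏ i, (ProbabilityTheory.gaussianReal 0 1).real (Set.Iic (t i)))) := by
  have hy1 : ∀ᶠ n in atTop, 1 ≤ y n := by
    filter_upwards [hy 1, hx.eventually_ge_atTop 1] with n h1 h2
    rw [pow_one] at h1
    omega
  have h := Pool.Agent.R421.EK.law_of (fun n => range (max (y n) 1))
    (fun n => by rw [nonempty_range_iff]; omega)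
    (fun n m i => (∑ p ∈ P n i, (F n).g p m + s n i) / √(W n i)) (fun θ => by
      refine (gauss_lim F x y P hP hdis hx hy W hW hV s hs θ).congr' ?_
      filter_upwards [hy1] with n hn
      rw [max_eq_left hn, card_range]) t
  refine h.congr' ?_
  filter_upwards [hy1] with n hn
  rw [max_eq_left hn, card_range]
  congr!

end Pool.Agent.H735A
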