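import Mathlib
import Pool.Agent.H735A.Moment

set_option autoImplicit false

/-! # Local counts for `D m ^ 2` -/

namespace Pool.Agent.H735A

open Finset Classical

/-- `D m²` is a primitive root modulo `p` -/
def Prim (D : ℤ) (p m : ℕ) : Prop := orderOf ((D : ZMod p) * (m : ZMod p) ^ 2) = p - 1

/-- number of residues `m` modulo `p` for which `D m²` is a primitive root -/
noncomputable def nu (D : ℤ) (p : ℕ) : ℕ := #((range p).filter (fun j => Prim D p j))

lemma prim_mod (D : ℤ) (p m : ℕ) : Prim D p (m % p) ↔ Prim D p m := by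
  unfold Prim
  rw [ZMod.natCast_mod]

lemma nu_le (D : ℤ) (p : ℕ) : nu D p ≤ p := (card_filter_le _ _).trans (by simp)

lemma nu_div (D : ℤ) (p : ℕ) : 0 ≤ (nu D p : ℝ) / p ∧ (nu D p : ℝ) / p ≤ 1 := by
  refine ⟨by positivity, div_le_one_of_le₀ ?_ (Nat.cast_nonneg _)⟩
  exact_mod_cast nu_le D p

/-- the family of `D m²` -/
noncomputable def fam (D : ℤ) : Fam where
  g := fun p m => (if Prim D p m then 1 else 0) - (nu D p : ℝ) / p
  per := by
    intro p m
    congr 1
    exact if_congr (prim_mod D p m).symm rfl rfl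
  bd := by
    intro p m
    obtain ⟨h1, h2⟩ := nu_div D p
    rw [abs_le]
    split_ifs <;> constructor <;> linarith
  zero := by
    intro p hp
    have hp0 : (p : ℝ) ≠ 0 := by exact_mod_cast hp.ne_zero
    rw [sum_sub_distrib, sum_const, card_range, nsmul_eq_mul, mul_div_cancel₀ _ hp0, ← sum_filter,
      sum_const, nsmul_eq_mul, mul_one]
    unfold nu
    exact sub_self _

lemma card_gen (p : ℕ) [Fact p.Prime] :
    #((univ : Finset (ZMod p)).filter (fun v => orderOf v = p - 1)) = Nat.totient (p - 1) := by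
  have h1 : #((univ : Finset (ZMod p)ˣ).filter (fun v => orderOf v = p - 1)) =
      Nat.totient (p - 1) := by
    apply IsCyclic.card_orderOf_eq_totient
    rw [ZMod.card_units]
  rw [← h1]
  symm
  have hp1 : 0 < p - 1 := by
    have := (Fact.out : p.Prime).two_le
    omega
  apply Finset.card_bij (fun (u : (ZMod p)ˣ) _ => (u : ZMod p))
  · intro u hu
    rw [mem_filter] at hu ⊢
    exact ⟨mem_univ _, by rw [orderOf_units]; exact hu.2⟩
  · intro a _ b _ h
    exact Units.ext h
  · intro v hv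
    rw [mem_filter] at hv
    have h2 : v ^ (p - 1) = 1 := by rw [← hv.2]; exact pow_orderOf_eq_one v
    obtain ⟨u, hu⟩ := IsUnit.of_pow_eq_one h2 hp1.ne'
    refine ⟨u, ?_, hu⟩
    rw [mem_filter]
    refine ⟨mem_univ _, ?_⟩
    rw [← orderOf_units, hu]
    exact hv.2

lemma gen_nonsquare {p : ℕ} [Fact p.Prime] (hp2 : p ≠ 2) {v : ZMod p} (hv : orderOf v = p - 1) :
    quadraticChar (ZMod p) v = -1 := by
  have hp := (Fact.out : p.Prime)
  rw [quadraticChar_neg_one_iff_not_isSquare]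
  rintro ⟨r, rfl⟩
  have h2 := hp.two_le
  have hodd : 2 * ((p - 1) / 2) = p - 1 := by
    have := hp.eq_two_or_odd
    omega
  have hr : r ≠ 0 := by
    rintro rfl
    have h3 : ((0 : ZMod p) * 0) ^ (p - 1) = 1 := by rw [← hv]; exact pow_orderOf_eq_one _
    rw [mul_zero, zero_pow (by omega)] at h3
    exact zero_ne_one h3
  have h3 : (r * r) ^ ((p - 1) / 2) = 1 := by
    rw [← pow_two, ← pow_mul, hodd]
    exact ZMod.pow_card_sub_one_eq_one hr
  have h4 := orderOf_dvd_of_pow_eq_one h3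
  rw [hv] at h4
  have h5 := Nat.le_of_dvd (by omega) h4
  omega

lemma card_fiber {p : ℕ} [Fact p.Prime] (hp2 : p ≠ 2) (d v : ZMod p) (hd : d ≠ 0)
    (hv : orderOf v = p - 1) :
    ((#((univ : Finset (ZMod p)).filter (fun a => d * a ^ 2 = v)) : ℕ) : ℤ) =
      1 - quadraticChar (ZMod p) d := by
  have hF : ringChar (ZMod p) ≠ 2 := by rwa [ZMod.ringChar_zmod_n]
  have h1 := quadraticChar_card_sqrts hF (v * d)
  rw [map_mul, gen_nonsquare hp2 hv] at h1
  have h2 : #((univ : Finset (ZMod p)).filter (fun a => d * a ^ 2 = v)) =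
      #{x : ZMod p | x ^ 2 = v * d}.toFinset := by
    apply Finset.card_bij (fun a _ => d * a)
    · intro a ha
      rw [mem_filter] at ha
      rw [Set.mem_toFinset, Set.mem_ofPred_eq, ← ha.2]
      ring
    · intro a _ b _ h
      exact mul_left_cancel₀ hd h
    · intro b hb
      rw [Set.mem_toFinset, Set.mem_ofPred_eq] at hb
      refine ⟨d⁻¹ * b, ?_, ?_⟩
      · rw [mem_filter]
        refine ⟨mem_univ _, ?_⟩
        rw [mul_pow, hb]
        field_simp
      · rw [← mul_assoc, mul_inv_cancel₀ hd, one_mul]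
  rw [h2, h1]
  ring

lemma card_prim {p : ℕ} [Fact p.Prime] (hp2 : p ≠ 2) (d : ZMod p) (hd : d ≠ 0) :
    ((#((univ : Finset (ZMod p)).filter (fun a => orderOf (d * a ^ 2) = p - 1)) : ℕ) : ℤ) =
      Nat.totient (p - 1) * (1 - quadraticChar (ZMod p) d) := by
  have h1 := Finset.card_eq_sum_card_fiberwise
    (f := fun a : ZMod p => d * a ^ 2)
    (s := (univ : Finset (ZMod p)).filter (fun a => orderOf (d * a ^ 2) = p - 1))
    (t := (univ : Finset (ZMod p)).filter (fun v => orderOf v = p - 1)) (by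
      intro a ha
      simp only [coe_filter, mem_univ, true_and, Set.mem_ofPred_eq] at ha ⊢
      exact ha)
  rw [h1]
  push_cast
  have h2 : ∀ v ∈ (univ : Finset (ZMod p)).filter (fun v => orderOf v = p - 1),
      ((#(((univ : Finset (ZMod p)).filter (fun a => orderOf (d * a ^ 2) = p - 1)).filter
        (fun a => d * a ^ 2 = v)) : ℕ) : ℤ) = 1 - quadraticChar (ZMod p) d := by
    intro v hv
    rw [mem_filter] at hv
    rw [← card_fiber hp2 d v hd hv.2, filter_filter]
    congr 2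
    ext a
    simp only [mem_filter, mem_univ, true_and]
    constructor
    · rintro ⟨_, h⟩
      exact h
    · intro h
      exact ⟨by rw [h]; exact hv.2, h⟩
  rw [sum_congr rfl h2, sum_const, card_gen, nsmul_eq_mul]

lemma nu_eq {p : ℕ} (hp : p.Prime) (hp2 : p ≠ 2) (D : ℤ) (hD : ¬ (p : ℤ) ∣ D) :
    (nu D p : ℝ) = Nat.totient (p - 1) * (1 - (jacobiSym D p : ℝ)) := by
  have : Fact p.Prime := ⟨hp⟩
  have hd : (D : ZMod p) ≠ 0 := by rwa [Ne, ZMod.intCast_zmod_eq_zero_iff_dvd]
  have h1 := card_prim hp2 (D : ZMod p) hd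
  have h2 : nu D p =
      #((univ : Finset (ZMod p)).filter (fun a => orderOf ((D : ZMod p) * a ^ 2) = p - 1)) := by
    unfold nu
    apply Finset.card_bij (fun j _ => ((j : ℕ) : ZMod p))
    · intro j hj
      rw [mem_filter] at hj ⊢
      exact ⟨mem_univ _, hj.2⟩
    · intro a ha b hb h
      rw [mem_filter, mem_range] at ha hb
      have h3 := congrArg ZMod.val h
      rwa [ZMod.val_natCast_of_lt ha.1, ZMod.val_natCast_of_lt hb.1] at h3
    · intro a ha
      rw [mem_filter] at ha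
      refine ⟨a.val, ?_, ZMod.natCast_zmod_val a⟩
      rw [mem_filter, mem_range]
      refine ⟨ZMod.val_lt a, ?_⟩
      unfold Prim
      rw [ZMod.natCast_zmod_val]
      exact ha.2
  have h3 : jacobiSym D p = quadraticChar (ZMod p) (D : ZMod p) :=
    (jacobiSym.legendreSym.to_jacobiSym p D).symm
  rw [h2, h3]
  exact_mod_cast h1

lemma jac_abs (D : ℤ) (p : ℕ) : |(jacobiSym D p : ℝ)| ≤ 1 := by
  rcases jacobiSym.trichotomy D p with h | h | h <;> rw [h] <;> norm_num

/-- the main term of the prime `p` -/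
noncomputable def G (D : ℤ) (p : ℕ) : ℝ :=
  (1 - (jacobiSym D p : ℝ)) * ((Nat.totient (p - 1) : ℝ) / ((p : ℝ) - 1))

lemma G_bd (D : ℤ) {p : ℕ} (hp : p.Prime) : 0 ≤ G D p ∧ G D p ≤ 2 := by
  have h1 := abs_le.1 (jac_abs D p)
  have hp2 : (2 : ℝ) ≤ p := by exact_mod_cast hp.two_le
  have h2 : (Nat.totient (p - 1) : ℝ) ≤ (p : ℝ) - 1 := by
    have h3 := Nat.totient_le (p - 1)
    have h4 : ((p - 1 : ℕ) : ℝ) = (p : ℝ) - 1 := by
      rw [Nat.cast_sub hp.one_le]; simp
    rw [← h4]
    exact_mod_cast h3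
  have h5 : 0 ≤ (Nat.totient (p - 1) : ℝ) / ((p : ℝ) - 1) := by
    apply div_nonneg (Nat.cast_nonneg _) (by linarith)
  have h6 : (Nat.totient (p - 1) : ℝ) / ((p : ℝ) - 1) ≤ 1 := by
    apply div_le_one_of_le₀ h2 (by linarith)
  unfold G
  constructor
  · exact mul_nonneg (by linarith [h1.2]) h5
  · calc _ ≤ 2 * 1 := mul_le_mul (by linarith [h1.1]) h6 h5 (by norm_num)
      _ = 2 := by norm_num

lemma local_main {p : ℕ} (hp : p.Prime) (hp2 : p ≠ 2) (D : ℤ) (hD : ¬ (p : ℤ) ∣ D) :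
    |(nu D p : ℝ) / p - G D p| ≤ 2 / p := by
  rw [nu_eq hp hp2 D hD]
  unfold G
  have hp3 : (2 : ℝ) ≤ p := by exact_mod_cast hp.two_le
  have h1 := abs_le.1 (jac_abs D p)
  have h2 : (Nat.totient (p - 1) : ℝ) ≤ (p : ℝ) - 1 := by
    have h3 := Nat.totient_le (p - 1)
    have h4 : ((p - 1 : ℕ) : ℝ) = (p : ℝ) - 1 := by
      rw [Nat.cast_sub hp.one_le]; simp
    rw [← h4]
    exact_mod_cast h3
  have hpos : (0 : ℝ) < (p : ℝ) - 1 := by linarith
  have hp0 : (0 : ℝ) < p := by linarith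
  set t := (Nat.totient (p - 1) : ℝ) with ht
  have ht0 : 0 ≤ t := Nat.cast_nonneg _
  set J := (jacobiSym D p : ℝ) with hJ
  have e1 : t * (1 - J) / p - (1 - J) * (t / ((p : ℝ) - 1)) =
      -((1 - J) * (t / ((p : ℝ) - 1)) / p) := by
    field_simp
    ring
  rw [e1, abs_neg, abs_div, abs_of_pos hp0]
  apply div_le_div_of_nonneg_right _ hp0.le
  rw [abs_of_nonneg (mul_nonneg (by linarith [h1.2]) (div_nonneg ht0 hpos.le))]
  calc (1 - J) * (t / ((p : ℝ) - 1)) ≤ 2 * 1 :=
        mul_le_mul (by linarith [h1.1]) (div_le_one_of_le₀ h2 hpos.le) (by positivity) (by norm_num)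
    _ = 2 := by norm_num

/-- the total error of the main terms -/
lemma main_err (D : ℤ) (hD : D ≠ 0) : ∃ C : ℝ, 0 ≤ C ∧ ∀ x : ℕ, 1 ≤ x → ∀ P : Finset ℕ,
    (∀ p ∈ P, p.Prime ∧ p ≤ x) →
    |∑ p ∈ P, (nu D p : ℝ) / p - ∑ p ∈ P, G D p| ≤ C + 2 * Real.log x := by
  refine ⟨3 * #(2 * D).natAbs.primeFactors + 2, by positivity, fun x hx P hP => ?_⟩
  have hx0 : (0 : ℝ) < x := by exact_mod_cast hx
  rw [← sum_sub_distrib]
  refine (abs_sum_le_sum_abs _ _).trans ?_
  rw [← sum_filter_add_sum_filter_not P (fun p : ℕ => (p : ℤ) ∣ 2 * D)]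
  have h1 : ∑ p ∈ P.filter (fun p : ℕ => (p : ℤ) ∣ 2 * D), |(nu D p : ℝ) / p - G D p| ≤
      3 * #(2 * D).natAbs.primeFactors := by
    calc ∑ p ∈ P.filter (fun p : ℕ => (p : ℤ) ∣ 2 * D), |(nu D p : ℝ) / p - G D p|
        ≤ ∑ p ∈ P.filter (fun p : ℕ => (p : ℤ) ∣ 2 * D), (3 : ℝ) := by
          apply sum_le_sum
          intro p hp
          rw [mem_filter] at hp
          obtain ⟨h1, h2⟩ := nu_div D p
          obtain ⟨h3, h4⟩ := G_bd D (hP p hp.1).1
          rw [abs_le]
          constructor <;> linarith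
      _ = 3 * #(P.filter (fun p : ℕ => (p : ℤ) ∣ 2 * D)) := by
          rw [sum_const, nsmul_eq_mul, mul_comm]
      _ ≤ 3 * #(2 * D).natAbs.primeFactors := by
          have : #(P.filter (fun p : ℕ => (p : ℤ) ∣ 2 * D)) ≤ #(2 * D).natAbs.primeFactors := by
            apply card_le_card
            intro p hp
            rw [mem_filter] at hp
            rw [Nat.mem_primeFactors]
            refine ⟨(hP p hp.1).1, Int.natCast_dvd.1 hp.2, ?_⟩
            rw [Int.natAbs_ne_zero]
            exact mul_ne_zero two_ne_zero hD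
          have h5 : ((#(P.filter (fun p : ℕ => (p : ℤ) ∣ 2 * D)) : ℕ) : ℝ) ≤
              #(2 * D).natAbs.primeFactors := by exact_mod_cast this
          linarith
  have h2 : ∑ p ∈ P.filter (fun p : ℕ => ¬ (p : ℤ) ∣ 2 * D), |(nu D p : ℝ) / p - G D p| ≤
      2 + 2 * Real.log x := by
    calc ∑ p ∈ P.filter (fun p : ℕ => ¬ (p : ℤ) ∣ 2 * D), |(nu D p : ℝ) / p - G D p|
        ≤ ∑ p ∈ P.filter (fun p : ℕ => ¬ (p : ℤ) ∣ 2 * D), 2 * (p : ℝ)⁻¹ := by
          apply sum_le_sum
          intro p hp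
          rw [mem_filter] at hp
          rw [← div_eq_mul_inv]
          apply local_main (hP p hp.1).1
          · rintro rfl
            exact hp.2 (by simp)
          · intro h
            exact hp.2 (h.mul_left _)
      _ ≤ ∑ p ∈ Icc 1 x, 2 * (p : ℝ)⁻¹ := by
          apply sum_le_sum_of_subset_of_nonneg
          · intro p hp
            rw [mem_filter] at hp
            rw [mem_Icc]
            exact ⟨(hP p hp.1).1.pos, (hP p hp.1).2⟩
          · intro p _ _
            positivity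
      _ = 2 * ((harmonic x : ℚ) : ℝ) := by
          rw [← mul_sum, harmonic_eq_sum_Icc]
          push_cast
          rfl
      _ ≤ 2 * (1 + Real.log x) := by
          have := harmonic_le_one_add_log x
          linarith
      _ = 2 + 2 * Real.log x := by ring
  linarith

end Pool.Agent.H735A
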