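import Mathlib
import Pool.Agent.H735A.Moment

set_option autoImplicit false

/-! # Union over sets of primes and over all `x` -/

namespace Pool.Agent.H735A

open Finset Filter

lemma one_set (F : Fam) (P : Finset ℕ) (x k y : ℕ) (hx : 1 ≤ x) (hk : 1 ≤ k)
    (hP : ∀ p ∈ P, p.Prime ∧ p ≤ x) (ε : ℝ) (hy : x ^ (3 * k) ≤ y) :
    (#((range y).filter (fun m => (x : ℝ) ^ ε * √(#P : ℝ) < |∑ p ∈ P, F.g p m|)) : ℝ) ≤
      ((k : ℝ) ^ (2 * k) + 1) * y * (x : ℝ) ^ (-(2 * k * ε)) := by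
  have hx0 : (0 : ℝ) < x := by exact_mod_cast hx
  rcases P.eq_empty_or_nonempty with rfl | hne
  · simp
    positivity
  have hn : 0 < #P := hne.card_pos
  have hn0 : (0 : ℝ) < #P := by exact_mod_cast hn
  have hnx : #P ≤ x := by
    have h1 : P ⊆ Icc 1 x := fun p hp => by
      rw [mem_Icc]
      exact ⟨(hP p hp).1.pos, (hP p hp).2⟩
    have := card_le_card h1
    simpa using this
  have hT : 0 < (x : ℝ) ^ ε * √(#P : ℝ) := by positivity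
  have h := large_count F P x k y hx hk hP _ hT
  have hT2 : ((x : ℝ) ^ ε * √(#P : ℝ)) ^ (2 * k) = (x : ℝ) ^ (2 * k * ε) * (#P : ℝ) ^ k := by
    rw [mul_pow, pow_mul (√(#P : ℝ)) 2 k, Real.sq_sqrt hn0.le, ← Real.rpow_natCast ((x : ℝ) ^ ε),
      ← Real.rpow_mul hx0.le]
    congr 2
    push_cast
    ring
  rw [hT2] at h
  have h2 : (#P : ℝ) ^ (2 * k) * (x : ℝ) ^ (2 * k) ≤ (#P : ℝ) ^ k * y := by
    have h3 : (#P : ℝ) ^ k ≤ (x : ℝ) ^ k := by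
      apply pow_le_pow_left₀ hn0.le
      exact_mod_cast hnx
    have h4 : (x : ℝ) ^ (3 * k) ≤ y := by exact_mod_cast hy
    calc (#P : ℝ) ^ (2 * k) * (x : ℝ) ^ (2 * k)
        = (#P : ℝ) ^ k * ((#P : ℝ) ^ k * (x : ℝ) ^ (2 * k)) := by
          rw [two_mul, pow_add]; ring
      _ ≤ (#P : ℝ) ^ k * ((x : ℝ) ^ k * (x : ℝ) ^ (2 * k)) := by gcongr
      _ = (#P : ℝ) ^ k * (x : ℝ) ^ (3 * k) := by
          rw [← pow_add]; congr 2; ring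
      _ ≤ (#P : ℝ) ^ k * y := by gcongr
  set c := (#((range y).filter (fun m => (x : ℝ) ^ ε * √(#P : ℝ) < |∑ p ∈ P, F.g p m|)) : ℝ)
    with hc
  have h5 : (#P : ℝ) ^ k * (c * (x : ℝ) ^ (2 * k * ε)) ≤
      (#P : ℝ) ^ k * (((k : ℝ) ^ (2 * k) + 1) * y) := by
    calc (#P : ℝ) ^ k * (c * (x : ℝ) ^ (2 * k * ε))
        = c * ((x : ℝ) ^ (2 * k * ε) * (#P : ℝ) ^ k) := by ring
      _ ≤ _ := h
      _ ≤ (k : ℝ) ^ (2 * k) * (#P : ℝ) ^ k * y + (#P : ℝ) ^ k * y := by linarith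
      _ = (#P : ℝ) ^ k * (((k : ℝ) ^ (2 * k) + 1) * y) := by ring
  have h6 := le_of_mul_le_mul_left h5 (by positivity)
  rw [Real.rpow_neg hx0.le, ← div_eq_mul_inv, le_div_iff₀ (by positivity)]
  exact h6

theorem one_x (ε B A : ℝ) (hε : 0 < ε) (hB : 0 ≤ B) (hA : 0 ≤ A) :
    ∃ K x0 : ℕ, 1 ≤ K ∧ ∀ F : Fam, ∀ x : ℕ, x0 ≤ x → ∀ y : ℕ, x ^ K ≤ y →
      ∀ S : Finset (Finset ℕ), (#S : ℝ) ≤ (x : ℝ) ^ B → (∀ P ∈ S, ∀ p ∈ P, p.Prime ∧ p ≤ x) →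
      (#((range y).filter (fun m => ∃ P ∈ S, (x : ℝ) ^ ε * √(#P : ℝ) < |∑ p ∈ P, F.g p m|)) : ℝ) ≤
        y * (x : ℝ) ^ (-A) := by
  classical
  obtain ⟨k, hk⟩ : ∃ k : ℕ, (A + B + 1) / (2 * ε) ≤ k := exists_nat_ge _
  have hk0 : 0 < (A + B + 1) / (2 * ε) := by positivity
  have hk1 : 1 ≤ k := by
    have : (0 : ℝ) < k := hk0.trans_le hk
    exact_mod_cast this
  have hke : A + B + 1 ≤ 2 * k * ε := by
    rw [div_le_iff₀ (by positivity)] at hk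
    linarith
  refine ⟨3 * k, k ^ (2 * k) + 1, by omega, fun F x hx y hy S hS hSP => ?_⟩
  have hx1 : 1 ≤ x := le_trans (by omega) hx
  have hx0 : (0 : ℝ) < x := by exact_mod_cast hx1
  have hx1' : (1 : ℝ) ≤ x := by exact_mod_cast hx1
  have hsub : (range y).filter (fun m => ∃ P ∈ S, (x : ℝ) ^ ε * √(#P : ℝ) < |∑ p ∈ P, F.g p m|) ⊆
      S.biUnion (fun P => (range y).filter
        (fun m => (x : ℝ) ^ ε * √(#P : ℝ) < |∑ p ∈ P, F.g p m|)) := by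
    intro m hm
    rw [mem_filter] at hm
    obtain ⟨h1, P, h2, h3⟩ := hm
    rw [mem_biUnion]
    exact ⟨P, h2, mem_filter.2 ⟨h1, h3⟩⟩
  have h1 : (#((range y).filter (fun m => ∃ P ∈ S, (x : ℝ) ^ ε * √(#P : ℝ) <
      |∑ p ∈ P, F.g p m|)) : ℝ) ≤ ∑ P ∈ S, (#((range y).filter
        (fun m => (x : ℝ) ^ ε * √(#P : ℝ) < |∑ p ∈ P, F.g p m|)) : ℝ) := by
    exact_mod_cast (card_le_card hsub).trans card_biUnion_le
  have h2 : ∑ P ∈ S, (#((range y).filter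
      (fun m => (x : ℝ) ^ ε * √(#P : ℝ) < |∑ p ∈ P, F.g p m|)) : ℝ) ≤
      ∑ P ∈ S, ((k : ℝ) ^ (2 * k) + 1) * y * (x : ℝ) ^ (-(2 * k * ε)) :=
    sum_le_sum fun P hP => one_set F P x k y hx1 hk1 (hSP P hP) ε hy
  rw [sum_const, nsmul_eq_mul] at h2
  refine h1.trans (h2.trans ?_)
  have h3 : (x : ℝ) ^ (-(2 * k * ε)) ≤ (x : ℝ) ^ (-(A + B + 1)) :=
    Real.rpow_le_rpow_of_exponent_le hx1' (by linarith)
  have h4 : (k : ℝ) ^ (2 * k) + 1 ≤ x := by exact_mod_cast hx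
  calc (#S : ℝ) * (((k : ℝ) ^ (2 * k) + 1) * y * (x : ℝ) ^ (-(2 * k * ε)))
      ≤ (x : ℝ) ^ B * (x * y * (x : ℝ) ^ (-(A + B + 1))) := by
        gcongr
    _ = y * ((x : ℝ) ^ B * (x : ℝ) ^ (1 : ℝ) * (x : ℝ) ^ (-(A + B + 1))) := by
        rw [Real.rpow_one]; ring
    _ = y * (x : ℝ) ^ (-A) := by
        rw [← Real.rpow_add hx0, ← Real.rpow_add hx0]
        congr 2
        ring

open Classical in
/-- all `x` in a range at once -/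
theorem all_x (ε A B c : ℝ) (hε : 0 < ε) (hA : 0 ≤ A) (hB : 0 ≤ B) (hc : 0 < c) :
    ∃ κ : ℝ, 0 < κ ∧ ∃ N0 : ℕ, ∀ F : Fam, ∀ N : ℕ, N0 ≤ N → ∀ S : ℕ → Finset (Finset ℕ),
      (∀ x : ℕ, 2 ≤ x → (#(S x) : ℝ) ≤ (x : ℝ) ^ B) →
      (∀ x, ∀ P ∈ S x, ∀ p ∈ P, p.Prime ∧ p ≤ x) →
      (#((range (N + 1)).filter (fun m => ∃ x : ℕ, (Real.log N) ^ c ≤ x ∧ (x : ℝ) ≤ (N : ℝ) ^ κ ∧
        ∃ P ∈ S x, (x : ℝ) ^ ε * √(#P : ℝ) < |∑ p ∈ P, F.g p m|)) : ℝ) ≤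
        N / (Real.log N) ^ A := by
  classical
  obtain ⟨K, x0, hK, h⟩ := one_x ε B ((A + 1) / c + 2) hε hB (by positivity)
  have hK0 : (0 : ℝ) < K := by exact_mod_cast hK
  have hL : Tendsto (fun N : ℕ => Real.log N) atTop atTop :=
    Real.tendsto_log_atTop.comp tendsto_natCast_atTop_atTop
  have hLc : Tendsto (fun N : ℕ => (Real.log N) ^ c) atTop atTop :=
    (tendsto_rpow_atTop hc).comp hL
  obtain ⟨N0, hN0⟩ := eventually_atTop.1 (((hL.eventually_ge_atTop 4).and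
    (hLc.eventually_ge_atTop (max x0 2 : ℝ))).and (eventually_ge_atTop 1))
  refine ⟨1 / K, by positivity, N0, fun F N hN S hS hSP => ?_⟩
  obtain ⟨⟨hL4, hLx⟩, hN1⟩ := hN0 N hN
  have hL0 : 0 < Real.log N := by linarith
  have hNr : (1 : ℝ) ≤ N := by exact_mod_cast hN1
  have hxK : ∀ x : ℕ, (x : ℝ) ≤ (N : ℝ) ^ (1 / (K : ℝ)) → x ^ K ≤ N := by
    intro x hx
    have h1 : (x : ℝ) ^ K ≤ N := by
      calc (x : ℝ) ^ K ≤ ((N : ℝ) ^ (1 / (K : ℝ))) ^ K := by gcongr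
        _ = N := by
          rw [← Real.rpow_natCast, ← Real.rpow_mul (by linarith), one_div,
            inv_mul_cancel₀ hK0.ne', Real.rpow_one]
    exact_mod_cast h1
  have hsub : (range (N + 1)).filter (fun m => ∃ x : ℕ, (Real.log N) ^ c ≤ x ∧
      (x : ℝ) ≤ (N : ℝ) ^ (1 / (K : ℝ)) ∧
        ∃ P ∈ S x, (x : ℝ) ^ ε * √(#P : ℝ) < |∑ p ∈ P, F.g p m|) ⊆
      ((Ioo 0 (N + 1)).filter (fun x : ℕ => (Real.log N) ^ c ≤ x ∧ x ^ K ≤ N)).biUnion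
        (fun x => (range (N + 1)).filter (fun m => ∃ P ∈ S x, (x : ℝ) ^ ε * √(#P : ℝ) <
          |∑ p ∈ P, F.g p m|)) := by
    intro m hm
    rw [mem_filter] at hm
    obtain ⟨h1, x, h2, h3, h4⟩ := hm
    have h5 := hxK x h3
    have h6 : (2 : ℝ) ≤ x := (le_max_right _ _).trans (hLx.trans h2)
    have h7 : 2 ≤ x := by exact_mod_cast h6
    have h8 : x ≤ N := (Nat.le_self_pow (by omega) x).trans h5
    rw [mem_biUnion]
    refine ⟨x, mem_filter.2 ⟨mem_Ioo.2 ⟨by omega, by omega⟩, h2, h5⟩, mem_filter.2 ⟨h1, h4⟩⟩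
  have h1 : (#((range (N + 1)).filter (fun m => ∃ x : ℕ, (Real.log N) ^ c ≤ x ∧
      (x : ℝ) ≤ (N : ℝ) ^ (1 / (K : ℝ)) ∧
        ∃ P ∈ S x, (x : ℝ) ^ ε * √(#P : ℝ) < |∑ p ∈ P, F.g p m|)) : ℝ) ≤
      ∑ x ∈ (Ioo 0 (N + 1)).filter (fun x : ℕ => (Real.log N) ^ c ≤ x ∧ x ^ K ≤ N),
        (#((range (N + 1)).filter (fun m => ∃ P ∈ S x, (x : ℝ) ^ ε * √(#P : ℝ) <
          |∑ p ∈ P, F.g p m|)) : ℝ) := by
    exact_mod_cast (card_le_card hsub).trans card_biUnion_le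
  refine h1.trans ?_
  have h2 : ∀ x ∈ (Ioo 0 (N + 1)).filter (fun x : ℕ => (Real.log N) ^ c ≤ x ∧ x ^ K ≤ N),
      (#((range (N + 1)).filter (fun m => ∃ P ∈ S x, (x : ℝ) ^ ε * √(#P : ℝ) <
          |∑ p ∈ P, F.g p m|)) : ℝ) ≤
        2 * N * (Real.log N) ^ (-(A + 1)) * ((x : ℝ) ^ 2)⁻¹ := by
    intro x hx
    rw [mem_filter] at hx
    obtain ⟨_, hx1, hx2⟩ := hx
    have h3 : (x0 : ℝ) ≤ x := (le_max_left _ _).trans (hLx.trans hx1)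
    have h4 : x0 ≤ x := by exact_mod_cast h3
    have h6 : (2 : ℝ) ≤ x := (le_max_right _ _).trans (hLx.trans hx1)
    have h7 : 2 ≤ x := by exact_mod_cast h6
    have hx0 : (0 : ℝ) < x := by linarith
    refine (h F x h4 (N + 1) (by omega) (S x) (hS x h7) (hSP x)).trans ?_
    have h8 : (x : ℝ) ^ (-((A + 1) / c + 2)) ≤ (Real.log N) ^ (-(A + 1)) * ((x : ℝ) ^ 2)⁻¹ := by
      have e1 : -((A + 1) / c + 2) = -((A + 1) / c) + (-2) := by ring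
      rw [e1, Real.rpow_add hx0]
      have e2 : (x : ℝ) ^ (-2 : ℝ) = ((x : ℝ) ^ 2)⁻¹ := by
        rw [Real.rpow_neg hx0.le]
        norm_num
      rw [e2]
      apply mul_le_mul_of_nonneg_right _ (by positivity)
      calc (x : ℝ) ^ (-((A + 1) / c)) ≤ ((Real.log N) ^ c) ^ (-((A + 1) / c)) := by
            have : 0 < (A + 1) / c := by positivity
            exact (Real.rpow_le_rpow_iff_of_neg hx0 (by positivity) (by linarith)).2 hx1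
        _ = (Real.log N) ^ (-(A + 1)) := by
            rw [← Real.rpow_mul hL0.le]
            congr 1
            field_simp
    have h9 : ((N + 1 : ℕ) : ℝ) ≤ 2 * N := by push_cast; linarith
    calc ((N + 1 : ℕ) : ℝ) * (x : ℝ) ^ (-((A + 1) / c + 2))
        ≤ (2 * N) * ((Real.log N) ^ (-(A + 1)) * ((x : ℝ) ^ 2)⁻¹) := by gcongr
      _ = _ := by ring
  refine (sum_le_sum h2).trans ?_
  rw [← mul_sum]
  have h3 : ∑ x ∈ (Ioo 0 (N + 1)).filter (fun x : ℕ => (Real.log N) ^ c ≤ x ∧ x ^ K ≤ N),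
      ((x : ℝ) ^ 2)⁻¹ ≤ 2 := by
    calc _ ≤ ∑ x ∈ Ioo 0 (N + 1), ((x : ℝ) ^ 2)⁻¹ :=
          sum_le_sum_of_subset_of_nonneg (filter_subset _ _) fun _ _ _ => by positivity
      _ ≤ 2 / ((0 : ℕ) + 1 : ℝ) := sum_Ioo_inv_sq_le 0 (N + 1)
      _ = 2 := by norm_num
  have h4 : (Real.log N) ^ (-(A + 1)) = ((Real.log N) ^ A)⁻¹ * (Real.log N)⁻¹ := by
    rw [neg_add, Real.rpow_add hL0, Real.rpow_neg hL0.le, Real.rpow_neg_one]
  have h5 : (Real.log N)⁻¹ ≤ 1 / 4 := by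
    rw [inv_eq_one_div]
    exact one_div_le_one_div_of_le (by norm_num) hL4
  calc 2 * N * (Real.log N) ^ (-(A + 1)) *
        ∑ x ∈ (Ioo 0 (N + 1)).filter (fun x : ℕ => (Real.log N) ^ c ≤ x ∧ x ^ K ≤ N),
          ((x : ℝ) ^ 2)⁻¹
      ≤ 2 * N * (Real.log N) ^ (-(A + 1)) * 2 := by gcongr
    _ = 4 * N * ((Real.log N) ^ A)⁻¹ * (Real.log N)⁻¹ := by rw [h4]; ring
    _ ≤ 4 * N * ((Real.log N) ^ A)⁻¹ * (1 / 4) := by gcongr
    _ = N / (Real.log N) ^ A := by ring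

end Pool.Agent.H735A
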