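import Mathlib
import Pool.Agent.H735A.Union
import Pool.Agent.H735A.Local
import Pool.Agent.H730R2.AA.MainTerm

set_option autoImplicit false

/-! # Square root cancellation for all families at once -/

namespace Pool.Agent.H735A

open Finset Filter Classical Topology

/-- the primes `p` with `u < p ≤ v` and `p ≡ b mod q` -/
noncomputable def AP (u v q b : ℕ) : Finset ℕ :=
  (Ioc u v).filter (fun p => p.Prime ∧ p % q = b % q)

noncomputable def APs (x : ℕ) : Finset (Finset ℕ) :=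
  ((range (x + 1)) ×ˢ (range (x + 1)) ×ˢ (range (x + 1)) ×ˢ (range (x + 1))).image
    (fun w => AP w.1 w.2.1 w.2.2.1 w.2.2.2)

lemma APs_card (x : ℕ) (hx : 2 ≤ x) : #(APs x) ≤ x ^ 8 := by
  refine card_image_le.trans ?_
  rw [card_product, card_product, card_product, card_range]
  have h : x + 1 ≤ x ^ 2 := by nlinarith
  calc (x + 1) * ((x + 1) * ((x + 1) * (x + 1))) = (x + 1) ^ 4 := by ring
    _ ≤ (x ^ 2) ^ 4 := Nat.pow_le_pow_left h 4
    _ = x ^ 8 := by ring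

lemma APs_prime (x : ℕ) : ∀ P ∈ APs x, ∀ p ∈ P, p.Prime ∧ p ≤ x := by
  intro P hP p hp
  unfold APs at hP
  rw [mem_image] at hP
  obtain ⟨⟨u, v, q, b⟩, hw, rfl⟩ := hP
  rw [mem_product, mem_product, mem_product] at hw
  unfold AP at hp
  rw [mem_filter, mem_Ioc] at hp
  have h1 := mem_range.1 hw.2.1
  exact ⟨hp.2.1, by omega⟩

lemma APs_mem {x u v q b : ℕ} (hu : u ≤ v) (hv : v ≤ x) (hq : q ≤ x) (hb : b < q) :
    AP u v q b ∈ APs x := by
  unfold APs
  rw [mem_image]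
  refine ⟨(u, v, q, b), ?_, rfl⟩
  rw [mem_product, mem_product, mem_product]
  simp only [mem_range]
  omega

/-- number of the `p ∈ P` modulo which `D m²` is a primitive root -/
noncomputable def cnt (D : ℤ) (P : Finset ℕ) (m : ℕ) : ℝ := #(P.filter (fun p => Prim D p m))

lemma cnt_eq (D : ℤ) (P : Finset ℕ) (m : ℕ) :
    cnt D P m = ∑ p ∈ P, (fam D).g p m + ∑ p ∈ P, (nu D p : ℝ) / p := by
  rw [← sum_add_distrib]
  unfold cnt fam
  rw [card_filter]
  push_cast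
  apply sum_congr rfl
  intro p _
  ring

/-- all primes up to `x` -/
noncomputable def PrU (x : ℕ) : Finset ℕ := (Ioc 0 x).filter Nat.Prime

lemma PrU_eq (x : ℕ) : PrU x = AP 0 x 1 0 := by
  unfold PrU AP
  ext p
  simp [Nat.mod_one]

lemma PrU_card (x : ℕ) : #(PrU x) = Nat.primeCounting x := by
  rw [Nat.primeCounting, Nat.primeCounting', Nat.count_eq_card_filter_range]
  congr 1
  ext p
  unfold PrU
  rw [mem_filter, mem_filter, mem_Ioc, mem_range]
  constructor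
  · rintro ⟨h1, h2⟩
    exact ⟨by omega, h2⟩
  · rintro ⟨h1, h2⟩
    exact ⟨⟨h2.pos, by omega⟩, h2⟩

lemma PrU_main (D : ℤ) (hD : D ≠ 0) : ∃ C : ℝ, 0 ≤ C ∧ ∀ x : ℕ,
    |∑ p ∈ PrU x, G D p - Pool.Agent.H730R2.AA.mainT D x| ≤ C := by
  refine ⟨2 * #(2 * D).natAbs.primeFactors, by positivity, fun x => ?_⟩
  have h1 : Pool.Agent.H730R2.AA.mainT D x = ∑ p ∈ (PrU x).filter
      (fun p : ℕ => p ≠ 2 ∧ ¬ ((p : ℤ) ∣ D)), G D p := by
    unfold Pool.Agent.H730R2.AA.mainT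
    have h2 : Pool.Agent.H730R2.AA.PR D x = (PrU x).filter
        (fun p : ℕ => p ≠ 2 ∧ ¬ ((p : ℤ) ∣ D)) := by
      unfold Pool.Agent.H730R2.AA.PR PrU
      ext p
      simp only [mem_filter, mem_range, mem_Ioc]
      constructor
      · rintro ⟨a, b, c⟩
        exact ⟨⟨⟨b.pos, by omega⟩, b⟩, c⟩
      · rintro ⟨⟨a, b⟩, c⟩
        exact ⟨by omega, b, c⟩
    rw [h2]
    apply sum_congr rfl
    intro p hp
    rw [mem_filter] at hp
    unfold PrU at hp
    rw [mem_filter] at hp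
    unfold G Pool.Agent.H730R2.AA.rho
    rw [Nat.cast_sub hp.1.2.one_le, mul_comm]
    simp
  rw [h1, ← sum_filter_add_sum_filter_not (PrU x) (fun p : ℕ => p ≠ 2 ∧ ¬ ((p : ℤ) ∣ D)),
    add_sub_cancel_left]
  refine (abs_sum_le_sum_abs _ _).trans ?_
  calc ∑ p ∈ (PrU x).filter (fun p : ℕ => ¬ (p ≠ 2 ∧ ¬ ((p : ℤ) ∣ D))), |G D p|
      ≤ ∑ p ∈ (PrU x).filter (fun p : ℕ => ¬ (p ≠ 2 ∧ ¬ ((p : ℤ) ∣ D))), (2 : ℝ) := by
        apply sum_le_sum
        intro p hp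
        rw [mem_filter] at hp
        unfold PrU at hp
        rw [mem_filter] at hp
        obtain ⟨h3, h4⟩ := G_bd D hp.1.2
        rw [abs_of_nonneg h3]
        exact h4
    _ = 2 * #((PrU x).filter (fun p : ℕ => ¬ (p ≠ 2 ∧ ¬ ((p : ℤ) ∣ D)))) := by
        rw [sum_const, nsmul_eq_mul, mul_comm]
    _ ≤ 2 * #(2 * D).natAbs.primeFactors := by
        have : #((PrU x).filter (fun p : ℕ => ¬ (p ≠ 2 ∧ ¬ ((p : ℤ) ∣ D)))) ≤
            #(2 * D).natAbs.primeFactors := by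
          apply card_le_card
          intro p hp
          rw [mem_filter] at hp
          unfold PrU at hp
          rw [mem_filter] at hp
          rw [Nat.mem_primeFactors]
          refine ⟨hp.1.2, ?_, ?_⟩
          · rw [← Int.natCast_dvd]
            by_cases h2 : p = 2
            · subst h2
              exact Dvd.intro _ rfl
            · have h3 : (p : ℤ) ∣ D := by
                by_contra h4
                exact hp.2 ⟨h2, h4⟩
              exact h3.mul_left _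
          · rw [Int.natAbs_ne_zero]
            exact mul_ne_zero two_ne_zero hD
        have h5 : ((#((PrU x).filter (fun p : ℕ => ¬ (p ≠ 2 ∧ ¬ ((p : ℤ) ∣ D)))) : ℕ) : ℝ) ≤
            #(2 * D).natAbs.primeFactors := by exact_mod_cast this
        linarith

/-- the good integers `m` at `x` -/
def Good (D : ℤ) (ε η : ℝ) (S : Finset (Finset ℕ)) (x m : ℕ) : Prop :=
  (∀ P ∈ S, |cnt D P m - ∑ p ∈ P, G D p| ≤ (x : ℝ) ^ ε * √(#P : ℝ)) ∧
  (∀ u v q b : ℕ, u ≤ v → v ≤ x → b < q → q ≤ x →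
    |cnt D (AP u v q b) m - ∑ p ∈ AP u v q b, G D p| ≤ (x : ℝ) ^ ε * √(#(AP u v q b) : ℝ)) ∧
  |cnt D (PrU x) m - Pool.Agent.H730R2.AA.dens D * (Nat.primeCounting x : ℝ)| ≤
    η * (Nat.primeCounting x : ℝ)

lemma log_small (C ε : ℝ) (hε : 0 < ε) : ∃ x0 : ℕ, ∀ x : ℕ, x0 ≤ x →
    (x : ℝ) ^ (ε / 2) + (C + 2 * Real.log x) ≤ (x : ℝ) ^ ε := by
  have h1 : Tendsto (fun x : ℕ => (x : ℝ) ^ (ε / 2)) atTop atTop :=
    (tendsto_rpow_atTop (by positivity)).comp tendsto_natCast_atTop_atTop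
  have h2 : Tendsto (fun x : ℕ => (x : ℝ) ^ (ε / 4)) atTop atTop :=
    (tendsto_rpow_atTop (by positivity)).comp tendsto_natCast_atTop_atTop
  obtain ⟨x0, h0⟩ := eventually_atTop.1 (((h1.eventually_ge_atTop (1 + |C| + 8 / ε)).and
    (h2.eventually_ge_atTop 1)).and (eventually_ge_atTop 1))
  refine ⟨x0, fun x hx => ?_⟩
  obtain ⟨⟨h3, h4⟩, h5⟩ := h0 x hx
  have hx0 : (0 : ℝ) < x := by exact_mod_cast h5
  have h6 : (x : ℝ) ^ ε = (x : ℝ) ^ (ε / 2) * (x : ℝ) ^ (ε / 2) := by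
    rw [← Real.rpow_add hx0]; congr 1; ring
  have h7 : (x : ℝ) ^ (ε / 2) = (x : ℝ) ^ (ε / 4) * (x : ℝ) ^ (ε / 4) := by
    rw [← Real.rpow_add hx0]; congr 1; ring
  have h8 : Real.log x ≤ (x : ℝ) ^ (ε / 4) / (ε / 4) :=
    Real.log_le_rpow_div hx0.le (by positivity)
  have h9 : C ≤ |C| := le_abs_self C
  have h10 : 0 < (x : ℝ) ^ (ε / 4) := by positivity
  have h11 : (x : ℝ) ^ (ε / 4) ≤ (x : ℝ) ^ (ε / 2) := by
    rw [h7]; nlinarith
  have h12 : 2 * Real.log x ≤ 8 / ε * (x : ℝ) ^ (ε / 2) := by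
    calc 2 * Real.log x ≤ 2 * ((x : ℝ) ^ (ε / 4) / (ε / 4)) := by linarith
      _ = 8 / ε * (x : ℝ) ^ (ε / 4) := by field_simp; norm_num
      _ ≤ _ := by gcongr
  have h13 : 1 ≤ (x : ℝ) ^ (ε / 2) := by
    have : 0 ≤ 8 / ε := by positivity
    have := abs_nonneg C
    linarith
  rw [h6]
  nlinarith [abs_nonneg C, mul_le_mul_of_nonneg_right h3 (show (0:ℝ) ≤ (x : ℝ) ^ (ε / 2) by positivity)]

lemma pow_small (ε η : ℝ) (hε2 : ε < 1 / 2) (hη : 0 < η) : ∃ x0 : ℕ, ∀ x : ℕ, x0 ≤ x →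
    (x : ℝ) ^ ε * √(Nat.primeCounting x : ℝ) ≤ η * (Nat.primeCounting x : ℝ) := by
  set δ := 1 / 2 - ε with hδ
  have hδ0 : 0 < δ := by linarith
  have h1 : Tendsto (fun x : ℕ => (x : ℝ) ^ δ) atTop atTop :=
    (tendsto_rpow_atTop hδ0).comp tendsto_natCast_atTop_atTop
  obtain ⟨x0, h0⟩ := eventually_atTop.1 ((h1.eventually_ge_atTop (10 / (η ^ 2 * δ))).and
    (eventually_ge_atTop 2))
  refine ⟨x0, fun x hx => ?_⟩
  obtain ⟨h2, h3⟩ := h0 x hx
  have hx2 : (2 : ℝ) ≤ x := by exact_mod_cast h3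
  have hx0 : (0 : ℝ) < x := by linarith
  have hlog : 0 < Real.log x := Real.log_pos (by linarith)
  have h4 := Pool.Agent.H730R2.AA.MTLib.pi_lower x h3
  set π := (Nat.primeCounting x : ℝ) with hπ
  have hxd : 0 < (x : ℝ) ^ δ := by positivity
  have h5 : Real.log x ≤ (x : ℝ) ^ δ / δ := Real.log_le_rpow_div hx0.le hδ0
  have h6 : δ * (x : ℝ) / (10 * (x : ℝ) ^ δ) ≤ π := by
    refine le_trans ?_ h4
    rw [div_le_div_iff₀ (by positivity) (by positivity)]
    have h7 : δ * Real.log x ≤ (x : ℝ) ^ δ := by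
      rw [le_div_iff₀ hδ0] at h5
      linarith
    calc δ * (x : ℝ) * (10 * Real.log x) = 10 * x * (δ * Real.log x) := by ring
      _ ≤ 10 * x * (x : ℝ) ^ δ := by gcongr
      _ = x * (10 * (x : ℝ) ^ δ) := by ring
  have h8 : ((x : ℝ) ^ ε) ^ 2 ≤ η ^ 2 * π := by
    have e1 : ((x : ℝ) ^ ε) ^ 2 = (x : ℝ) / ((x : ℝ) ^ δ * (x : ℝ) ^ δ) := by
      rw [eq_div_iff (by positivity), pow_two, ← Real.rpow_add hx0, ← Real.rpow_add hx0,
        ← Real.rpow_add hx0]
      conv_rhs => rw [← Real.rpow_one (x : ℝ)]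
      congr 1
      rw [hδ]; ring
    have e2 : (x : ℝ) / ((x : ℝ) ^ δ * (x : ℝ) ^ δ) ≤ η ^ 2 * (δ * (x : ℝ) / (10 * (x : ℝ) ^ δ)) := by
      rw [← mul_div_assoc, div_le_div_iff₀ (by positivity) (by positivity)]
      rw [div_le_iff₀ (by positivity)] at h2
      calc (x : ℝ) * (10 * (x : ℝ) ^ δ) = (x * (x : ℝ) ^ δ) * 10 := by ring
        _ ≤ (x * (x : ℝ) ^ δ) * ((x : ℝ) ^ δ * (η ^ 2 * δ)) := by gcongr
        _ = _ := by ring
    rw [e1]
    refine e2.trans ?_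
    gcongr
  have hπ0 : 0 ≤ π := by positivity
  have h9 : (x : ℝ) ^ ε ≤ η * √π := by
    apply le_of_sq_le_sq _ (by positivity)
    rw [mul_pow, Real.sq_sqrt hπ0]
    exact h8
  calc (x : ℝ) ^ ε * √π ≤ η * √π * √π := by gcongr
    _ = η * π := by rw [mul_assoc, Real.mul_self_sqrt hπ0]

theorem plain (ε A B c : ℝ) (hε : 0 < ε) (hε2 : ε < 1 / 2) (hA : 0 ≤ A) (hc : 0 < c) :
    ∃ κ : ℝ, 0 < κ ∧ ∀ D : ℤ, Squarefree D → D % 4 = 1 → D ≠ 1 → ∀ η : ℝ, 0 < η →
      ∃ N0 : ℕ, ∀ N : ℕ, N0 ≤ N → ∀ S : ℕ → Finset (Finset ℕ),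
        (∀ x : ℕ, 2 ≤ x → (#(S x) : ℝ) ≤ (x : ℝ) ^ B) →
        (∀ x, ∀ P ∈ S x, ∀ p ∈ P, p.Prime ∧ p ≤ x) →
        (#((Icc 1 N).filter (fun m => ¬ ∀ x : ℕ, (Real.log N) ^ c ≤ x → (x : ℝ) ≤ (N : ℝ) ^ κ →
          Good D ε η (S x) x m)) : ℝ) ≤ N / (Real.log N) ^ A := by
  obtain ⟨κ, hκ, N1, hN1⟩ := all_x (ε / 2) A (max B 8 + 1) c (by positivity) hA (by positivity) hc
  refine ⟨κ, hκ, fun D hsq hD4 hD1 η hη => ?_⟩
  have hD0 : D ≠ 0 := hsq.ne_zero
  obtain ⟨C, hC, hCm⟩ := main_err D hD0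
  obtain ⟨x0, hx0⟩ := log_small C ε hε
  obtain ⟨C2, hC2, hPm⟩ := PrU_main D hD0
  -- the density
  have hlim := Pool.Agent.H730R2.AA.main_lim D hsq hD4 hD1
  have hev : ∀ᶠ x : ℕ in atTop, |∑ p ∈ PrU x, G D p -
      Pool.Agent.H730R2.AA.dens D * (Nat.primeCounting x : ℝ)| + (x : ℝ) ^ ε *
        √(Nat.primeCounting x : ℝ) ≤ η * (Nat.primeCounting x : ℝ) := by
    obtain ⟨y0, hy0⟩ := pow_small ε (η / 3) hε2 (by positivity)
    have e1 := (Metric.tendsto_nhds.1 hlim) (η / 3) (by positivity)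
    have e2 : Tendsto (fun x : ℕ => (Nat.primeCounting x : ℝ)) atTop atTop :=
      tendsto_natCast_atTop_atTop.comp Nat.tendsto_primeCounting
    filter_upwards [e1, e2.eventually_ge_atTop (3 * C2 / η), e2.eventually_gt_atTop 0,
      eventually_ge_atTop y0] with x h1 h2 h3 h4
    have h5 := hy0 x h4
    have h6 := hPm x
    rw [Real.dist_eq] at h1
    have h7 : |Pool.Agent.H730R2.AA.mainT D x - Pool.Agent.H730R2.AA.dens D *
        (Nat.primeCounting x : ℝ)| ≤ η / 3 * (Nat.primeCounting x : ℝ) := by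
      have e3 : Pool.Agent.H730R2.AA.mainT D x - Pool.Agent.H730R2.AA.dens D *
          (Nat.primeCounting x : ℝ) = (Pool.Agent.H730R2.AA.mainT D x /
            (Nat.primeCounting x : ℝ) - Pool.Agent.H730R2.AA.dens D) *
              (Nat.primeCounting x : ℝ) := by
        field_simp
      rw [e3, abs_mul, abs_of_pos h3]
      exact mul_le_mul_of_nonneg_right h1.le h3.le
    have h8 : C2 ≤ η / 3 * (Nat.primeCounting x : ℝ) := by
      rw [div_le_iff₀ hη] at h2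
      linarith
    have h9 : |∑ p ∈ PrU x, G D p - Pool.Agent.H730R2.AA.dens D * (Nat.primeCounting x : ℝ)| ≤
        |∑ p ∈ PrU x, G D p - Pool.Agent.H730R2.AA.mainT D x| +
        |Pool.Agent.H730R2.AA.mainT D x - Pool.Agent.H730R2.AA.dens D *
          (Nat.primeCounting x : ℝ)| := abs_sub_le _ _ _
    linarith
  obtain ⟨x1, hx1⟩ := eventually_atTop.1 hev
  have hL : Tendsto (fun N : ℕ => Real.log N) atTop atTop :=
    Real.tendsto_log_atTop.comp tendsto_natCast_atTop_atTop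
  have hLc : Tendsto (fun N : ℕ => (Real.log N) ^ c) atTop atTop :=
    (tendsto_rpow_atTop hc).comp hL
  obtain ⟨N2, hN2⟩ := eventually_atTop.1 (hLc.eventually_ge_atTop (max (max x0 x1) 2 : ℝ))
  refine ⟨max N1 N2, fun N hN S hS hSP => ?_⟩
  have hNN1 : N1 ≤ N := le_trans (le_max_left _ _) hN
  have hNN2 : N2 ≤ N := le_trans (le_max_right _ _) hN
  have hLN := hN2 N hNN2
  refine le_trans ?_ (hN1 (fam D) N hNN1 (fun x => S x ∪ APs x) ?_ ?_)
  · have : (Icc 1 N).filter (fun m => ¬ ∀ x : ℕ, (Real.log N) ^ c ≤ x → (x : ℝ) ≤ (N : ℝ) ^ κ →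
        Good D ε η (S x) x m) ⊆ (range (N + 1)).filter (fun m => ∃ x : ℕ, (Real.log N) ^ c ≤ x ∧
        (x : ℝ) ≤ (N : ℝ) ^ κ ∧ ∃ P ∈ S x ∪ APs x,
          (x : ℝ) ^ (ε / 2) * √(#P : ℝ) < |∑ p ∈ P, (fam D).g p m|) := by
      intro m hm
      rw [mem_filter, mem_Icc] at hm
      obtain ⟨hm1, hm2⟩ := hm
      rw [mem_filter, mem_range]
      refine ⟨by omega, ?_⟩
      by_contra hcon
      apply hm2
      intro x hxl hxu
      have hall : ∀ P ∈ S x ∪ APs x, |∑ p ∈ P, (fam D).g p m| ≤ (x : ℝ) ^ (ε / 2) * √(#P : ℝ) := by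
        intro P hP
        by_contra hP2
        push Not at hP2
        exact hcon ⟨x, hxl, hxu, P, hP, hP2⟩
      have hxx : (max (max x0 x1) 2 : ℝ) ≤ x := hLN.trans hxl
      have hxx0 : x0 ≤ x := by
        have : (x0 : ℝ) ≤ x := le_trans (le_trans (le_max_left _ _) (le_max_left _ _)) hxx
        exact_mod_cast this
      have hxx1 : x1 ≤ x := by
        have : (x1 : ℝ) ≤ x := le_trans (le_trans (le_max_right _ _) (le_max_left _ _)) hxx
        exact_mod_cast this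
      have hxx2 : 2 ≤ x := by
        have : (2 : ℝ) ≤ x := le_trans (le_max_right _ _) hxx
        exact_mod_cast this
      have hPr : ∀ P ∈ S x ∪ APs x, ∀ p ∈ P, p.Prime ∧ p ≤ x := by
        intro P hP
        rcases mem_union.1 hP with h | h
        · exact hSP x P h
        · exact APs_prime x P h
      have key : ∀ P ∈ S x ∪ APs x,
          |cnt D P m - ∑ p ∈ P, G D p| ≤ (x : ℝ) ^ ε * √(#P : ℝ) := by
        intro P hP
        rcases P.eq_empty_or_nonempty with rfl | hne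
        · simp [cnt]
        · have h1 := hall P hP
          have h2 := hCm x (by omega) P (hPr P hP)
          have h3 := hx0 x hxx0
          have h4 : (1 : ℝ) ≤ √(#P : ℝ) := by
            rw [Real.one_le_sqrt]
            exact_mod_cast hne.card_pos
          rw [cnt_eq]
          have h5 : |∑ p ∈ P, (fam D).g p m + ∑ p ∈ P, (nu D p : ℝ) / p - ∑ p ∈ P, G D p| ≤
              |∑ p ∈ P, (fam D).g p m| + |∑ p ∈ P, (nu D p : ℝ) / p - ∑ p ∈ P, G D p| := by
            rw [add_sub_assoc]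
            exact abs_add_le _ _
          have h6 : (0 : ℝ) ≤ C + 2 * Real.log x := le_trans (abs_nonneg _) h2
          nlinarith
      refine ⟨fun P hP => key P (mem_union_left _ hP), fun u v q b hu hv hb hq =>
        key _ (mem_union_right _ (APs_mem hu hv hq hb)), ?_⟩
      have h7 := key (PrU x) (mem_union_right _ (by
        rw [PrU_eq]
        exact APs_mem (Nat.zero_le _) le_rfl (by omega) (by omega)))
      rw [PrU_card] at h7
      have h8 := hx1 x hxx1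
      have h9 : |cnt D (PrU x) m - Pool.Agent.H730R2.AA.dens D * (Nat.primeCounting x : ℝ)| ≤
          |cnt D (PrU x) m - ∑ p ∈ PrU x, G D p| + |∑ p ∈ PrU x, G D p -
            Pool.Agent.H730R2.AA.dens D * (Nat.primeCounting x : ℝ)| := abs_sub_le _ _ _
      linarith
    exact_mod_cast card_le_card this
  · intro x hx
    have h1 := hS x hx
    have h2 : (#(APs x) : ℝ) ≤ (x : ℝ) ^ (8 : ℝ) := by
      have := APs_card x hx
      have h3 : (#(APs x) : ℝ) ≤ (x : ℝ) ^ 8 := by exact_mod_cast this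
      rw [← Real.rpow_natCast] at h3
      exact_mod_cast h3
    have hx1' : (1 : ℝ) ≤ x := by exact_mod_cast (by omega : 1 ≤ x)
    have hx2' : (2 : ℝ) ≤ x := by exact_mod_cast hx
    have h4 : (x : ℝ) ^ B ≤ (x : ℝ) ^ (max B 8) :=
      Real.rpow_le_rpow_of_exponent_le hx1' (le_max_left _ _)
    have h5 : (x : ℝ) ^ (8 : ℝ) ≤ (x : ℝ) ^ (max B 8) :=
      Real.rpow_le_rpow_of_exponent_le hx1' (le_max_right _ _)
    have h6 : (#(S x ∪ APs x) : ℝ) ≤ #(S x) + #(APs x) := by exact_mod_cast card_union_le _ _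
    rw [Real.rpow_add (by linarith), Real.rpow_one]
    have h7 : 0 ≤ (x : ℝ) ^ (max B 8) := by positivity
    nlinarith
  · intro x P hP
    rcases mem_union.1 hP with h | h
    · exact hSP x P h
    · exact APs_prime x P h

end Pool.Agent.H735A
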