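import Mathlib
import Pool.Agent.H735A.Plain
import Pool.Agent.H735A.Gauss

set_option autoImplicit false

/-! # The variance -/

namespace Pool.Agent.H735A

open Finset Filter Topology
open Pool.Agent.H730R2.AA (Wd om PR Wd_lim Wd_bound)

/-- the proportion of the residues `m` modulo `p` for which `D m²` is a primitive root modulo `p` -/
noncomputable def w (D : ℤ) (p : ℕ) : ℝ := (nu D p : ℝ) / p

/-- the variance of the number of the `p ∈ P` modulo which `D m²` is a primitive root -/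
noncomputable def W (D : ℤ) (P : Finset ℕ) : ℝ := ∑ p ∈ P, w D p * (1 - w D p)

lemma w_nonneg (D : ℤ) (p : ℕ) : 0 ≤ w D p := (nu_div D p).1
lemma w_le_one (D : ℤ) (p : ℕ) : w D p ≤ 1 := (nu_div D p).2

lemma ww_nonneg (D : ℤ) (p : ℕ) : 0 ≤ w D p * (1 - w D p) :=
  mul_nonneg (w_nonneg D p) (by linarith [w_le_one D p])

lemma W_le (D : ℤ) (P : Finset ℕ) : W D P ≤ #P / 4 := by
  unfold W
  calc ∑ p ∈ P, w D p * (1 - w D p) ≤ ∑ p ∈ P, (1 / 4 : ℝ) := by
        apply sum_le_sum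
        intro p _
        nlinarith [sq_nonneg (w D p - 1 / 2)]
    _ = #P / 4 := by rw [sum_const, nsmul_eq_mul]; ring

lemma va_fam (D : ℤ) {p : ℕ} (hp : p.Prime) : (fam D).va p = w D p * (1 - w D p) := by
  classical
  have hp0 : (p : ℝ) ≠ 0 := by exact_mod_cast hp.ne_zero
  have hw : (nu D p : ℝ) / p = w D p := rfl
  have hnu : (nu D p : ℝ) = p * w D p := by
    unfold w
    field_simp
  have h1 : ∀ j ∈ range p, (fam D).g p j ^ 2 =
      (if Prim D p j then (1 : ℝ) else 0) * (1 - 2 * w D p) + w D p ^ 2 := by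
    intro j _
    change ((if Prim D p j then (1 : ℝ) else 0) - (nu D p : ℝ) / p) ^ 2 = _
    rw [hw]
    split_ifs <;> ring
  have h2 : ∑ j ∈ range p, (if Prim D p j then (1 : ℝ) else 0) = nu D p := by
    unfold nu
    rw [card_filter]
    push_cast
    rfl
  unfold Fam.va
  rw [sum_congr rfl h1, sum_add_distrib, ← sum_mul, h2, sum_const, card_range, nsmul_eq_mul, hnu]
  field_simp
  ring

lemma tot_real (n : ℕ) : (Nat.totient n : ℝ) = n * ∏ l ∈ n.primeFactors, (1 - (l : ℝ)⁻¹) := by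
  have h := Nat.totient_eq_mul_prod_factors n
  have h2 : ((Nat.totient n : ℚ) : ℝ) = ((n * ∏ p ∈ n.primeFactors, (1 - (p : ℚ)⁻¹) : ℚ) : ℝ) := by
    rw [h]
  push_cast at h2
  exact h2

lemma fac_bd {l : ℕ} (hl : l.Prime) : 0 ≤ 1 - (l : ℝ)⁻¹ ∧ 1 - (l : ℝ)⁻¹ ≤ 1 := by
  have h1 : (1 : ℝ) ≤ l := by exact_mod_cast hl.one_le
  have h2 : (l : ℝ)⁻¹ ≤ 1 := inv_le_one_of_one_le₀ h1
  have h3 : 0 ≤ (l : ℝ)⁻¹ := by positivity
  constructor <;> linarith

lemma tot_two_q {n q : ℕ} (hn : 0 < n) (h2 : 2 ∣ n) (hqn : q ∣ n) (hq : q.Prime) (hq2 : q ≠ 2) :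
    (Nat.totient n : ℝ) ≤ n / 2 * (1 - (q : ℝ)⁻¹) := by
  rw [tot_real]
  have hsub : ({2, q} : Finset ℕ) ⊆ n.primeFactors := by
    intro l hl
    rw [mem_insert, mem_singleton] at hl
    rw [Nat.mem_primeFactors]
    rcases hl with rfl | rfl
    · exact ⟨Nat.prime_two, h2, hn.ne'⟩
    · exact ⟨hq, hqn, hn.ne'⟩
  rw [← prod_sdiff hsub]
  have h3 : ∏ l ∈ n.primeFactors \ {2, q}, (1 - (l : ℝ)⁻¹) ≤ 1 := by
    apply prod_le_one
    · intro l hl
      rw [Finset.mem_sdiff] at hl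
      exact (fac_bd (Nat.prime_of_mem_primeFactors hl.1)).1
    · intro l hl
      rw [Finset.mem_sdiff] at hl
      exact (fac_bd (Nat.prime_of_mem_primeFactors hl.1)).2
  rw [prod_pair (Ne.symm hq2)]
  have h4 := fac_bd hq
  have h5 : (0 : ℝ) ≤ n := Nat.cast_nonneg _
  push_cast
  have h6 : (0 : ℝ) ≤ (1 - (2 : ℝ)⁻¹) * (1 - (q : ℝ)⁻¹) := mul_nonneg (by norm_num) h4.1
  have h7 := mul_le_mul_of_nonneg_right h3 h6
  have h8 := mul_le_mul_of_nonneg_left h7 h5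
  refine h8.trans (le_of_eq ?_)
  ring

lemma w_le_q {D : ℤ} {p q : ℕ} (hp : p.Prime) (hp2 : p ≠ 2) (hD : ¬ (p : ℤ) ∣ D) (hq : q.Prime)
    (hq2 : q ≠ 2) (hqp : q ∣ p - 1) : w D p ≤ 1 - (q : ℝ)⁻¹ := by
  unfold w
  rw [nu_eq hp hp2 D hD]
  have hpp := hp.two_le
  have hp0 : (0 : ℝ) < p := by exact_mod_cast hp.pos
  have h2 : 2 ∣ p - 1 := by
    have := hp.eq_two_or_odd
    omega
  have h3 := tot_two_q (by omega) h2 hqp hq hq2
  have h4 : ((p - 1 : ℕ) : ℝ) = (p : ℝ) - 1 := by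
    rw [Nat.cast_sub hp.one_le]; simp
  rw [h4] at h3
  have h5 := abs_le.1 (jac_abs D p)
  have h6 := (fac_bd hq).1
  have h7 : (0 : ℝ) ≤ Nat.totient (p - 1) := Nat.cast_nonneg _
  rw [div_le_iff₀ hp0]
  nlinarith

/-- `S_p` -/
noncomputable def Sp (p : ℕ) : ℝ := ∑ l ∈ (p - 1).primeFactors, ((l : ℝ) - 1)⁻¹

lemma Sp_nonneg (p : ℕ) : 0 ≤ Sp p := by
  unfold Sp
  apply sum_nonneg
  intro l hl
  have h1 : (1 : ℝ) ≤ l := by exact_mod_cast (Nat.prime_of_mem_primeFactors hl).one_le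
  apply inv_nonneg.2
  linarith

lemma tot_lower (n : ℕ) : (n : ℝ) * Real.exp (-∑ l ∈ n.primeFactors, ((l : ℝ) - 1)⁻¹) ≤
    Nat.totient n := by
  rw [tot_real]
  apply mul_le_mul_of_nonneg_left _ (Nat.cast_nonneg _)
  rw [← sum_neg_distrib, Real.exp_sum]
  apply Finset.prod_le_prod
  · intro l _
    exact (Real.exp_pos _).le
  · intro l hl
    have h2 : (2 : ℝ) ≤ l := by exact_mod_cast (Nat.prime_of_mem_primeFactors hl).two_le
    have h3 := Real.add_one_le_exp (((l : ℝ) - 1)⁻¹)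
    have h4 : (0 : ℝ) < (l : ℝ) - 1 := by linarith
    have h5 : 0 < Real.exp (((l : ℝ) - 1)⁻¹) := Real.exp_pos _
    rw [Real.exp_neg]
    have h6 : ((l : ℝ) - 1)⁻¹ + 1 = (1 - (l : ℝ)⁻¹)⁻¹ := by
      have : (l : ℝ) ≠ 0 := by linarith
      have : (l : ℝ) - 1 ≠ 0 := h4.ne'
      field_simp
      ring
    rw [h6] at h3
    have h7 : 0 < 1 - (l : ℝ)⁻¹ := by
      have : (l : ℝ)⁻¹ ≤ 2⁻¹ := inv_anti₀ (by norm_num) h2
      norm_num at this
      linarith
    exact inv_le_of_inv_le₀ h7 h3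

lemma w_lower {D : ℤ} {p : ℕ} (hp : p.Prime) (hp2 : p ≠ 2) (hD : ¬ (p : ℤ) ∣ D) :
    (1 - (jacobiSym D p : ℝ)) * (1 / 2 * Real.exp (-Sp p)) ≤ w D p := by
  unfold w
  rw [nu_eq hp hp2 D hD]
  have hpp : (2 : ℝ) ≤ p := by exact_mod_cast hp.two_le
  have h1 := tot_lower (p - 1)
  have h4 : ((p - 1 : ℕ) : ℝ) = (p : ℝ) - 1 := by
    rw [Nat.cast_sub hp.one_le]; simp
  rw [h4] at h1
  have h5 := abs_le.1 (jac_abs D p)
  have h6 : (0 : ℝ) < Real.exp (-Sp p) := Real.exp_pos _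
  have h7 : 1 / 2 * Real.exp (-Sp p) ≤ (Nat.totient (p - 1) : ℝ) / p := by
    rw [le_div_iff₀ (by linarith)]
    refine le_trans ?_ h1
    change _ ≤ ((p : ℝ) - 1) * Real.exp (-Sp p)
    nlinarith
  calc (1 - (jacobiSym D p : ℝ)) * (1 / 2 * Real.exp (-Sp p))
      ≤ (1 - (jacobiSym D p : ℝ)) * ((Nat.totient (p - 1) : ℝ) / p) :=
        mul_le_mul_of_nonneg_left h7 (by linarith [h5.2])
    _ = _ := by ring

lemma PR_card (D : ℤ) (x : ℕ) : (#(PR D x) : ℝ) ≤ Nat.primeCounting x := by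
  have : PR D x ⊆ PrU x := by
    intro p hp
    unfold PR at hp
    unfold PrU
    rw [mem_filter, mem_range] at hp
    rw [mem_filter, mem_Ioc]
    exact ⟨⟨hp.2.1.pos, by omega⟩, hp.2.1⟩
  have h := card_le_card this
  rw [PrU_card] at h
  exact_mod_cast h

lemma Sp_sum (D : ℤ) : ∃ C : ℝ, 0 < C ∧ ∀ x : ℕ, 2 ≤ x →
    ∑ p ∈ PR D x, Sp p ≤ C * Nat.primeCounting x := by
  obtain ⟨C, hC, hb⟩ := Wd_bound D
  have hsum : Summable (fun l : ℕ => 2 * (l : ℝ) ^ (-(5 : ℝ) / 4)) := by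
    apply Summable.mul_left
    rw [Real.summable_nat_rpow]
    norm_num
  refine ⟨(C + 2) * (∑' l : ℕ, 2 * (l : ℝ) ^ (-(5 : ℝ) / 4) + 1), ?_, fun x hx => ?_⟩
  · have : 0 ≤ ∑' l : ℕ, 2 * (l : ℝ) ^ (-(5 : ℝ) / 4) := tsum_nonneg fun _ => by positivity
    positivity
  have hpi : 0 < (Nat.primeCounting x : ℝ) := by
    have := Pool.Agent.H730R2.AA.pc_pos x hx
    exact_mod_cast this
  -- swap
  have h1 : ∑ p ∈ PR D x, Sp p = ∑ l ∈ (range (x + 1)).filter Nat.Prime,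
      ((l : ℝ) - 1)⁻¹ * #((PR D x).filter (fun p => l ∣ p - 1)) := by
    have h2 : ∀ p ∈ PR D x, Sp p = ∑ l ∈ (range (x + 1)).filter Nat.Prime,
        (if l ∣ p - 1 then ((l : ℝ) - 1)⁻¹ else 0) := by
      intro p hp
      unfold PR at hp
      rw [mem_filter, mem_range] at hp
      have hp2 := hp.2.1.two_le
      unfold Sp
      rw [← sum_filter]
      apply sum_congr _ fun _ _ => rfl
      ext l
      rw [Nat.mem_primeFactors, mem_filter, mem_filter, mem_range]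
      constructor
      · rintro ⟨a, b, c⟩
        have := Nat.le_of_dvd (by omega) b
        exact ⟨⟨by omega, a⟩, b⟩
      · rintro ⟨⟨a, b⟩, c⟩
        exact ⟨b, c, by omega⟩
    rw [sum_congr rfl h2, sum_comm]
    apply sum_congr rfl
    intro l _
    rw [← sum_filter, sum_const, nsmul_eq_mul, mul_comm]
  have h3 : ∀ l ∈ (range (x + 1)).filter Nat.Prime, (#((PR D x).filter (fun p => l ∣ p - 1)) : ℝ) ≤
      (C + 2) * (l : ℝ) ^ (-(1 : ℝ) / 4) * Nat.primeCounting x := by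
    intro l hl
    rw [mem_filter] at hl
    have hl2 := hl.2.two_le
    have hl0 : (0 : ℝ) < l := by exact_mod_cast hl.2.pos
    by_cases h2 : l = 2
    · subst h2
      have h4 : (#((PR D x).filter (fun p => 2 ∣ p - 1)) : ℝ) ≤ Nat.primeCounting x :=
        le_trans (by exact_mod_cast card_filter_le _ _) (PR_card D x)
      have h5 : (1 : ℝ) / 2 ≤ ((2 : ℕ) : ℝ) ^ (-(1 : ℝ) / 4) := by
        have h6 : ((2 : ℕ) : ℝ) ^ (-1 : ℝ) ≤ ((2 : ℕ) : ℝ) ^ (-(1 : ℝ) / 4) :=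
          Real.rpow_le_rpow_of_exponent_le (by norm_num) (by norm_num)
        rw [Real.rpow_neg_one] at h6
        norm_num at h6 ⊢
        exact h6
      have h7 : (1 : ℝ) ≤ (C + 2) * ((2 : ℕ) : ℝ) ^ (-(1 : ℝ) / 4) := by nlinarith
      nlinarith
    · have hodd : ¬ 2 ∣ l := by
        intro h
        have := (Nat.prime_dvd_prime_iff_eq Nat.prime_two hl.2).1 h
        omega
      have h4 := hb l x (by omega) hx
      have h5 : Wd D l x = #((PR D x).filter (fun p => l ∣ p - 1)) := by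
        unfold Wd
        simp only [if_neg hodd, add_zero]
        rw [sum_const, nsmul_eq_mul, mul_one]
        congr 2
        apply filter_congr
        intro p hp
        unfold PR at hp
        rw [mem_filter] at hp
        exact Pool.Agent.H730R2.AA.MTLib.mod_iff hp.2.1.one_le
      rw [h5, div_le_iff₀ hpi, abs_of_nonneg (Nat.cast_nonneg _)] at h4
      refine h4.trans ?_
      apply mul_le_mul_of_nonneg_right _ hpi.le
      apply mul_le_mul_of_nonneg_right _ (by positivity)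
      linarith
  rw [h1]
  calc ∑ l ∈ (range (x + 1)).filter Nat.Prime,
      ((l : ℝ) - 1)⁻¹ * #((PR D x).filter (fun p => l ∣ p - 1))
      ≤ ∑ l ∈ (range (x + 1)).filter Nat.Prime,
        (C + 2) * Nat.primeCounting x * (2 * (l : ℝ) ^ (-(5 : ℝ) / 4)) := by
        apply sum_le_sum
        intro l hl
        have h4 := h3 l hl
        rw [mem_filter] at hl
        have hl2 : (2 : ℝ) ≤ l := by exact_mod_cast hl.2.two_le
        have hl0 : (0 : ℝ) < l := by linarith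
        have h5 : ((l : ℝ) - 1)⁻¹ ≤ 2 * (l : ℝ)⁻¹ := by
          rw [← div_eq_mul_inv, inv_eq_one_div, div_le_div_iff₀ (by linarith) hl0]
          linarith
        have h6 : 0 ≤ ((l : ℝ) - 1)⁻¹ := inv_nonneg.2 (by linarith)
        have h7 : (l : ℝ) ^ (-(5 : ℝ) / 4) = (l : ℝ)⁻¹ * (l : ℝ) ^ (-(1 : ℝ) / 4) := by
          rw [← Real.rpow_neg_one, ← Real.rpow_add hl0]
          norm_num
        calc ((l : ℝ) - 1)⁻¹ * #((PR D x).filter (fun p => l ∣ p - 1))
            ≤ (2 * (l : ℝ)⁻¹) * ((C + 2) * (l : ℝ) ^ (-(1 : ℝ) / 4) * Nat.primeCounting x) :=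
              mul_le_mul h5 h4 (Nat.cast_nonneg _) (by positivity)
          _ = _ := by rw [h7]; ring
    _ = (C + 2) * Nat.primeCounting x * ∑ l ∈ (range (x + 1)).filter Nat.Prime,
        (2 * (l : ℝ) ^ (-(5 : ℝ) / 4)) := by rw [mul_sum]
    _ ≤ (C + 2) * Nat.primeCounting x * (∑' l : ℕ, 2 * (l : ℝ) ^ (-(5 : ℝ) / 4) + 1) := by
        apply mul_le_mul_of_nonneg_left _ (by positivity)
        have := hsum.sum_le_tsum ((range (x + 1)).filter Nat.Prime) (fun _ _ => by positivity)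
        linarith
    _ = _ := by ring

end Pool.Agent.H735A
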