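import Mathlib
import Pool.Agent.H735A.Var
import Pool.Agent.H735A.Gauss2

set_option autoImplicit false

/-! # The Gaussian law for the Artin counts -/

namespace Pool.Agent.H735A

open Finset Filter Topology
open Pool.Agent.H730R2.AA (Wd om PR Wd_lim Wd_bound)

lemma T_eq (D : ℤ) {q : ℕ} (hq : q.Prime) (hq2 : q ≠ 2) (x : ℕ) :
    ∑ p ∈ (PR D x).filter (fun p => q ∣ p - 1), (1 - (jacobiSym D p : ℝ)) =
      2 * Wd D q x - Wd D (2 * q) x := by
  have hodd : ¬ 2 ∣ q := by
    intro h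
    have := (Nat.prime_dvd_prime_iff_eq Nat.prime_two hq).1 h
    omega
  have h1 : Wd D q x = ∑ p ∈ (PR D x).filter (fun p => q ∣ p - 1), (1 : ℝ) := by
    unfold Wd
    simp only [if_neg hodd, add_zero]
    apply sum_congr _ fun _ _ => rfl
    apply filter_congr
    intro p hp
    unfold PR at hp
    rw [mem_filter] at hp
    exact Pool.Agent.H730R2.AA.MTLib.mod_iff hp.2.1.one_le
  have h2 : Wd D (2 * q) x = ∑ p ∈ (PR D x).filter (fun p => q ∣ p - 1),
      (1 + (jacobiSym D p : ℝ)) := by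
    unfold Wd
    simp only [if_pos (Dvd.intro q rfl : 2 ∣ 2 * q)]
    apply sum_congr _ fun _ _ => rfl
    apply filter_congr
    intro p hp
    unfold PR at hp
    rw [mem_filter] at hp
    rw [Pool.Agent.H730R2.AA.MTLib.mod_iff hp.2.1.one_le]
    constructor
    · intro h
      exact (Dvd.intro_left 2 rfl).trans h
    · intro h
      have h3 : 2 ∣ p - 1 := by
        have := hp.2.1.eq_two_or_odd
        omega
      exact Nat.Coprime.mul_dvd_of_dvd_of_dvd
        ((Nat.coprime_primes Nat.prime_two hq).2 (Ne.symm hq2)) h3 h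
  rw [h1, h2, mul_sum, ← sum_sub_distrib]
  apply sum_congr rfl
  intro p _
  ring

theorem W_lower (D : ℤ) (hD : Squarefree D) (hD1 : D % 4 = 1) (hD2 : D ≠ 1) :
    ∃ c : ℝ, 0 < c ∧ ∀ᶠ x : ℕ in atTop, c * Nat.primeCounting x ≤ W D (PrU x) := by
  obtain ⟨q, hqD, hq⟩ := Nat.exists_infinite_primes (D.natAbs + 3)
  have hq2 : q ≠ 2 := by omega
  have hq0 : (0 : ℝ) < q := by exact_mod_cast hq.pos
  have hq1 : (0 : ℝ) < (q : ℝ) - 1 := by
    have : (2 : ℝ) ≤ q := by exact_mod_cast hq.two_le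
    linarith
  have hodd : ¬ 2 ∣ q := by
    intro h
    have := (Nat.prime_dvd_prime_iff_eq Nat.prime_two hq).1 h
    omega
  have hDabs : D.natAbs ≠ 1 := by
    intro h
    rcases Int.natAbs_eq D with h1 | h1
    · rw [h] at h1; exact hD2 (by simpa using h1)
    · rw [h] at h1
      rw [h1] at hD1
      norm_num at hD1
  have hD0 : D.natAbs ≠ 0 := by
    intro h
    rw [Int.natAbs_eq_zero] at h
    rw [h] at hD1
    norm_num at hD1
  have htq : (Nat.totient q : ℝ) = (q : ℝ) - 1 := by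
    rw [Nat.totient_prime hq, Nat.cast_sub hq.one_le]; simp
  have ht2q : (Nat.totient (2 * q) : ℝ) = (q : ℝ) - 1 := by
    rw [Nat.totient_mul ((Nat.coprime_primes Nat.prime_two hq).2 (Ne.symm hq2)),
      Nat.totient_two, one_mul, htq]
  have ho1 : om D q = 1 / ((q : ℝ) - 1) := by
    unfold om
    rw [if_neg, htq, add_zero]
    intro h
    exact hodd ((Dvd.intro _ rfl).trans h)
  have ho2 : om D (2 * q) = 1 / ((q : ℝ) - 1) := by
    unfold om
    rw [if_neg, ht2q, add_zero]
    intro h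
    have h1 : D.natAbs ∣ q := Nat.dvd_of_mul_dvd_mul_left (by norm_num) h
    rcases (Nat.dvd_prime hq).1 h1 with h2 | h2
    · exact hDabs h2
    · omega
  set L := 1 / ((q : ℝ) - 1) with hL
  have hL0 : 0 < L := by positivity
  have hT : Tendsto (fun x : ℕ => (∑ p ∈ (PR D x).filter (fun p => q ∣ p - 1),
      (1 - (jacobiSym D p : ℝ))) / (Nat.primeCounting x : ℝ)) atTop (𝓝 L) := by
    have h1 := (Wd_lim D hD hD1 hD2 q hq.one_le).const_mul 2
    have h2 := Wd_lim D hD hD1 hD2 (2 * q) (by omega)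
    rw [ho1] at h1
    rw [ho2] at h2
    have h3 := h1.sub h2
    have e : 2 * L - L = L := by ring
    rw [e] at h3
    refine h3.congr fun x => ?_
    rw [T_eq D hq hq2]
    ring
  obtain ⟨C, hC, hS⟩ := Sp_sum D
  set a := 4 * C / L with ha
  refine ⟨(q : ℝ)⁻¹ * (1 / 2 * Real.exp (-a) * (L / 2)), by positivity, ?_⟩
  filter_upwards [(Metric.tendsto_nhds.1 hT) (L / 2) (by positivity), eventually_ge_atTop 2]
    with x h1 hx
  have hpi : 0 < (Nat.primeCounting x : ℝ) := by
    have := Pool.Agent.H730R2.AA.pc_pos x hx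
    exact_mod_cast this
  set π := (Nat.primeCounting x : ℝ) with hπ
  set Q := (PR D x).filter (fun p => q ∣ p - 1) with hQ
  set T := ∑ p ∈ Q, (1 - (jacobiSym D p : ℝ)) with hTdef
  rw [Real.dist_eq] at h1
  have h2 : L / 2 * π ≤ T := by
    have h3 := (abs_lt.1 h1).1
    have h4 : L / 2 ≤ T / π := by linarith
    rwa [le_div_iff₀ hpi] at h4
  have hmem : ∀ p ∈ Q, p.Prime ∧ p ≠ 2 ∧ ¬ ((p : ℤ) ∣ D) ∧ q ∣ p - 1 ∧ p ≤ x := by
    intro p hp
    rw [hQ, mem_filter] at hp
    obtain ⟨hp1, hp2⟩ := hp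
    unfold PR at hp1
    rw [mem_filter, mem_range] at hp1
    exact ⟨hp1.2.1, hp1.2.2.1, hp1.2.2.2, hp2, by omega⟩
  have hJ : ∀ p, 0 ≤ 1 - (jacobiSym D p : ℝ) ∧ 1 - (jacobiSym D p : ℝ) ≤ 2 := by
    intro p
    have := abs_le.1 (jac_abs D p)
    constructor <;> linarith [this.1, this.2]
  have h3 : ∑ p ∈ Q, (1 - (jacobiSym D p : ℝ)) * Sp p ≤ 2 * C * π := by
    calc ∑ p ∈ Q, (1 - (jacobiSym D p : ℝ)) * Sp p ≤ ∑ p ∈ Q, 2 * Sp p :=
          sum_le_sum fun p _ => mul_le_mul_of_nonneg_right (hJ p).2 (Sp_nonneg p)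
      _ ≤ ∑ p ∈ PR D x, 2 * Sp p := by
          apply sum_le_sum_of_subset_of_nonneg (filter_subset _ _)
          intro p _ _
          have := Sp_nonneg p
          linarith
      _ = 2 * ∑ p ∈ PR D x, Sp p := by rw [mul_sum]
      _ ≤ 2 * (C * π) := by linarith [hS x hx]
      _ = 2 * C * π := by ring
  have hea : 0 < Real.exp (-a) := Real.exp_pos _
  have ha0 : 0 < a := by positivity
  have h4 : 1 / 2 * Real.exp (-a) * (L / 2 * π) ≤ ∑ p ∈ Q, w D p := by
    calc 1 / 2 * Real.exp (-a) * (L / 2 * π)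
        = 1 / 2 * Real.exp (-a) * ((1 + a) * (L / 2 * π) - 2 * C * π) := by
          rw [ha]; field_simp; ring
      _ ≤ 1 / 2 * Real.exp (-a) * ((1 + a) * T - ∑ p ∈ Q, (1 - (jacobiSym D p : ℝ)) * Sp p) := by
          apply mul_le_mul_of_nonneg_left _ (by positivity)
          have := mul_le_mul_of_nonneg_left h2 (show 0 ≤ 1 + a by linarith)
          linarith
      _ = ∑ p ∈ Q, (1 - (jacobiSym D p : ℝ)) * (1 / 2 * (Real.exp (-a) * (a - Sp p + 1))) := by
          rw [hTdef, mul_sum, ← sum_sub_distrib, mul_sum]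
          apply sum_congr rfl
          intro p _
          ring
      _ ≤ ∑ p ∈ Q, (1 - (jacobiSym D p : ℝ)) * (1 / 2 * Real.exp (-Sp p)) := by
          apply sum_le_sum
          intro p _
          apply mul_le_mul_of_nonneg_left _ (hJ p).1
          apply mul_le_mul_of_nonneg_left _ (by norm_num)
          have h5 := Real.add_one_le_exp (a - Sp p)
          calc Real.exp (-a) * (a - Sp p + 1) ≤ Real.exp (-a) * Real.exp (a - Sp p) := by gcongr
            _ = Real.exp (-Sp p) := by rw [← Real.exp_add]; congr 1; ring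
      _ ≤ ∑ p ∈ Q, w D p := by
          apply sum_le_sum
          intro p hp
          obtain ⟨b1, b2, b3, b4, _⟩ := hmem p hp
          exact w_lower b1 b2 b3
  have h5 : (q : ℝ)⁻¹ * ∑ p ∈ Q, w D p ≤ W D (PrU x) := by
    rw [mul_sum]
    unfold W
    calc ∑ p ∈ Q, (q : ℝ)⁻¹ * w D p ≤ ∑ p ∈ Q, w D p * (1 - w D p) := by
          apply sum_le_sum
          intro p hp
          obtain ⟨b1, b2, b3, b4, _⟩ := hmem p hp
          have h6 := w_le_q b1 b2 b3 hq hq2 b4
          have h7 := w_nonneg D p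
          nlinarith
      _ ≤ ∑ p ∈ PrU x, w D p * (1 - w D p) := by
          apply sum_le_sum_of_subset_of_nonneg
          · intro p hp
            obtain ⟨b1, b2, b3, b4, b5⟩ := hmem p hp
            unfold PrU
            rw [mem_filter, mem_Ioc]
            exact ⟨⟨b1.pos, b5⟩, b1⟩
          · intro p _ _
            exact ww_nonneg D p
  calc (q : ℝ)⁻¹ * (1 / 2 * Real.exp (-a) * (L / 2)) * π
      = (q : ℝ)⁻¹ * (1 / 2 * Real.exp (-a) * (L / 2 * π)) := by ring
    _ ≤ (q : ℝ)⁻¹ * ∑ p ∈ Q, w D p := by gcongr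
    _ ≤ _ := h5

open Classical in
theorem clt (D : ℤ) (hD0 : D ≠ 0) {ι : Type} [Fintype ι] (y : ℕ → ℕ)
    (hy : ∀ K : ℕ, ∀ᶠ x in atTop, x ^ K ≤ y x) (P : ℕ → ι → Finset ℕ)
    (hP : ∀ x i, ∀ p ∈ P x i, p.Prime ∧ p ≤ x) (hdis : ∀ x i j, i ≠ j → Disjoint (P x i) (P x j))
    (hW : ∀ i, Tendsto (fun x : ℕ => W D (P x i) / (Real.log x) ^ 2) atTop atTop) (t : ι → ℝ) :
    Tendsto (fun x : ℕ => (#((Icc 1 (y x)).filter (fun m => ∀ i,
      cnt D (P x i) m ≤ ∑ p ∈ P x i, G D p + t i * √(W D (P x i)))) : ℝ) / y x) atTop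
      (𝓝 (∏ i, (ProbabilityTheory.gaussianReal 0 1).real (Set.Iic (t i)))) := by
  obtain ⟨C, hC, hCm⟩ := main_err D hD0
  have hlog : Tendsto (fun x : ℕ => Real.log x) atTop atTop :=
    Real.tendsto_log_atTop.comp tendsto_natCast_atTop_atTop
  have hW1 : ∀ i, Tendsto (fun x : ℕ => W D (P x i)) atTop atTop := by
    intro i
    refine tendsto_atTop_mono' _ ?_ (hW i)
    filter_upwards [hlog.eventually_ge_atTop 1] with x hx
    have h1 : 0 ≤ W D (P x i) := sum_nonneg fun p _ => ww_nonneg D p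
    exact div_le_self h1 (one_le_pow₀ hx)
  have hs : ∀ i, Tendsto (fun x : ℕ => (∑ p ∈ P x i, w D p - ∑ p ∈ P x i, G D p) /
      √(W D (P x i))) atTop (𝓝 0) := by
    intro i
    have h1 : Tendsto (fun x : ℕ => (C + 2) / √(W D (P x i) / (Real.log x) ^ 2)) atTop (𝓝 0) :=
      tendsto_const_nhds.div_atTop ((Real.tendsto_sqrt_atTop).comp (hW i))
    refine squeeze_zero_norm' ?_ h1
    filter_upwards [hlog.eventually_ge_atTop 1, eventually_ge_atTop 1] with x hx hx1
    have h2 := hCm x hx1 (P x i) (hP x i)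
    have hl0 : 0 < Real.log x := by linarith
    have h3 : √(W D (P x i) / (Real.log x) ^ 2) = √(W D (P x i)) / Real.log x := by
      rw [Real.sqrt_div' _ (by positivity), Real.sqrt_sq hl0.le]
    rw [Real.norm_eq_abs, abs_div, abs_of_nonneg (Real.sqrt_nonneg _), h3, div_div_eq_mul_div]
    apply div_le_div_of_nonneg_right _ (Real.sqrt_nonneg _)
    change |∑ p ∈ P x i, (nu D p : ℝ) / p - ∑ p ∈ P x i, G D p| ≤ _
    nlinarith
  have hva : ∀ x i, ∑ p ∈ P x i, (fam D).va p = W D (P x i) := by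
    intro x i
    unfold W
    exact sum_congr rfl fun p hp => va_fam D (hP x i p hp).1
  have hV : ∀ i, Tendsto (fun x : ℕ => (∑ p ∈ P x i, (fam D).va p) / W D (P x i)) atTop (𝓝 1) := by
    intro i
    refine tendsto_const_nhds.congr' ?_
    filter_upwards [(hW1 i).eventually_gt_atTop 0] with x hx
    rw [hva, div_self hx.ne']
  have key := gauss_law (fun _ => fam D) (fun x => x) y P hP hdis tendsto_id hy
    (fun x i => W D (P x i)) hW1 hV (fun x i => ∑ p ∈ P x i, w D p - ∑ p ∈ P x i, G D p) hs t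
  have hyr : Tendsto (fun x : ℕ => (y x : ℝ)) atTop atTop := by
    refine tendsto_atTop_mono' _ ?_ tendsto_natCast_atTop_atTop
    filter_upwards [hy 1] with x hx
    rw [pow_one] at hx
    exact_mod_cast hx
  -- compare the two counts
  have hdiff : Tendsto (fun x : ℕ => (#((Icc 1 (y x)).filter (fun m => ∀ i,
      cnt D (P x i) m ≤ ∑ p ∈ P x i, G D p + t i * √(W D (P x i)))) : ℝ) / y x -
      (#((range (y x)).filter (fun m => ∀ i, (∑ p ∈ P x i, (fam D).g p m +
        (∑ p ∈ P x i, w D p - ∑ p ∈ P x i, G D p)) / √(W D (P x i)) ≤ t i)) : ℝ) / y x)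
      atTop (𝓝 0) := by
    have h1 : Tendsto (fun x : ℕ => (1 : ℝ) / y x) atTop (𝓝 0) := tendsto_const_nhds.div_atTop hyr
    refine squeeze_zero_norm' ?_ h1
    filter_upwards [eventually_all.2 (fun i => (hW1 i).eventually_gt_atTop 0)] with x hx
    rw [Real.norm_eq_abs, ← sub_div, abs_div, Nat.abs_cast]
    apply div_le_div_of_nonneg_right _ (Nat.cast_nonneg _)
    have heq : ∀ m, (∀ i, (∑ p ∈ P x i, (fam D).g p m +
        (∑ p ∈ P x i, w D p - ∑ p ∈ P x i, G D p)) / √(W D (P x i)) ≤ t i) ↔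
        ∀ i, cnt D (P x i) m ≤ ∑ p ∈ P x i, G D p + t i * √(W D (P x i)) := by
      intro m
      apply forall_congr'
      intro i
      rw [div_le_iff₀ (Real.sqrt_pos.2 (hx i)), cnt_eq]
      change _ ↔ ∑ p ∈ P x i, (fam D).g p m + ∑ p ∈ P x i, w D p ≤ _
      constructor <;> intro h <;> linarith
    simp only [heq]
    set A := (Icc 1 (y x)).filter (fun m => ∀ i,
      cnt D (P x i) m ≤ ∑ p ∈ P x i, G D p + t i * √(W D (P x i))) with hA
    set B := (range (y x)).filter (fun m => ∀ i,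
      cnt D (P x i) m ≤ ∑ p ∈ P x i, G D p + t i * √(W D (P x i))) with hB
    have h2 : #A ≤ #B + 1 := by
      have : A ⊆ insert (y x) B := by
        intro m hm
        rw [hA, mem_filter, mem_Icc] at hm
        rw [mem_insert, hB, mem_filter, mem_range]
        by_cases h : m = y x
        · exact Or.inl h
        · exact Or.inr ⟨by omega, hm.2⟩
      exact (card_le_card this).trans (card_insert_le _ _)
    have h3 : #B ≤ #A + 1 := by
      have : B ⊆ insert 0 A := by
        intro m hm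
        rw [hB, mem_filter, mem_range] at hm
        rw [mem_insert, hA, mem_filter, mem_Icc]
        by_cases h : m = 0
        · exact Or.inl h
        · exact Or.inr ⟨by omega, hm.2⟩
      exact (card_le_card this).trans (card_insert_le _ _)
    have h2' : (#A : ℝ) ≤ #B + 1 := by exact_mod_cast h2
    have h3' : (#B : ℝ) ≤ #A + 1 := by exact_mod_cast h3
    rw [abs_le]
    constructor <;> linarith
  have h := hdiff.add key
  rw [zero_add] at h
  refine h.congr fun x => ?_
  rw [sub_add_cancel]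

/-- for the set of all primes up to `x` the hypothesis on the variance holds -/
theorem W_all (D : ℤ) (hD : Squarefree D) (hD1 : D % 4 = 1) (hD2 : D ≠ 1) :
    Tendsto (fun x : ℕ => W D (PrU x) / (Real.log x) ^ 2) atTop atTop := by
  obtain ⟨c, hc, h⟩ := W_lower D hD hD1 hD2
  have hl : Tendsto (fun x : ℕ => (x : ℝ) ^ ((1 : ℝ) / 4)) atTop atTop :=
    (tendsto_rpow_atTop (by norm_num)).comp tendsto_natCast_atTop_atTop
  have hl2 := hl.const_mul_atTop (show 0 < c / 640 by positivity)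
  refine tendsto_atTop_mono' _ ?_ hl2
  filter_upwards [h, eventually_ge_atTop 3] with x h1 hx
  have hx3 : (3 : ℝ) ≤ x := by exact_mod_cast hx
  have hx0 : (0 : ℝ) < x := by linarith
  have hlog : 0 < Real.log x := Real.log_pos (by linarith)
  have h2 := Pool.Agent.H730R2.AA.MTLib.pi_lower x (by omega)
  have h3 : Real.log x ≤ (x : ℝ) ^ ((1 : ℝ) / 4) / (1 / 4) :=
    Real.log_le_rpow_div hx0.le (by norm_num)
  set u := (x : ℝ) ^ ((1 : ℝ) / 4) with hu
  have hu0 : 0 < u := by positivity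
  have hx4 : (x : ℝ) = u ^ 4 := by
    rw [hu, ← Real.rpow_natCast, ← Real.rpow_mul hx0.le]
    norm_num
  have h4 : Real.log x ≤ 4 * u := by linarith
  rw [le_div_iff₀ (by positivity)]
  have h5 : c * (u ^ 4 / (10 * Real.log x)) ≤ W D (PrU x) := by
    rw [← hx4]
    exact (mul_le_mul_of_nonneg_left h2 hc.le).trans h1
  refine le_trans ?_ h5
  rw [mul_div_assoc', le_div_iff₀ (by positivity)]
  have h6 : (Real.log x) ^ 3 ≤ (4 * u) ^ 3 := pow_le_pow_left₀ hlog.le h4 3
  calc c / 640 * u * Real.log x ^ 2 * (10 * Real.log x) = c / 64 * u * (Real.log x) ^ 3 := by ring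
    _ ≤ c / 64 * u * (4 * u) ^ 3 := by gcongr
    _ = c * u ^ 4 := by ring

end Pool.Agent.H735A
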