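import Mathlib
import Pool.Agent.H735A.Gauss2
import Pool.Agent.H730R2.AA.MainTerm

set_option autoImplicit false

/-! # The Gaussian law for the index of the group generated by a random integer -/

namespace Pool.Agent.H735A

open Finset Filter Topology

/-- a choice of a subgroup of `(ℤ/q)ˣ` for every `q`, for instance the reductions of a fixed group of
rational numbers, or the trivial subgroups -/
abbrev Sub : Type := (q : ℕ) → Subgroup (ZMod q)ˣ

/-- `m` is prime to `q` and the index in `(ℤ/q)ˣ` of the subgroup generated by `H q` and `m` divides `k` -/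
def Idx (H : Sub) (k q m : ℕ) : Prop :=
  ∃ u : (ZMod q)ˣ, (u : ZMod q) = m ∧ (H q ⊔ Subgroup.zpowers u).index ∣ k

lemma idx_mod (H : Sub) (k q m : ℕ) : Idx H k q (m % q) ↔ Idx H k q m := by
  unfold Idx
  rw [ZMod.natCast_mod]

open Classical in
/-- number of the residues `m` modulo `q` with `Idx H k q m` -/
noncomputable def nuK (H : Sub) (k q : ℕ) : ℕ := #((range q).filter (fun m => Idx H k q m))

/-- proportion of the residues `m` modulo `q` with `Idx H k q m` -/
noncomputable def wK (H : Sub) (k q : ℕ) : ℝ := (nuK H k q : ℝ) / q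

/-- the variance -/
noncomputable def WK (H : Sub) (k : ℕ) (P : Finset ℕ) : ℝ := ∑ q ∈ P, wK H k q * (1 - wK H k q)

open Classical in
/-- number of the `q ∈ P` with `Idx H k q m` -/
noncomputable def cntK (H : Sub) (k : ℕ) (P : Finset ℕ) (m : ℕ) : ℕ :=
  #(P.filter (fun q => Idx H k q m))

lemma nuK_le (H : Sub) (k q : ℕ) : nuK H k q ≤ q := by
  classical
  exact (card_filter_le _ _).trans (by simp)

lemma wK_bd (H : Sub) (k q : ℕ) : 0 ≤ wK H k q ∧ wK H k q ≤ 1 := by
  refine ⟨by unfold wK; positivity, div_le_one_of_le₀ ?_ (Nat.cast_nonneg _)⟩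
  exact_mod_cast nuK_le H k q

open Classical in
/-- the family; the divisor bound may depend on the prime -/
noncomputable def famK (H : Sub) (k : ℕ → ℕ) : Fam where
  g := fun q m => (if Idx H (k q) q m then 1 else 0) - wK H (k q) q
  per := by
    intro q m
    congr 1
    exact if_congr (idx_mod H (k q) q m).symm rfl rfl
  bd := by
    intro q m
    obtain ⟨h1, h2⟩ := wK_bd H (k q) q
    rw [abs_le]
    split_ifs <;> constructor <;> linarith
  zero := by
    intro q hq
    have hq0 : (q : ℝ) ≠ 0 := by exact_mod_cast hq.ne_zero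
    unfold wK
    rw [sum_sub_distrib, sum_const, card_range, nsmul_eq_mul, mul_div_cancel₀ _ hq0, ← sum_filter,
      sum_const, nsmul_eq_mul, mul_one]
    unfold nuK
    exact sub_self _

lemma va_famK (H : Sub) (k : ℕ → ℕ) {q : ℕ} (hq : q.Prime) :
    (famK H k).va q = wK H (k q) q * (1 - wK H (k q) q) := by
  classical
  have hq0 : (q : ℝ) ≠ 0 := by exact_mod_cast hq.ne_zero
  have hnu : (nuK H (k q) q : ℝ) = q * wK H (k q) q := by
    unfold wK
    field_simp
  have h1 : ∀ j ∈ range q, (famK H k).g q j ^ 2 =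
      (if Idx H (k q) q j then (1 : ℝ) else 0) * (1 - 2 * wK H (k q) q) + wK H (k q) q ^ 2 := by
    intro j _
    change ((if Idx H (k q) q j then (1 : ℝ) else 0) - wK H (k q) q) ^ 2 = _
    split_ifs <;> ring
  have h2 : ∑ j ∈ range q, (if Idx H (k q) q j then (1 : ℝ) else 0) = nuK H (k q) q := by
    unfold nuK
    rw [card_filter]
    push_cast
    rfl
  unfold Fam.va
  rw [sum_congr rfl h1, sum_add_distrib, ← sum_mul, h2, sum_const, card_range, nsmul_eq_mul, hnu]
  field_simp
  ring

lemma idx_congr {H H' : Sub} {k q : ℕ} (h : H q = H' q) (m : ℕ) : Idx H k q m ↔ Idx H' k q m := by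
  unfold Idx
  rw [h]

lemma wK_congr {H H' : Sub} {k q : ℕ} (h : H q = H' q) : wK H k q = wK H' k q := by
  classical
  have e : ∀ m, Idx H k q m ↔ Idx H' k q m := fun m => idx_congr h m
  unfold wK nuK
  simp only [e]

lemma cntK_eq (H H0 : Sub) (k : ℕ → ℕ) (k0 : ℕ) (P : Finset ℕ)
    (hk : ∀ q ∈ P, k q = k0 ∧ H q = H0 q) (m : ℕ) :
    (cntK H0 k0 P m : ℝ) = ∑ q ∈ P, (famK H k).g q m + ∑ q ∈ P, wK H0 k0 q := by
  classical
  rw [← sum_add_distrib]
  unfold cntK
  rw [card_filter]
  push_cast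
  apply sum_congr rfl
  intro q hq
  change _ = ((if Idx H (k q) q m then (1 : ℝ) else 0) - wK H (k q) q) + wK H0 k0 q
  obtain ⟨h1, h2⟩ := hk q hq
  have e : Idx H k0 q m ↔ Idx H0 k0 q m := idx_congr h2 m
  rw [h1, wK_congr h2]
  simp only [e]
  ring

/-- the trivial subgroups -/
def triv : Sub := fun _ => ⊥

lemma idx_triv (k q m : ℕ) : Idx triv k q m ↔
    ∃ u : (ZMod q)ˣ, (u : ZMod q) = m ∧ (Subgroup.zpowers u).index ∣ k := by
  have h : ∀ u : (ZMod q)ˣ, triv q ⊔ Subgroup.zpowers u = Subgroup.zpowers u := fun u => by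
    change (⊥ : Subgroup (ZMod q)ˣ) ⊔ Subgroup.zpowers u = Subgroup.zpowers u
    exact bot_sup_eq _
  unfold Idx
  simp only [h]

lemma nuK_units (k q : ℕ) [Fact q.Prime] [DecidablePred fun u : (ZMod q)ˣ =>
    (Subgroup.zpowers u).index ∣ k] :
    nuK triv k q = #((univ : Finset (ZMod q)ˣ).filter (fun u => (Subgroup.zpowers u).index ∣ k)) := by
  classical
  unfold nuK
  simp only [idx_triv]
  symm
  apply Finset.card_bij (fun (u : (ZMod q)ˣ) _ => (u : ZMod q).val)
  · intro u hu
    rw [mem_filter] at hu ⊢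
    rw [mem_range]
    refine ⟨ZMod.val_lt _, u, ?_, hu.2⟩
    rw [ZMod.natCast_zmod_val]
  · intro a _ b _ h
    exact Units.ext (ZMod.val_injective q h)
  · intro j hj
    rw [mem_filter, mem_range] at hj
    obtain ⟨hj1, u, hu, hk⟩ := hj
    refine ⟨u, ?_, ?_⟩
    · rw [mem_filter]
      exact ⟨mem_univ _, hk⟩
    · rw [hu, ZMod.val_natCast_of_lt hj1]

lemma index_eq {q : ℕ} [Fact q.Prime] (u : (ZMod q)ˣ) :
    (Subgroup.zpowers u).index * orderOf u = q - 1 := by
  have h := (Subgroup.zpowers u).index_mul_card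
  rw [Nat.card_zpowers, Nat.card_eq_fintype_card, ZMod.card_units] at h
  exact h

/-- the number of the residues with index dividing `k` -/
theorem nuK_formula (k : ℕ) {q : ℕ} (hq : q.Prime) :
    nuK triv k q = ∑ d ∈ (q - 1).divisors.filter (fun d => d ∣ k), Nat.totient ((q - 1) / d) := by
  classical
  have : Fact q.Prime := ⟨hq⟩
  have hq1 : 0 < q - 1 := by have := hq.two_le; omega
  rw [nuK_units]
  rw [Finset.card_eq_sum_card_fiberwise (f := fun u : (ZMod q)ˣ => (Subgroup.zpowers u).index)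
    (t := (q - 1).divisors.filter (fun d => d ∣ k))]
  · apply sum_congr rfl
    intro d hd
    rw [mem_filter, Nat.mem_divisors] at hd
    obtain ⟨⟨hd1, _⟩, hd2⟩ := hd
    have hd0 : 0 < d := Nat.pos_of_dvd_of_pos hd1 hq1
    rw [filter_filter]
    have h1 : #((univ : Finset (ZMod q)ˣ).filter (fun v => orderOf v = (q - 1) / d)) =
        Nat.totient ((q - 1) / d) := by
      apply IsCyclic.card_orderOf_eq_totient
      rw [ZMod.card_units]
      exact Nat.div_dvd_of_dvd hd1
    rw [← h1]
    congr 1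
    ext u
    simp only [mem_filter, mem_univ, true_and]
    have h2 := index_eq u
    constructor
    · rintro ⟨_, h⟩
      rw [h] at h2
      rw [← h2, Nat.mul_div_cancel_left _ hd0]
    · intro h
      have h3 : (Subgroup.zpowers u).index = d := by
        rw [h] at h2
        obtain ⟨e, he⟩ := hd1
        have he0 : 0 < e := by
          rcases Nat.eq_zero_or_pos e with h | h
          · rw [h, mul_zero] at he; omega
          · exact h
        rw [he, Nat.mul_div_cancel_left _ hd0] at h2
        exact Nat.eq_of_mul_eq_mul_right he0 h2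
      exact ⟨h3 ▸ hd2, h3⟩
  · intro u hu
    simp only [coe_filter, mem_univ, true_and, Set.mem_ofPred_eq, Nat.mem_divisors] at hu ⊢
    have h2 := index_eq u
    exact ⟨⟨Dvd.intro _ h2, hq1.ne'⟩, hu⟩

lemma nuK_lower (k : ℕ) {q : ℕ} (hq : q.Prime) : Nat.totient (q - 1) ≤ nuK triv k q := by
  have hq1 : 0 < q - 1 := by have := hq.two_le; omega
  rw [nuK_formula k hq]
  have h1 : (1 : ℕ) ∈ (q - 1).divisors.filter (fun d => d ∣ k) := by
    rw [mem_filter, Nat.mem_divisors]
    exact ⟨⟨one_dvd _, hq1.ne'⟩, one_dvd _⟩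
  have h2 := single_le_sum (f := fun d => Nat.totient ((q - 1) / d)) (fun _ _ => Nat.zero_le _) h1
  simpa using h2

lemma nuK_upper (k : ℕ) {q l : ℕ} (hq : q.Prime) (hl : l.Prime) (hlk : ¬ l ∣ k) (hlq : l ∣ q - 1) :
    nuK triv k q + (q - 1) / l ≤ q - 1 := by
  classical
  have hq1 : 0 < q - 1 := by have := hq.two_le; omega
  obtain ⟨e, he⟩ := hlq
  have he0 : 0 < e := by
    rcases Nat.eq_zero_or_pos e with h | h
    · rw [h, mul_zero] at he; omega
    · exact h
  have hdiv : (q - 1) / l = e := by rw [he, Nat.mul_div_cancel_left _ hl.pos]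
  have htot : ∑ d ∈ (q - 1).divisors, Nat.totient ((q - 1) / d) = q - 1 := by
    rw [Nat.sum_div_divisors (q - 1) (fun d => Nat.totient d), Nat.sum_totient]
  have htot2 : ∑ d ∈ e.divisors, Nat.totient (e / d) = e := by
    rw [Nat.sum_div_divisors e (fun d => Nat.totient d), Nat.sum_totient]
  have h1 : e ≤ ∑ d ∈ (q - 1).divisors.filter (fun d => ¬ d ∣ k), Nat.totient ((q - 1) / d) := by
    calc e = ∑ d ∈ e.divisors, Nat.totient (e / d) := htot2.symm
      _ = ∑ d ∈ e.divisors.image (fun d => l * d), Nat.totient ((q - 1) / d) := by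
          rw [sum_image (fun a _ b _ h => Nat.eq_of_mul_eq_mul_left hl.pos h)]
          apply sum_congr rfl
          intro d _
          rw [he, Nat.mul_div_mul_left _ _ hl.pos]
      _ ≤ _ := by
          apply sum_le_sum_of_subset
          intro d hd
          rw [mem_image] at hd
          obtain ⟨d', hd', rfl⟩ := hd
          rw [Nat.mem_divisors] at hd'
          rw [mem_filter, Nat.mem_divisors]
          refine ⟨⟨?_, hq1.ne'⟩, fun h => hlk ((Dvd.intro _ rfl).trans h)⟩
          rw [he]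
          exact Nat.mul_dvd_mul_left l hd'.1
  rw [nuK_formula k hq, hdiv]
  have h2 := sum_filter_add_sum_filter_not (q - 1).divisors (fun d => d ∣ k)
    (fun d => Nat.totient ((q - 1) / d))
  rw [htot] at h2
  omega

/-- lower bound for the variance -/
theorem WK_lower (k : ℕ) {l : ℕ} (hl : l.Prime) (hlk : ¬ l ∣ k) (x : ℕ) (P : Finset ℕ)
    (hP : ∀ q ∈ P, q.Prime ∧ q ≤ x) :
    (#(P.filter (fun q => q % l = 1 % l)) : ℝ) / (2 * l * √(x : ℝ)) ≤ WK triv k P := by
  have hl0 : (0 : ℝ) < l := by exact_mod_cast hl.pos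
  have hl1 : (1 : ℝ) ≤ l := by exact_mod_cast hl.one_le
  unfold WK
  calc (#(P.filter (fun q => q % l = 1 % l)) : ℝ) / (2 * l * √(x : ℝ))
      = ∑ q ∈ P.filter (fun q => q % l = 1 % l), 1 / (2 * l * √(x : ℝ)) := by
        rw [sum_const, nsmul_eq_mul]; ring
    _ ≤ ∑ q ∈ P.filter (fun q => q % l = 1 % l), wK triv k q * (1 - wK triv k q) := by
        apply sum_le_sum
        intro q hq
        rw [mem_filter] at hq
        obtain ⟨hqP, hql⟩ := hq
        obtain ⟨hqp, hqx⟩ := hP q hqP
        have hlq : l ∣ q - 1 := (Pool.Agent.H730R2.AA.MTLib.mod_iff hqp.one_le).1 hql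
        have hq0 : (0 : ℝ) < q := by exact_mod_cast hqp.pos
        have hq2 : (2 : ℝ) ≤ q := by exact_mod_cast hqp.two_le
        have hx0 : (0 : ℝ) < x := lt_of_lt_of_le hq0 (by exact_mod_cast hqx)
        have hqx' : (q : ℝ) ≤ x := by exact_mod_cast hqx
        have hc : ((q - 1 : ℕ) : ℝ) = (q : ℝ) - 1 := by
          rw [Nat.cast_sub hqp.one_le]; simp
        -- lower bound
        have h1 : 1 / (2 * √(x : ℝ)) ≤ wK triv k q := by
          have h2 : (Nat.totient (q - 1) : ℝ) ≤ nuK triv k q := by exact_mod_cast nuK_lower k hqp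
          have h3 := (Pool.Agent.H730R2.AA.MTLib.tot_sq (q - 1)).1
          have h4 : (q : ℝ) - 1 ≤ 2 * (Nat.totient (q - 1) : ℝ) ^ 2 := by
            rw [← hc]
            exact_mod_cast h3
          have h5 : √(q : ℝ) ≤ 2 * (Nat.totient (q - 1) : ℝ) := by
            rw [show (2 * (Nat.totient (q - 1) : ℝ)) = √((2 * (Nat.totient (q - 1) : ℝ)) ^ 2) from
              (Real.sqrt_sq (by positivity)).symm]
            apply Real.sqrt_le_sqrt
            nlinarith
          have h6 : √(q : ℝ) ≤ √(x : ℝ) := Real.sqrt_le_sqrt hqx'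
          have h7 : 0 < √(q : ℝ) := Real.sqrt_pos.2 hq0
          unfold wK
          rw [div_le_div_iff₀ (by positivity) hq0, one_mul]
          calc (q : ℝ) = √(q : ℝ) * √(q : ℝ) := (Real.mul_self_sqrt hq0.le).symm
            _ ≤ (2 * (Nat.totient (q - 1) : ℝ)) * √(x : ℝ) := mul_le_mul h5 h6 h7.le (by positivity)
            _ = (Nat.totient (q - 1) : ℝ) * (2 * √(x : ℝ)) := by ring
            _ ≤ nuK triv k q * (2 * √(x : ℝ)) := by gcongr
        have h2 : 1 / (l : ℝ) ≤ 1 - wK triv k q := by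
          have h3 := nuK_upper k hqp hl hlk hlq
          obtain ⟨e, he⟩ := hlq
          have hdiv : (q - 1) / l = e := by rw [he, Nat.mul_div_cancel_left _ hl.pos]
          rw [hdiv] at h3
          have h4 : (nuK triv k q : ℝ) + e ≤ (q : ℝ) - 1 := by
            rw [← hc]
            exact_mod_cast h3
          have h5 : (q : ℝ) - 1 = l * e := by
            rw [← hc, he]; push_cast; ring
          have h6 : (nuK triv k q : ℝ) = q * wK triv k q := by
            unfold wK; field_simp
          rw [h6] at h4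
          have h7 : (e : ℝ) = ((q : ℝ) - 1) / l := by
            rw [h5]; field_simp
          rw [h7] at h4
          have h8 : (q : ℝ) * (1 / l) ≤ q * (1 - wK triv k q) := by
            have h9 : (q : ℝ) * (1 / l) = ((q : ℝ) - 1) / l + 1 / l := by ring
            have h10 : 1 / (l : ℝ) ≤ 1 := by
              rw [div_le_one hl0]; exact hl1
            linarith
          exact le_of_mul_le_mul_left h8 hq0
        calc 1 / (2 * l * √(x : ℝ)) = 1 / (2 * √(x : ℝ)) * (1 / l) := by
              field_simp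
          _ ≤ wK triv k q * (1 - wK triv k q) := mul_le_mul h1 h2 (by positivity) (wK_bd triv k q).1
    _ ≤ ∑ q ∈ P, wK triv k q * (1 - wK triv k q) := by
        apply sum_le_sum_of_subset_of_nonneg (filter_subset _ _)
        intro q _ _
        obtain ⟨h1, h2⟩ := wK_bd triv k q
        exact mul_nonneg h1 (by linarith)

open Classical in
theorem cltK {ι : Type} [Fintype ι] (H : ι → Sub) (k : ι → ℕ) (y : ℕ → ℕ)
    (hy : ∀ K : ℕ, ∀ᶠ x in atTop, x ^ K ≤ y x) (P : ℕ → ι → Finset ℕ)
    (hP : ∀ x i, ∀ q ∈ P x i, q.Prime ∧ q ≤ x) (hdis : ∀ x i j, i ≠ j → Disjoint (P x i) (P x j))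
    (hW : ∀ i, Tendsto (fun x : ℕ => WK (H i) (k i) (P x i)) atTop atTop) (t : ι → ℝ) :
    Tendsto (fun x : ℕ => (#((Icc 1 (y x)).filter (fun m => ∀ i,
      (cntK (H i) (k i) (P x i) m : ℝ) ≤ ∑ q ∈ P x i, wK (H i) (k i) q + t i * √(WK (H i) (k i) (P x i)))) : ℝ) / y x)
      atTop (𝓝 (∏ i, (ProbabilityTheory.gaussianReal 0 1).real (Set.Iic (t i)))) := by
  let kk : ℕ → ℕ → ℕ := fun x q => if h : ∃ i, q ∈ P x i then k h.choose else 1
  let HH : ℕ → Sub := fun x q => if h : ∃ i, q ∈ P x i then H h.choose q else ⊥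
  have hch : ∀ x i q (hex : ∃ i, q ∈ P x i), q ∈ P x i → hex.choose = i := by
    intro x i q hex hq
    by_contra hne
    exact Finset.disjoint_left.1 (hdis x _ _ hne) hex.choose_spec hq
  have hkk : ∀ x i q, q ∈ P x i → kk x q = k i ∧ HH x q = H i q := by
    intro x i q hq
    have hex : ∃ i, q ∈ P x i := ⟨i, hq⟩
    have h1 := hch x i q hex hq
    simp only [kk, HH, dif_pos hex, h1, and_self]
  have hva : ∀ x i, ∑ q ∈ P x i, (famK (HH x) (kk x)).va q = WK (H i) (k i) (P x i) := by
    intro x i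
    unfold WK
    exact sum_congr rfl fun q hq => by
      rw [va_famK _ _ (hP x i q hq).1, (hkk x i q hq).1, wK_congr (hkk x i q hq).2]
  have hV : ∀ i, Tendsto (fun x : ℕ => (∑ q ∈ P x i, (famK (HH x) (kk x)).va q) / WK (H i) (k i) (P x i)) atTop
      (𝓝 1) := by
    intro i
    refine tendsto_const_nhds.congr' ?_
    filter_upwards [(hW i).eventually_gt_atTop 0] with x hx
    rw [hva, div_self hx.ne']
  have key := gauss_law (fun x => famK (HH x) (kk x)) (fun x => x) y P hP hdis tendsto_id hy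
    (fun x i => WK (H i) (k i) (P x i)) hW hV (fun _ _ => 0) (fun i => by simp) t
  have hyr : Tendsto (fun x : ℕ => (y x : ℝ)) atTop atTop := by
    refine tendsto_atTop_mono' _ ?_ tendsto_natCast_atTop_atTop
    filter_upwards [hy 1] with x hx
    rw [pow_one] at hx
    exact_mod_cast hx
  have hdiff : Tendsto (fun x : ℕ => (#((Icc 1 (y x)).filter (fun m => ∀ i,
      (cntK (H i) (k i) (P x i) m : ℝ) ≤ ∑ q ∈ P x i, wK (H i) (k i) q + t i * √(WK (H i) (k i) (P x i)))) : ℝ) / y x -
      (#((range (y x)).filter (fun m => ∀ i, (∑ q ∈ P x i, (famK (HH x) (kk x)).g q m + 0) /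
        √(WK (H i) (k i) (P x i)) ≤ t i)) : ℝ) / y x) atTop (𝓝 0) := by
    have h1 : Tendsto (fun x : ℕ => (1 : ℝ) / y x) atTop (𝓝 0) := tendsto_const_nhds.div_atTop hyr
    refine squeeze_zero_norm' ?_ h1
    filter_upwards [eventually_all.2 (fun i => (hW i).eventually_gt_atTop 0)] with x hx
    rw [Real.norm_eq_abs, ← sub_div, abs_div, Nat.abs_cast]
    apply div_le_div_of_nonneg_right _ (Nat.cast_nonneg _)
    have heq : ∀ m, (∀ i, (∑ q ∈ P x i, (famK (HH x) (kk x)).g q m + 0) / √(WK (H i) (k i) (P x i)) ≤ t i) ↔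
        ∀ i, (cntK (H i) (k i) (P x i) m : ℝ) ≤ ∑ q ∈ P x i, wK (H i) (k i) q + t i * √(WK (H i) (k i) (P x i)) := by
      intro m
      apply forall_congr'
      intro i
      rw [div_le_iff₀ (Real.sqrt_pos.2 (hx i)), cntK_eq (HH x) (H i) (kk x) (k i) (P x i) (hkk x i)]
      constructor <;> intro h <;> linarith
    simp only [heq]
    set A := (Icc 1 (y x)).filter (fun m => ∀ i,
      (cntK (H i) (k i) (P x i) m : ℝ) ≤ ∑ q ∈ P x i, wK (H i) (k i) q + t i * √(WK (H i) (k i) (P x i))) with hA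
    set B := (range (y x)).filter (fun m => ∀ i,
      (cntK (H i) (k i) (P x i) m : ℝ) ≤ ∑ q ∈ P x i, wK (H i) (k i) q + t i * √(WK (H i) (k i) (P x i))) with hB
    have h2 : #A ≤ #B + 1 := by
      have : A ⊆ insert (y x) B := by
        intro m hm
        rw [hA, mem_filter, mem_Icc] at hm
        rw [mem_insert, hB, mem_filter, mem_range]
        by_cases h : m = y x
        · exact Or.inl h
        · exact Or.inr ⟨by omega, hm.2⟩
      exact (card_le_card this).trans (card_insert_le _ _)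
    have h3 : #B ≤ #A + 1 := by
      have : B ⊆ insert 0 A := by
        intro m hm
        rw [hB, mem_filter, mem_range] at hm
        rw [mem_insert, hA, mem_filter, mem_Icc]
        by_cases h : m = 0
        · exact Or.inl h
        · exact Or.inr ⟨by omega, hm.2⟩
      exact (card_le_card this).trans (card_insert_le _ _)
    have h2' : (#A : ℝ) ≤ #B + 1 := by exact_mod_cast h2
    have h3' : (#B : ℝ) ≤ #A + 1 := by exact_mod_cast h3
    rw [abs_le]
    constructor <;> linarith
  have h := hdiff.add key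
  rw [zero_add] at h
  refine h.congr fun x => ?_
  rw [sub_add_cancel]

end Pool.Agent.H735A
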