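import Mathlib
import Pool.Agent.H735A.Index
import Pool.Agent.H730R2.AA.MainTerm

set_option autoImplicit false

/-! # The mean value for the index -/

namespace Pool.Agent.H735A

open Finset Filter Topology

/-- number of the primes `q ≤ x`, `q ≡ 1 mod d` -/
def NN (d x : ℕ) : ℕ := #(((Icc 1 x).filter Nat.Prime).filter (fun q => d ∣ q - 1))

lemma NN_lim (d : ℕ) (hd : 1 ≤ d) :
    Tendsto (fun x : ℕ => (NN d x : ℝ) / (Nat.primeCounting x : ℝ)) atTop
      (𝓝 ((Nat.totient d : ℝ)⁻¹)) := by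
  classical
  have : NeZero d := ⟨by omega⟩
  refine (Pool.Agent.H730R2.AA.cls_tendsto d 1).congr fun x => ?_
  congr 2
  unfold NN Pool.Agent.H730R2.AA.clsP
  rw [filter_filter]
  congr 1
  apply filter_congr
  intro p hp
  rw [mem_Icc] at hp
  apply and_congr_right
  intro _
  rw [← Pool.Agent.H730R2.AA.MTLib.mod_iff hp.1, Units.val_one]
  constructor
  · intro h
    have h1 : ((p : ℕ) : ZMod d) = ((1 : ℕ) : ZMod d) := by rw [h, Nat.cast_one]
    exact (ZMod.natCast_eq_natCast_iff' p 1 d).1 h1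
  · intro h
    have h1 := (ZMod.natCast_eq_natCast_iff' p 1 d).2 h
    rw [h1, Nat.cast_one]

lemma NN_anti {d e x : ℕ} (h : d ∣ e) : NN e x ≤ NN d x := by
  unfold NN
  apply card_le_card
  intro q hq
  rw [mem_filter] at hq ⊢
  exact ⟨hq.1, h.trans hq.2⟩

lemma NN_le (d x : ℕ) : (NN d x : ℝ) ≤ Nat.primeCounting x := by
  have h1 : NN d x ≤ #((Icc 1 x).filter Nat.Prime) := card_filter_le _ _
  have h2 : #((Icc 1 x).filter Nat.Prime) = Nat.primeCounting x := by
    rw [Nat.primeCounting, Nat.primeCounting', Nat.count_eq_card_filter_range]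
    congr 1
    ext p
    rw [mem_filter, mem_filter, mem_Icc, mem_range]
    constructor
    · rintro ⟨h1, h2⟩
      exact ⟨by omega, h2⟩
    · rintro ⟨h1, h2⟩
      exact ⟨⟨h2.pos, by omega⟩, h2⟩
  rw [h2] at h1
  exact_mod_cast h1

lemma NN_odd {e : ℕ} (he : 1 < e) (hodd : ¬ 2 ∣ e) (x : ℕ) :
    (NN e x : ℝ) = Pool.Agent.H730R2.AA.Wd 5 e x := by
  unfold Pool.Agent.H730R2.AA.Wd NN
  simp only [if_neg hodd, add_zero]
  rw [sum_const, nsmul_eq_mul, mul_one]
  congr 2
  ext p
  rw [mem_filter, mem_filter, mem_filter, mem_Icc]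
  unfold Pool.Agent.H730R2.AA.PR
  rw [mem_filter, mem_range]
  constructor
  · rintro ⟨⟨h1, h2⟩, h3⟩
    have hp2 := h2.two_le
    have h4 := Nat.le_of_dvd (by omega) h3
    refine ⟨⟨by omega, h2, by omega, ?_⟩, (Pool.Agent.H730R2.AA.MTLib.mod_iff h2.one_le).2 h3⟩
    intro h5
    have h6 : p ∣ 5 := by exact_mod_cast h5
    have h7 : p = 5 := by
      rcases (Nat.dvd_prime Nat.prime_five).1 h6 with h | h
      · omega
      · exact h
    subst h7
    have h8 : e ∣ 4 := h3
    have h9 : e ≤ 4 := Nat.le_of_dvd (by norm_num) h8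
    interval_cases e
    · exact hodd (by norm_num)
    · revert h8; decide
    · exact hodd (by norm_num)
  · rintro ⟨⟨h1, h2, _, _⟩, h3⟩
    exact ⟨⟨⟨h2.pos, by omega⟩, h2⟩, (Pool.Agent.H730R2.AA.MTLib.mod_iff h2.one_le).1 h3⟩

lemma NN_bound : ∃ C : ℝ, 0 < C ∧ ∀ e x : ℕ, 1 ≤ e → Squarefree e → 2 ≤ x →
    (NN e x : ℝ) / (Nat.primeCounting x : ℝ) ≤ C * (e : ℝ) ^ (-(1 : ℝ) / 4) := by
  obtain ⟨C, hC, hb⟩ := Pool.Agent.H730R2.AA.Wd_bound 5
  refine ⟨2 * (C + 1), by positivity, fun e x he hsq hx => ?_⟩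
  have hpi : 0 < (Nat.primeCounting x : ℝ) := by
    have := Pool.Agent.H730R2.AA.pc_pos x hx
    exact_mod_cast this
  -- the odd part
  have hodd : ∀ f : ℕ, 1 ≤ f → ¬ 2 ∣ f →
      (NN f x : ℝ) / (Nat.primeCounting x : ℝ) ≤ (C + 1) * (f : ℝ) ^ (-(1 : ℝ) / 4) := by
    intro f hf hf2
    rcases eq_or_lt_of_le hf with h1 | h1
    · subst h1
      rw [Nat.cast_one, Real.one_rpow, mul_one, div_le_iff₀ hpi]
      nlinarith [NN_le 1 x]
    · have h2 := hb f x hf hx
      rw [← NN_odd h1 hf2, abs_of_nonneg (Nat.cast_nonneg _)] at h2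
      refine h2.trans ?_
      apply mul_le_mul_of_nonneg_right _ (by positivity)
      linarith
  by_cases h2 : 2 ∣ e
  · obtain ⟨f, rfl⟩ := h2
    have hf : 1 ≤ f := by omega
    have hf2 : ¬ 2 ∣ f := by
      intro h
      have h3 : 2 * 2 ∣ 2 * f := Nat.mul_dvd_mul_left 2 h
      have h4 := hsq 2 h3
      rw [Nat.isUnit_iff] at h4
      omega
    have h3 := hodd f hf hf2
    have h4 : (NN (2 * f) x : ℝ) ≤ NN f x := by exact_mod_cast NN_anti (Dvd.intro_left 2 rfl)
    have hf0 : (0 : ℝ) < f := by exact_mod_cast hf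
    have h5 : (f : ℝ) ^ (-(1 : ℝ) / 4) ≤ 2 * ((2 * f : ℕ) : ℝ) ^ (-(1 : ℝ) / 4) := by
      push_cast
      rw [Real.mul_rpow (by norm_num) hf0.le]
      have h6 : (1 : ℝ) / 2 ≤ (2 : ℝ) ^ (-(1 : ℝ) / 4) := by
        have h7 : (2 : ℝ) ^ (-1 : ℝ) ≤ (2 : ℝ) ^ (-(1 : ℝ) / 4) :=
          Real.rpow_le_rpow_of_exponent_le (by norm_num) (by norm_num)
        rw [Real.rpow_neg_one] at h7
        norm_num at h7 ⊢
        exact h7
      have h7 : 0 < (f : ℝ) ^ (-(1 : ℝ) / 4) := by positivity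
      nlinarith
    calc (NN (2 * f) x : ℝ) / (Nat.primeCounting x : ℝ) ≤ NN f x / (Nat.primeCounting x : ℝ) := by
          gcongr
      _ ≤ (C + 1) * (f : ℝ) ^ (-(1 : ℝ) / 4) := h3
      _ ≤ (C + 1) * (2 * ((2 * f : ℕ) : ℝ) ^ (-(1 : ℝ) / 4)) := by gcongr
      _ = _ := by ring
  · refine (hodd e he h2).trans ?_
    apply mul_le_mul_of_nonneg_right _ (by positivity)
    linarith

/-- the generic density: `∑_{d ∣ k} ∑_e μ(e) / (d e φ(d e))` -/
noncomputable def deltaK (k : ℕ) : ℝ :=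
  ∑ d ∈ k.divisors, ∑' e : ℕ, ((ArithmeticFunction.moebius e : ℤ) : ℝ) / ((d : ℝ) * e) *
    ((Nat.totient (d * e) : ℝ)⁻¹)

lemma nu_expand (k : ℕ) (hk : 1 ≤ k) {q x : ℕ} (hq : q.Prime) (hqx : q ≤ x) :
    (nuK triv k q : ℝ) / ((q : ℝ) - 1) = ∑ d ∈ k.divisors, ∑ e ∈ range (x + 1),
      (if d * e ∣ q - 1 then ((ArithmeticFunction.moebius e : ℤ) : ℝ) / ((d : ℝ) * e) else 0) := by
  have hq1 : 0 < q - 1 := by have := hq.two_le; omega
  have hc : ((q - 1 : ℕ) : ℝ) = (q : ℝ) - 1 := by
    rw [Nat.cast_sub hq.one_le]; simp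
  have hc0 : (0 : ℝ) < (q : ℝ) - 1 := by rw [← hc]; exact_mod_cast hq1
  rw [nuK_formula k hq]
  push_cast
  rw [sum_div]
  have h1 : ∀ d ∈ (q - 1).divisors.filter (fun d => d ∣ k),
      (Nat.totient ((q - 1) / d) : ℝ) / ((q : ℝ) - 1) = ∑ e ∈ range (x + 1),
        (if d * e ∣ q - 1 then ((ArithmeticFunction.moebius e : ℤ) : ℝ) / ((d : ℝ) * e) else 0) := by
    intro d hd
    rw [mem_filter, Nat.mem_divisors] at hd
    obtain ⟨⟨⟨n, hn⟩, _⟩, _⟩ := hd
    have hd0 : 0 < d := by
      rcases Nat.eq_zero_or_pos d with h | h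
      · rw [h, zero_mul] at hn; omega
      · exact h
    have hn0 : 0 < n := by
      rcases Nat.eq_zero_or_pos n with h | h
      · rw [h, mul_zero] at hn; omega
      · exact h
    have hd0' : (0 : ℝ) < d := by exact_mod_cast hd0
    have hn0' : (0 : ℝ) < n := by exact_mod_cast hn0
    have h2 := Pool.Agent.H730R2.AA.MTLib.tot_div n hn0
    have h3 : (q - 1) / d = n := by rw [hn, Nat.mul_div_cancel_left _ hd0]
    rw [h3, ← hc, hn]
    push_cast
    have h4 : (Nat.totient n : ℝ) / ((d : ℝ) * n) = (1 / d) * ((Nat.totient n : ℝ) / n) := by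
      field_simp
    rw [h4, h2, mul_sum, ← sum_filter]
    symm
    apply sum_congr_of_eq_on_inter
    · intro e he he'
      rw [mem_filter, mem_range] at he
      exfalso
      apply he'
      rw [Nat.mem_divisors]
      exact ⟨Nat.dvd_of_mul_dvd_mul_left hd0 he.2, hn0.ne'⟩
    · intro e he he'
      rw [Nat.mem_divisors] at he
      exfalso
      apply he'
      rw [mem_filter, mem_range]
      have h5 := Nat.le_of_dvd hn0 he.1
      have h6 : n ≤ q - 1 := by rw [hn]; exact Nat.le_mul_of_pos_left _ hd0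
      exact ⟨by omega, Nat.mul_dvd_mul_left d he.1⟩
    · intro e _ _
      have : ((d : ℝ) * e)⁻¹ = (d : ℝ)⁻¹ * (e : ℝ)⁻¹ := mul_inv _ _
      rw [div_eq_mul_inv, this, one_div, div_eq_mul_inv]
      ring
  rw [sum_congr rfl h1]
  apply sum_congr_of_eq_on_inter
  · intro d hd hd'
    rw [mem_filter] at hd
    exfalso
    apply hd'
    rw [Nat.mem_divisors]
    exact ⟨hd.2, by omega⟩
  · intro d hd hd'
    rw [Nat.mem_divisors] at hd
    apply sum_eq_zero
    intro e _
    rw [if_neg]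
    intro h
    apply hd'
    rw [mem_filter, Nat.mem_divisors]
    exact ⟨⟨(Dvd.intro _ rfl).trans h, hq1.ne'⟩, hd.1⟩
  · intro _ _ _
    rfl

lemma mean_diff (k : ℕ) : Tendsto (fun x : ℕ => (∑ q ∈ (Icc 1 x).filter Nat.Prime, wK triv k q -
    ∑ q ∈ (Icc 1 x).filter Nat.Prime, (nuK triv k q : ℝ) / ((q : ℝ) - 1)) /
      (Nat.primeCounting x : ℝ)) atTop (𝓝 0) := by
  have h1 : Tendsto (fun x : ℕ => 320 / (x : ℝ) ^ ((1 : ℝ) / 2)) atTop (𝓝 0) :=
    tendsto_const_nhds.div_atTop
      ((tendsto_rpow_atTop (by norm_num)).comp tendsto_natCast_atTop_atTop)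
  refine squeeze_zero_norm' ?_ h1
  filter_upwards [eventually_ge_atTop 3] with x hx
  have hx3 : (3 : ℝ) ≤ x := by exact_mod_cast hx
  have hx0 : (0 : ℝ) < x := by linarith
  have hlog1 : 1 ≤ Real.log x := by
    rw [Real.le_log_iff_exp_le hx0]
    have := Real.exp_one_lt_d9
    linarith
  have h2 : |∑ q ∈ (Icc 1 x).filter Nat.Prime, wK triv k q -
      ∑ q ∈ (Icc 1 x).filter Nat.Prime, (nuK triv k q : ℝ) / ((q : ℝ) - 1)| ≤
      1 + Real.log x := by
    rw [← sum_sub_distrib]
    refine (abs_sum_le_sum_abs _ _).trans ?_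
    calc ∑ q ∈ (Icc 1 x).filter Nat.Prime, |wK triv k q - (nuK triv k q : ℝ) / ((q : ℝ) - 1)|
        ≤ ∑ q ∈ (Icc 1 x).filter Nat.Prime, (q : ℝ)⁻¹ := by
          apply sum_le_sum
          intro q hq
          rw [mem_filter, mem_Icc] at hq
          have hq2 : (2 : ℝ) ≤ q := by exact_mod_cast hq.2.two_le
          have hq0 : (0 : ℝ) < q := by linarith
          have hq1 : (0 : ℝ) < (q : ℝ) - 1 := by linarith
          have h3 : (nuK triv k q : ℝ) ≤ (q : ℝ) - 1 := by
            have h4 := nuK_formula k hq.2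
            have h5 : ∑ d ∈ (q - 1).divisors.filter (fun d => d ∣ k), Nat.totient ((q - 1) / d) ≤
                ∑ d ∈ (q - 1).divisors, Nat.totient ((q - 1) / d) :=
              sum_le_sum_of_subset (filter_subset _ _)
            rw [Nat.sum_div_divisors (q - 1) (fun d => Nat.totient d), Nat.sum_totient, ← h4] at h5
            have h6 : ((q - 1 : ℕ) : ℝ) = (q : ℝ) - 1 := by
              rw [Nat.cast_sub hq.2.one_le]; simp
            rw [← h6]
            exact_mod_cast h5
          unfold wK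
          have h7 : (nuK triv k q : ℝ) / q - (nuK triv k q : ℝ) / ((q : ℝ) - 1) =
              -((nuK triv k q : ℝ) / ((q : ℝ) - 1) * (q : ℝ)⁻¹) := by
            field_simp
            ring
          rw [h7, abs_neg, abs_of_nonneg (by positivity)]
          calc (nuK triv k q : ℝ) / ((q : ℝ) - 1) * (q : ℝ)⁻¹ ≤ 1 * (q : ℝ)⁻¹ := by
                apply mul_le_mul_of_nonneg_right _ (by positivity)
                exact (div_le_one hq1).2 h3
            _ = (q : ℝ)⁻¹ := one_mul _
      _ ≤ ∑ q ∈ Icc 1 x, (q : ℝ)⁻¹ := by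
          apply sum_le_sum_of_subset_of_nonneg (filter_subset _ _)
          intro q _ _
          positivity
      _ = ((harmonic x : ℚ) : ℝ) := by
          rw [harmonic_eq_sum_Icc]
          push_cast
          rfl
      _ ≤ 1 + Real.log x := harmonic_le_one_add_log x
  have h3 := Pool.Agent.H730R2.AA.MTLib.pi_lower x (by omega)
  have hpi0 : 0 < (x : ℝ) / (10 * Real.log x) := by positivity
  have h4 : Real.log x ≤ (x : ℝ) ^ ((1 : ℝ) / 4) / (1 / 4) :=
    Real.log_le_rpow_div hx0.le (by norm_num)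
  set u := (x : ℝ) ^ ((1 : ℝ) / 4) with hu
  have hu0 : 0 < u := by positivity
  have hu1 : 1 ≤ u := Real.one_le_rpow (by linarith) (by norm_num)
  have hx4 : (x : ℝ) = u ^ 4 := by
    rw [hu, ← Real.rpow_natCast, ← Real.rpow_mul hx0.le]
    norm_num
  have hx2 : (x : ℝ) ^ ((1 : ℝ) / 2) = u ^ 2 := by
    rw [hu, ← Real.rpow_natCast, ← Real.rpow_mul hx0.le]
    norm_num
  have h5 : Real.log x ≤ 4 * u := by linarith
  rw [Real.norm_eq_abs, abs_div, Nat.abs_cast, hx2]
  calc |∑ q ∈ (Icc 1 x).filter Nat.Prime, wK triv k q -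
      ∑ q ∈ (Icc 1 x).filter Nat.Prime, (nuK triv k q : ℝ) / ((q : ℝ) - 1)| /
        (Nat.primeCounting x : ℝ) ≤ (1 + Real.log x) / (x / (10 * Real.log x)) :=
        div_le_div₀ (by positivity) h2 hpi0 h3
    _ = 10 * (1 + Real.log x) * Real.log x / u ^ 4 := by
        rw [hx4]; field_simp
    _ ≤ 160 * 2 * u ^ 2 / u ^ 4 := by
        apply div_le_div_of_nonneg_right _ (by positivity)
        have h6 : 10 * (1 + Real.log x) * Real.log x ≤ 20 * (Real.log x) ^ 2 := by nlinarith
        have h7 : (Real.log x) ^ 2 ≤ (4 * u) ^ 2 := pow_le_pow_left₀ (by linarith) h5 2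
        nlinarith
    _ = 320 / u ^ 2 := by
        field_simp
        norm_num

theorem mean_lim (k : ℕ) (hk : 1 ≤ k) :
    Tendsto (fun x : ℕ => (∑ q ∈ (Icc 1 x).filter Nat.Prime, wK triv k q) /
      (Nat.primeCounting x : ℝ)) atTop (𝓝 (deltaK k)) := by
  obtain ⟨C, hC, hb⟩ := NN_bound
  -- first the sum with `q - 1`
  have hmain : Tendsto (fun x : ℕ => (∑ q ∈ (Icc 1 x).filter Nat.Prime,
      (nuK triv k q : ℝ) / ((q : ℝ) - 1)) / (Nat.primeCounting x : ℝ)) atTop (𝓝 (deltaK k)) := by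
    have h1 : ∀ x : ℕ, (∑ q ∈ (Icc 1 x).filter Nat.Prime,
        (nuK triv k q : ℝ) / ((q : ℝ) - 1)) / (Nat.primeCounting x : ℝ) =
        ∑ d ∈ k.divisors, ∑' e : ℕ, ((ArithmeticFunction.moebius e : ℤ) : ℝ) / ((d : ℝ) * e) *
          ((NN (d * e) x : ℝ) / (Nat.primeCounting x : ℝ)) := by
      intro x
      have h2 : ∀ q ∈ (Icc 1 x).filter Nat.Prime, (nuK triv k q : ℝ) / ((q : ℝ) - 1) =
          ∑ d ∈ k.divisors, ∑ e ∈ range (x + 1), (if d * e ∣ q - 1 then
            ((ArithmeticFunction.moebius e : ℤ) : ℝ) / ((d : ℝ) * e) else 0) := by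
        intro q hq
        rw [mem_filter, mem_Icc] at hq
        exact nu_expand k hk hq.2 hq.1.2
      rw [sum_congr rfl h2, sum_comm, sum_div]
      apply sum_congr rfl
      intro d hd
      rw [Nat.mem_divisors] at hd
      have hd0 : 0 < d := Nat.pos_of_dvd_of_pos hd.1 hk
      rw [sum_comm, tsum_eq_sum (s := range (x + 1)) (by
        intro e he
        rw [mem_range, not_lt] at he
        have h3 : NN (d * e) x = 0 := by
          unfold NN
          rw [card_eq_zero, filter_eq_empty_iff]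
          intro q hq h4
          rw [mem_filter, mem_Icc] at hq
          have h5 := hq.2.two_le
          have h6 := Nat.le_of_dvd (by omega) h4
          have h7 : e ≤ d * e := Nat.le_mul_of_pos_left _ hd0
          omega
        rw [h3, Nat.cast_zero, zero_div, mul_zero]), sum_div]
      apply sum_congr rfl
      intro e _
      rw [← sum_filter, sum_const, nsmul_eq_mul]
      unfold NN
      ring
    simp_rw [h1]
    unfold deltaK
    apply tendsto_finsetSum
    intro d hd
    rw [Nat.mem_divisors] at hd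
    have hd0 : 0 < d := Nat.pos_of_dvd_of_pos hd.1 hk
    have hd1 : (1 : ℝ) ≤ d := by exact_mod_cast hd0
    apply tendsto_tsum_of_dominated_convergence
      (bound := fun e : ℕ => C * (e : ℝ) ^ (-(5 : ℝ) / 4))
    · apply Summable.mul_left
      rw [Real.summable_nat_rpow]
      norm_num
    · intro e
      rcases Nat.eq_zero_or_pos e with rfl | he
      · simp
      · exact (NN_lim (d * e) (Nat.mul_pos hd0 he)).const_mul _
    · filter_upwards [eventually_ge_atTop 2] with x hx e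
      rcases Nat.eq_zero_or_pos e with rfl | he
      · simp
      · have he0 : (0 : ℝ) < e := by exact_mod_cast he
        by_cases hsq : Squarefree e
        · have h3 := hb e x he hsq hx
          have h4 : (NN (d * e) x : ℝ) / (Nat.primeCounting x : ℝ) ≤
              NN e x / (Nat.primeCounting x : ℝ) := by
            apply div_le_div_of_nonneg_right _ (Nat.cast_nonneg _)
            exact_mod_cast NN_anti (Dvd.intro_left d rfl)
          have hmu : |((ArithmeticFunction.moebius e : ℤ) : ℝ)| ≤ 1 := by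
            have := ArithmeticFunction.abs_moebius_le_one (n := e)
            exact_mod_cast this
          have hnn : (0 : ℝ) ≤ (NN (d * e) x : ℝ) / (Nat.primeCounting x : ℝ) := by positivity
          rw [Real.norm_eq_abs, abs_mul, abs_div, abs_of_nonneg hnn,
            abs_of_pos (show (0 : ℝ) < (d : ℝ) * e by positivity)]
          calc |((ArithmeticFunction.moebius e : ℤ) : ℝ)| / ((d : ℝ) * e) *
                ((NN (d * e) x : ℝ) / (Nat.primeCounting x : ℝ))
              ≤ 1 / (1 * e) * (C * (e : ℝ) ^ (-(1 : ℝ) / 4)) := by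
                apply mul_le_mul _ (h4.trans h3) hnn (by positivity)
                gcongr
            _ = C * (e : ℝ) ^ (-(5 : ℝ) / 4) := by
                have : (e : ℝ) ^ (-(5 : ℝ) / 4) = (e : ℝ) ^ (-(1 : ℝ) / 4) * (e : ℝ) ^ (-1 : ℝ) := by
                  rw [← Real.rpow_add he0]
                  norm_num
                rw [this, Real.rpow_neg_one]
                field_simp
        · rw [ArithmeticFunction.moebius_eq_zero_of_not_squarefree hsq]
          simp
          positivity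
  have hdiff := mean_diff k
  have h := hdiff.add hmain
  rw [zero_add] at h
  refine h.congr fun x => ?_
  rw [← add_div, sub_add_cancel]

end Pool.Agent.H735A
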