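import Mathlib
import Pool.Agent.H735A.Mean

set_option autoImplicit false

/-! # The mean value in Lenstra's form -/

namespace Pool.Agent.H735A

open Finset Filter Topology

/-- `q(n) = ∏_{l ∣ n} l ^ (v_l(k) + 1)` -/
def qq (k n : ℕ) : ℕ := ∏ l ∈ n.primeFactors, l ^ (k.factorization l + 1)

lemma qq_pos (k n : ℕ) : 0 < qq k n :=
  Finset.prod_pos fun _ hl => pow_pos (Nat.prime_of_mem_primeFactors hl).pos _

/-- the primes `l` with `v_l(I) > v_l(k)` -/
def bigP (k I : ℕ) : Finset ℕ := I.primeFactors.filter (fun l => k.factorization l < I.factorization l)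

lemma qq_dvd_iff (k : ℕ) {n I : ℕ} (hI : I ≠ 0) (hn : Squarefree n) :
    qq k n ∣ I ↔ n ∣ ∏ l ∈ bigP k I, l := by
  have hb : ∀ l ∈ bigP k I, l.Prime := fun l hl => by
    unfold bigP at hl
    rw [mem_filter] at hl
    exact Nat.prime_of_mem_primeFactors hl.1
  have h1 : qq k n ∣ I ↔ n.primeFactors ⊆ bigP k I := by
    constructor
    · intro h l hl
      have hlp := Nat.prime_of_mem_primeFactors hl
      have h2 : l ^ (k.factorization l + 1) ∣ I :=
        (Finset.dvd_prod_of_mem (fun l => l ^ (k.factorization l + 1)) hl).trans h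
      have h3 := (hlp.pow_dvd_iff_le_factorization hI).1 h2
      unfold bigP
      rw [mem_filter, Nat.mem_primeFactors]
      exact ⟨⟨hlp, (dvd_pow_self l (by omega)).trans h2, hI⟩, by omega⟩
    · intro h
      unfold qq
      apply Finset.prod_dvd_of_isRelPrime
      · intro l hl m hm hne
        change IsRelPrime (l ^ (k.factorization l + 1)) (m ^ (k.factorization m + 1))
        rw [← Nat.coprime_iff_isRelPrime]
        apply Nat.Coprime.pow
        exact (Nat.coprime_primes (Nat.prime_of_mem_primeFactors hl)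
            (Nat.prime_of_mem_primeFactors hm)).2 hne
      · intro l hl
        have h2 := h hl
        unfold bigP at h2
        rw [mem_filter] at h2
        exact ((Nat.prime_of_mem_primeFactors hl).pow_dvd_iff_le_factorization hI).2 (by omega)
  rw [h1]
  have h2 : n = ∏ l ∈ n.primeFactors, l := (Nat.prod_primeFactors_of_squarefree hn).symm
  constructor
  · intro h
    rw [h2]
    exact Finset.prod_dvd_prod_of_subset _ _ _ h
  · intro h l hl
    have hlp := Nat.prime_of_mem_primeFactors hl
    have h3 : l ∣ ∏ l ∈ bigP k I, l := (Nat.dvd_of_mem_primeFactors hl).trans h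
    obtain ⟨m, hm, hlm⟩ := (hlp.prime.dvd_finsetProd_iff _).1 h3
    rw [(Nat.prime_dvd_prime_iff_eq hlp (hb m hm)).1 hlm]
    exact hm

lemma bigP_empty {k I : ℕ} (hk : k ≠ 0) (hI : I ≠ 0) : bigP k I = ∅ ↔ I ∣ k := by
  rw [← Nat.factorization_le_iff_dvd hI hk]
  unfold bigP
  rw [filter_eq_empty_iff]
  constructor
  · intro h l
    by_cases hl : l ∈ I.primeFactors
    · exact not_lt.1 (h hl)
    · rw [← Nat.support_factorization, Finsupp.notMem_support_iff] at hl
      rw [hl]
      exact Nat.zero_le _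
  · intro h l _
    exact not_lt.2 (h l)

/-- Möbius sum -/
lemma mob_sum {k I X : ℕ} (hk : k ≠ 0) (hI : I ≠ 0) (hX : I ≤ X) :
    ∑ n ∈ (range (X + 1)).filter (fun n => qq k n ∣ I), (ArithmeticFunction.moebius n : ℤ) =
      if I ∣ k then 1 else 0 := by
  classical
  set R := ∏ l ∈ bigP k I, l with hR
  have hb : ∀ l ∈ bigP k I, l.Prime := fun l hl => by
    unfold bigP at hl
    rw [mem_filter] at hl
    exact Nat.prime_of_mem_primeFactors hl.1
  have hR0 : 0 < R := Finset.prod_pos fun l hl => (hb l hl).pos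
  have hRI : R ∣ I := by
    have h1 : R ∣ ∏ l ∈ I.primeFactors, l :=
      Finset.prod_dvd_prod_of_subset _ _ _ (filter_subset _ _)
    exact h1.trans (Nat.prod_primeFactors_dvd I)
  have hRX : R ≤ X := (Nat.le_of_dvd (Nat.pos_of_ne_zero hI) hRI).trans hX
  have h1 : ∑ n ∈ (range (X + 1)).filter (fun n => qq k n ∣ I), (ArithmeticFunction.moebius n : ℤ) =
      ∑ n ∈ R.divisors, (ArithmeticFunction.moebius n : ℤ) := by
    apply sum_congr_of_eq_on_inter
    · intro n hn hn'
      rw [mem_filter] at hn
      by_cases hsq : Squarefree n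
      · exfalso
        apply hn'
        rw [Nat.mem_divisors]
        exact ⟨(qq_dvd_iff k hI hsq).1 hn.2, hR0.ne'⟩
      · exact ArithmeticFunction.moebius_eq_zero_of_not_squarefree hsq
    · intro n hn hn'
      rw [Nat.mem_divisors] at hn
      by_cases hsq : Squarefree n
      · exfalso
        apply hn'
        rw [mem_filter, mem_range]
        have := Nat.le_of_dvd hR0 hn.1
        exact ⟨by omega, (qq_dvd_iff k hI hsq).2 hn.1⟩
      · exact ArithmeticFunction.moebius_eq_zero_of_not_squarefree hsq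
    · intro _ _ _
      rfl
  rw [h1]
  have h2 : ∑ n ∈ R.divisors, (ArithmeticFunction.moebius n : ℤ) = if R = 1 then 1 else 0 := by
    have h3 := congrArg (fun f => f R) ArithmeticFunction.moebius_mul_coe_zeta
    simp only [ArithmeticFunction.coe_mul_zeta_apply, ArithmeticFunction.one_apply] at h3
    exact h3
  rw [h2]
  have h4 : R = 1 ↔ I ∣ k := by
    rw [← bigP_empty hk hI]
    constructor
    · intro h
      by_contra hne
      obtain ⟨l, hl⟩ := Finset.nonempty_of_ne_empty hne
      have h5 : l ∣ R := Finset.dvd_prod_of_mem (fun l => l) hl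
      rw [h] at h5
      exact (hb l hl).one_lt.ne' (Nat.dvd_one.1 h5)
    · intro h
      rw [hR, h, prod_empty]
  simp only [h4]

lemma tot_mult {N Q : ℕ} (hN : 0 < N) (hQ : 0 < Q) :
    ∑ d ∈ N.divisors.filter (fun d => Q ∣ d), (Nat.totient (N / d) : ℝ) =
      if Q ∣ N then (N : ℝ) / Q else 0 := by
  classical
  split_ifs with h
  · obtain ⟨e, he⟩ := h
    have he0 : 0 < e := by
      rcases Nat.eq_zero_or_pos e with h | h
      · rw [h, mul_zero] at he; omega
      · exact h
    have hQ0 : (0 : ℝ) < Q := by exact_mod_cast hQ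
    have h1 : N.divisors.filter (fun d => Q ∣ d) = e.divisors.image (fun d => Q * d) := by
      ext d
      rw [mem_filter, mem_image, Nat.mem_divisors]
      constructor
      · rintro ⟨⟨h1, _⟩, c, rfl⟩
        refine ⟨c, ?_, rfl⟩
        rw [Nat.mem_divisors]
        rw [he] at h1
        exact ⟨Nat.dvd_of_mul_dvd_mul_left hQ h1, he0.ne'⟩
      · rintro ⟨c, hc, rfl⟩
        rw [Nat.mem_divisors] at hc
        refine ⟨⟨?_, hN.ne'⟩, Dvd.intro _ rfl⟩
        rw [he]
        exact Nat.mul_dvd_mul_left Q hc.1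
    rw [h1, sum_image (fun a _ b _ h => Nat.eq_of_mul_eq_mul_left hQ h)]
    have h2 : ∀ d ∈ e.divisors, (Nat.totient (N / (Q * d)) : ℝ) = (Nat.totient (e / d) : ℝ) := by
      intro d _
      rw [he, Nat.mul_div_mul_left _ _ hQ]
    rw [sum_congr rfl h2]
    have h3 : ∑ d ∈ e.divisors, Nat.totient (e / d) = e := by
      rw [Nat.sum_div_divisors e (fun d => Nat.totient d), Nat.sum_totient]
    have h4 : ∑ d ∈ e.divisors, (Nat.totient (e / d) : ℝ) = e := by exact_mod_cast h3
    rw [h4, he]
    push_cast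
    field_simp
  · apply sum_eq_zero
    intro d hd
    rw [mem_filter, Nat.mem_divisors] at hd
    exact absurd (hd.2.trans hd.1.1) h

lemma nu_lens (k : ℕ) (hk : 1 ≤ k) {q x : ℕ} (hq : q.Prime) (hqx : q ≤ x) :
    (nuK triv k q : ℝ) / ((q : ℝ) - 1) = ∑ n ∈ range (x + 1),
      (if qq k n ∣ q - 1 then ((ArithmeticFunction.moebius n : ℤ) : ℝ) / (qq k n : ℝ) else 0) := by
  classical
  have hq1 : 0 < q - 1 := by have := hq.two_le; omega
  have hc : ((q - 1 : ℕ) : ℝ) = (q : ℝ) - 1 := by
    rw [Nat.cast_sub hq.one_le]; simp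
  have hc0 : (0 : ℝ) < ((q - 1 : ℕ) : ℝ) := by exact_mod_cast hq1
  rw [← hc]
  set N := q - 1 with hN
  have h1 : (nuK triv k q : ℝ) = ∑ d ∈ N.divisors, (Nat.totient (N / d) : ℝ) *
      (if d ∣ k then 1 else 0) := by
    rw [nuK_formula k hq, ← hN]
    push_cast
    rw [sum_filter]
    apply sum_congr rfl
    intro d _
    split_ifs <;> simp
  have h2 : ∀ d ∈ N.divisors, (Nat.totient (N / d) : ℝ) * (if d ∣ k then 1 else 0) =
      ∑ n ∈ range (x + 1), (if qq k n ∣ d then ((ArithmeticFunction.moebius n : ℤ) : ℝ) *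
        (Nat.totient (N / d) : ℝ) else 0) := by
    intro d hd
    rw [Nat.mem_divisors] at hd
    have hd0 : d ≠ 0 := by
      rintro rfl
      exact hd.2 (Nat.eq_zero_of_zero_dvd hd.1)
    have hdx : d ≤ x := by
      have := Nat.le_of_dvd hq1 hd.1
      omega
    have h3 := mob_sum (k := k) (by omega) hd0 hdx
    have h4 : (∑ n ∈ (range (x + 1)).filter (fun n => qq k n ∣ d),
        ((ArithmeticFunction.moebius n : ℤ) : ℝ)) = if d ∣ k then 1 else 0 := by
      exact_mod_cast congrArg (fun z : ℤ => (z : ℝ)) h3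
    rw [← h4, ← sum_filter, mul_comm, sum_mul]
  rw [h1, sum_congr rfl h2, sum_comm, sum_div]
  apply sum_congr rfl
  intro n _
  rw [← sum_filter, ← mul_sum, tot_mult hq1 (qq_pos k n)]
  split_ifs
  · field_simp
  · simp

/-- Lenstra's series for `F = ℚ` and a group `⟨m⟩` for which all the degrees are `q(n) φ(q(n))` -/
noncomputable def deltaL (k : ℕ) : ℝ :=
  ∑' n : ℕ, ((ArithmeticFunction.moebius n : ℤ) : ℝ) / (qq k n : ℝ) *
    ((Nat.totient (qq k n) : ℝ)⁻¹)

lemma dvd_qq (k : ℕ) {n : ℕ} (hn : Squarefree n) : n ∣ qq k n := by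
  conv_lhs => rw [← Nat.prod_primeFactors_of_squarefree hn]
  unfold qq
  exact Finset.prod_dvd_prod_of_dvd _ _ fun l _ => dvd_pow_self l (by omega)

theorem mean_lens (k : ℕ) (hk : 1 ≤ k) :
    Tendsto (fun x : ℕ => (∑ q ∈ (Icc 1 x).filter Nat.Prime, wK triv k q) /
      (Nat.primeCounting x : ℝ)) atTop (𝓝 (deltaL k)) := by
  obtain ⟨C, hC, hb⟩ := NN_bound
  have hmain : Tendsto (fun x : ℕ => (∑ q ∈ (Icc 1 x).filter Nat.Prime,
      (nuK triv k q : ℝ) / ((q : ℝ) - 1)) / (Nat.primeCounting x : ℝ)) atTop (𝓝 (deltaL k)) := by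
    have h1 : ∀ x : ℕ, (∑ q ∈ (Icc 1 x).filter Nat.Prime,
        (nuK triv k q : ℝ) / ((q : ℝ) - 1)) / (Nat.primeCounting x : ℝ) =
        ∑' n : ℕ, ((ArithmeticFunction.moebius n : ℤ) : ℝ) / (qq k n : ℝ) *
          ((NN (qq k n) x : ℝ) / (Nat.primeCounting x : ℝ)) := by
      intro x
      have h2 : ∀ q ∈ (Icc 1 x).filter Nat.Prime, (nuK triv k q : ℝ) / ((q : ℝ) - 1) =
          ∑ n ∈ range (x + 1), (if qq k n ∣ q - 1 then
            ((ArithmeticFunction.moebius n : ℤ) : ℝ) / (qq k n : ℝ) else 0) := by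
        intro q hq
        rw [mem_filter, mem_Icc] at hq
        exact nu_lens k hk hq.2 hq.1.2
      rw [sum_congr rfl h2, sum_comm, tsum_eq_sum (s := range (x + 1)) (by
        intro n hn
        rw [mem_range, not_lt] at hn
        by_cases hsq : Squarefree n
        · have h3 : NN (qq k n) x = 0 := by
            unfold NN
            rw [card_eq_zero, filter_eq_empty_iff]
            intro q hq h4
            rw [mem_filter, mem_Icc] at hq
            have h5 := hq.2.two_le
            have h6 := Nat.le_of_dvd (by omega) ((dvd_qq k hsq).trans h4)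
            omega
          rw [h3, Nat.cast_zero, zero_div, mul_zero]
        · rw [ArithmeticFunction.moebius_eq_zero_of_not_squarefree hsq]
          simp), sum_div]
      apply sum_congr rfl
      intro n _
      rw [← sum_filter, sum_const, nsmul_eq_mul]
      unfold NN
      ring
    simp_rw [h1]
    unfold deltaL
    apply tendsto_tsum_of_dominated_convergence
      (bound := fun n : ℕ => C * (n : ℝ) ^ (-(5 : ℝ) / 4))
    · apply Summable.mul_left
      rw [Real.summable_nat_rpow]
      norm_num
    · intro n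
      exact (NN_lim (qq k n) (qq_pos k n)).const_mul _
    · filter_upwards [eventually_ge_atTop 2] with x hx n
      rcases Nat.eq_zero_or_pos n with rfl | he
      · simp
      · have he0 : (0 : ℝ) < n := by exact_mod_cast he
        by_cases hsq : Squarefree n
        · have h3 := hb n x he hsq hx
          have h4 : (NN (qq k n) x : ℝ) / (Nat.primeCounting x : ℝ) ≤
              NN n x / (Nat.primeCounting x : ℝ) := by
            apply div_le_div_of_nonneg_right _ (Nat.cast_nonneg _)
            exact_mod_cast NN_anti (dvd_qq k hsq)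
          have hmu : |((ArithmeticFunction.moebius n : ℤ) : ℝ)| ≤ 1 := by
            have := ArithmeticFunction.abs_moebius_le_one (n := n)
            exact_mod_cast this
          have hnn : (0 : ℝ) ≤ (NN (qq k n) x : ℝ) / (Nat.primeCounting x : ℝ) := by positivity
          have hqn : (n : ℝ) ≤ qq k n := by
            exact_mod_cast Nat.le_of_dvd (qq_pos k n) (dvd_qq k hsq)
          rw [Real.norm_eq_abs, abs_mul, abs_div, abs_of_nonneg hnn, Nat.abs_cast]
          calc |((ArithmeticFunction.moebius n : ℤ) : ℝ)| / (qq k n : ℝ) *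
                ((NN (qq k n) x : ℝ) / (Nat.primeCounting x : ℝ))
              ≤ 1 / n * (C * (n : ℝ) ^ (-(1 : ℝ) / 4)) := by
                apply mul_le_mul _ (h4.trans h3) hnn (by positivity)
                exact div_le_div₀ (by norm_num) hmu he0 hqn
            _ = C * (n : ℝ) ^ (-(5 : ℝ) / 4) := by
                have : (n : ℝ) ^ (-(5 : ℝ) / 4) = (n : ℝ) ^ (-(1 : ℝ) / 4) * (n : ℝ) ^ (-1 : ℝ) := by
                  rw [← Real.rpow_add he0]
                  norm_num
                rw [this, Real.rpow_neg_one]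
                field_simp
        · rw [ArithmeticFunction.moebius_eq_zero_of_not_squarefree hsq]
          simp
          positivity
  have h := (mean_diff k).add hmain
  rw [zero_add] at h
  refine h.congr fun x => ?_
  rw [← add_div, sub_add_cancel]

end Pool.Agent.H735A
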