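import Mathlib
import Pool.Agent.H735A.Mean
import Pool.Agent.H735A.Clt

set_option autoImplicit false

/-! # The order of the variance for the index -/

namespace Pool.Agent.H735A

open Finset Filter Topology
open Pool.Agent.H730R2.AA (Wd om PR Wd_lim Wd_bound)

lemma wK_lower (k : ℕ) {q : ℕ} (hq : q.Prime) : 1 / 2 * Real.exp (-Sp q) ≤ wK triv k q := by
  have hpp : (2 : ℝ) ≤ q := by exact_mod_cast hq.two_le
  have h1 := tot_lower (q - 1)
  have h4 : ((q - 1 : ℕ) : ℝ) = (q : ℝ) - 1 := by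
    rw [Nat.cast_sub hq.one_le]; simp
  rw [h4] at h1
  have h6 : (0 : ℝ) < Real.exp (-Sp q) := Real.exp_pos _
  have h7 : (Nat.totient (q - 1) : ℝ) ≤ nuK triv k q := by exact_mod_cast nuK_lower k hq
  unfold wK
  rw [le_div_iff₀ (by linarith)]
  refine le_trans ?_ (h1.trans h7)
  change _ ≤ ((q : ℝ) - 1) * Real.exp (-Sp q)
  nlinarith

lemma wK_upper (k : ℕ) {q l : ℕ} (hq : q.Prime) (hl : l.Prime) (hlk : ¬ l ∣ k) (hlq : l ∣ q - 1) :
    (l : ℝ)⁻¹ ≤ 1 - wK triv k q := by
  have hl0 : (0 : ℝ) < l := by exact_mod_cast hl.pos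
  have hl1 : (1 : ℝ) ≤ l := by exact_mod_cast hl.one_le
  have hq0 : (0 : ℝ) < q := by exact_mod_cast hq.pos
  have hc : ((q - 1 : ℕ) : ℝ) = (q : ℝ) - 1 := by
    rw [Nat.cast_sub hq.one_le]; simp
  have h3 := nuK_upper k hq hl hlk hlq
  obtain ⟨e, he⟩ := hlq
  have hdiv : (q - 1) / l = e := by rw [he, Nat.mul_div_cancel_left _ hl.pos]
  rw [hdiv] at h3
  have h4 : (nuK triv k q : ℝ) + e ≤ (q : ℝ) - 1 := by
    rw [← hc]
    exact_mod_cast h3
  have h5 : (q : ℝ) - 1 = l * e := by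
    rw [← hc, he]; push_cast; ring
  have h6 : (nuK triv k q : ℝ) = q * wK triv k q := by
    unfold wK; field_simp
  rw [h6] at h4
  have h7 : (e : ℝ) = ((q : ℝ) - 1) / l := by
    rw [h5]; field_simp
  rw [h7] at h4
  have h8 : (q : ℝ) * (l : ℝ)⁻¹ ≤ q * (1 - wK triv k q) := by
    have h9 : (q : ℝ) * (l : ℝ)⁻¹ = ((q : ℝ) - 1) / l + (l : ℝ)⁻¹ := by ring
    have h10 : (l : ℝ)⁻¹ ≤ 1 := inv_le_one_of_one_le₀ hl1
    linarith
  exact le_of_mul_le_mul_left h8 hq0

/-- the variance over all primes is of order `π(x)` -/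
theorem WK_order (k : ℕ) (hk : 1 ≤ k) : ∃ c : ℝ, 0 < c ∧ ∀ᶠ x : ℕ in atTop,
    c * Nat.primeCounting x ≤ WK triv k ((Icc 1 x).filter Nat.Prime) := by
  obtain ⟨l, hlk, hl⟩ := Nat.exists_infinite_primes (k + 3)
  have hlk' : ¬ l ∣ k := fun h => by
    have := Nat.le_of_dvd (by omega) h
    omega
  have hodd : ¬ 2 ∣ l := by
    intro h
    have := (Nat.prime_dvd_prime_iff_eq Nat.prime_two hl).1 h
    omega
  have hl0 : (0 : ℝ) < l := by exact_mod_cast hl.pos
  have hT := NN_lim l hl.one_le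
  have hPR : ∀ x, NN l x = #((PR 5 x).filter (fun q => l ∣ q - 1)) := by
    intro x
    have h1 := NN_odd hl.one_lt hodd x
    have h2 : Wd 5 l x = #((PR 5 x).filter (fun q => l ∣ q - 1)) := by
      unfold Wd
      simp only [if_neg hodd, add_zero]
      rw [sum_const, nsmul_eq_mul, mul_one]
      congr 2
      apply filter_congr
      intro p hp
      unfold PR at hp
      rw [mem_filter] at hp
      exact Pool.Agent.H730R2.AA.MTLib.mod_iff hp.2.1.one_le
    rw [h2] at h1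
    exact_mod_cast h1
  set L := ((Nat.totient l : ℕ) : ℝ)⁻¹ with hL
  have hL0 : 0 < L := by
    have : 0 < Nat.totient l := Nat.totient_pos.2 hl.pos
    positivity
  obtain ⟨C, hC, hS⟩ := Sp_sum 5
  set a := 2 * C / L with ha
  refine ⟨(l : ℝ)⁻¹ * (1 / 2 * Real.exp (-a) * (L / 2)), by positivity, ?_⟩
  filter_upwards [(Metric.tendsto_nhds.1 hT) (L / 2) (by positivity), eventually_ge_atTop 2]
    with x h1 hx
  have hpi : 0 < (Nat.primeCounting x : ℝ) := by
    have := Pool.Agent.H730R2.AA.pc_pos x hx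
    exact_mod_cast this
  set π := (Nat.primeCounting x : ℝ) with hπ
  set Q := (PR 5 x).filter (fun q => l ∣ q - 1) with hQ
  rw [Real.dist_eq, hPR, ← hQ] at h1
  have h2 : L / 2 * π ≤ #Q := by
    have h3 := (abs_lt.1 h1).1
    have h4 : L / 2 ≤ (#Q : ℝ) / π := by linarith
    rwa [le_div_iff₀ hpi] at h4
  have hmem : ∀ q ∈ Q, q.Prime ∧ l ∣ q - 1 ∧ q ≤ x := by
    intro p hp
    rw [hQ, mem_filter] at hp
    obtain ⟨hp1, hp2⟩ := hp
    unfold PR at hp1
    rw [mem_filter, mem_range] at hp1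
    exact ⟨hp1.2.1, hp2, by omega⟩
  have h3 : ∑ p ∈ Q, Sp p ≤ C * π := by
    refine le_trans ?_ (hS x hx)
    exact sum_le_sum_of_subset_of_nonneg (filter_subset _ _) fun p _ _ => Sp_nonneg p
  have hea : 0 < Real.exp (-a) := Real.exp_pos _
  have ha0 : 0 < a := by positivity
  have h4 : 1 / 2 * Real.exp (-a) * (L / 2 * π) ≤ ∑ p ∈ Q, wK triv k p := by
    calc 1 / 2 * Real.exp (-a) * (L / 2 * π)
        = 1 / 2 * Real.exp (-a) * ((1 + a) * (L / 2 * π) - C * π) := by
          rw [ha]; field_simp; ring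
      _ ≤ 1 / 2 * Real.exp (-a) * ((1 + a) * #Q - ∑ p ∈ Q, Sp p) := by
          apply mul_le_mul_of_nonneg_left _ (by positivity)
          have := mul_le_mul_of_nonneg_left h2 (show 0 ≤ 1 + a by linarith)
          linarith
      _ = ∑ p ∈ Q, (1 / 2 * (Real.exp (-a) * (a - Sp p + 1))) := by
          rw [← mul_sum, ← mul_sum, sum_add_distrib, sum_sub_distrib, sum_const, sum_const,
            nsmul_eq_mul, nsmul_eq_mul]
          ring
      _ ≤ ∑ p ∈ Q, (1 / 2 * Real.exp (-Sp p)) := by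
          apply sum_le_sum
          intro p _
          apply mul_le_mul_of_nonneg_left _ (by norm_num)
          have h5 := Real.add_one_le_exp (a - Sp p)
          calc Real.exp (-a) * (a - Sp p + 1) ≤ Real.exp (-a) * Real.exp (a - Sp p) := by gcongr
            _ = Real.exp (-Sp p) := by rw [← Real.exp_add]; congr 1; ring
      _ ≤ ∑ p ∈ Q, wK triv k p := by
          apply sum_le_sum
          intro p hp
          exact wK_lower k (hmem p hp).1
  have h5 : (l : ℝ)⁻¹ * ∑ p ∈ Q, wK triv k p ≤ WK triv k ((Icc 1 x).filter Nat.Prime) := by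
    rw [mul_sum]
    unfold WK
    calc ∑ p ∈ Q, (l : ℝ)⁻¹ * wK triv k p ≤ ∑ p ∈ Q, wK triv k p * (1 - wK triv k p) := by
          apply sum_le_sum
          intro p hp
          obtain ⟨b1, b2, _⟩ := hmem p hp
          have h6 := wK_upper k b1 hl hlk' b2
          have h7 := (wK_bd triv k p).1
          nlinarith
      _ ≤ ∑ p ∈ (Icc 1 x).filter Nat.Prime, wK triv k p * (1 - wK triv k p) := by
          apply sum_le_sum_of_subset_of_nonneg
          · intro p hp
            obtain ⟨b1, b2, b3⟩ := hmem p hp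
            rw [mem_filter, mem_Icc]
            exact ⟨⟨b1.pos, b3⟩, b1⟩
          · intro p _ _
            obtain ⟨b1, b2⟩ := wK_bd triv k p
            exact mul_nonneg b1 (by linarith)
  calc (l : ℝ)⁻¹ * (1 / 2 * Real.exp (-a) * (L / 2)) * π
      = (l : ℝ)⁻¹ * (1 / 2 * Real.exp (-a) * (L / 2 * π)) := by ring
    _ ≤ (l : ℝ)⁻¹ * ∑ p ∈ Q, wK triv k p := by gcongr
    _ ≤ _ := h5

lemma WK_le (k : ℕ) (x : ℕ) :
    WK triv k ((Icc 1 x).filter Nat.Prime) ≤ Nat.primeCounting x / 4 := by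
  have h1 : (#((Icc 1 x).filter Nat.Prime) : ℝ) ≤ Nat.primeCounting x := by
    have h2 := NN_le 1 x
    unfold NN at h2
    simpa using h2
  unfold WK
  calc ∑ q ∈ (Icc 1 x).filter Nat.Prime, wK triv k q * (1 - wK triv k q)
      ≤ ∑ q ∈ (Icc 1 x).filter Nat.Prime, (1 / 4 : ℝ) := by
        apply sum_le_sum
        intro q _
        nlinarith [sq_nonneg (wK triv k q - 1 / 2)]
    _ = #((Icc 1 x).filter Nat.Prime) / 4 := by rw [sum_const, nsmul_eq_mul]; ring
    _ ≤ _ := by linarith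

end Pool.Agent.H735A
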