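import Mathlib
import Pool.Agent.H735A.Clt
import Pool.Agent.H735A.Mean

set_option autoImplicit false

/-! # The asymptotic value of the variance -/

namespace Pool.Agent.H735A

open Finset Filter Topology
open Pool.Agent.H730R2.AA (Wd om PR Wd_lim Wd_bound mainT dens)

/-- weighted count of the primes `p ≡ 1 mod L` -/
noncomputable def AL (D : ℤ) (L x : ℕ) : ℝ :=
  ∑ p ∈ (PR D x).filter (fun p => L ∣ p - 1), (1 - (jacobiSym D p : ℝ))

lemma PR_mem {D : ℤ} {x p : ℕ} (h : p ∈ PR D x) :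
    p.Prime ∧ p ≠ 2 ∧ ¬ ((p : ℤ) ∣ D) ∧ p ≤ x := by
  unfold PR at h
  rw [mem_filter, mem_range] at h
  exact ⟨h.2.1, h.2.2.1, h.2.2.2, by omega⟩

lemma PR_sub (D : ℤ) (x : ℕ) : PR D x ⊆ PrU x := by
  intro p hp
  obtain ⟨h1, _, _, h4⟩ := PR_mem hp
  unfold PrU
  rw [mem_filter, mem_Ioc]
  exact ⟨⟨h1.pos, h4⟩, h1⟩

lemma PrU_diff (D : ℤ) (hD : D ≠ 0) (x : ℕ) : #(PrU x \ PR D x) ≤ #(2 * D).natAbs.primeFactors := by
  apply card_le_card
  intro p hp
  rw [Finset.mem_sdiff] at hp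
  obtain ⟨h1, h2⟩ := hp
  unfold PrU at h1
  rw [mem_filter, mem_Ioc] at h1
  rw [Nat.mem_primeFactors]
  refine ⟨h1.2, ?_, ?_⟩
  · rw [← Int.natCast_dvd]
    by_cases h3 : p = 2
    · subst h3
      exact Dvd.intro _ rfl
    · have h4 : (p : ℤ) ∣ D := by
        by_contra h5
        apply h2
        unfold PR
        rw [mem_filter, mem_range]
        exact ⟨by omega, h1.2, h3, h5⟩
      exact h4.mul_left _
  · rw [Int.natAbs_ne_zero]
    exact mul_ne_zero two_ne_zero hD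

lemma count_lim (D : ℤ) (hD : D ≠ 0) (L : ℕ) (hL : 1 ≤ L) :
    Tendsto (fun x : ℕ => (#((PR D x).filter (fun p => L ∣ p - 1)) : ℝ) /
      (Nat.primeCounting x : ℝ)) atTop (𝓝 ((Nat.totient L : ℝ)⁻¹)) := by
  have hpi : Tendsto (fun x : ℕ => (Nat.primeCounting x : ℝ)) atTop atTop :=
    tendsto_natCast_atTop_atTop.comp Nat.tendsto_primeCounting
  set K := #(2 * D).natAbs.primeFactors with hK
  have h1 : Tendsto (fun x : ℕ => ((#((PR D x).filter (fun p => L ∣ p - 1)) : ℝ) - NN L x) /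
      (Nat.primeCounting x : ℝ)) atTop (𝓝 0) := by
    refine squeeze_zero_norm (fun x => ?_) ((tendsto_const_nhds (x := (K : ℝ))).div_atTop hpi)
    rw [Real.norm_eq_abs, abs_div, Nat.abs_cast]
    apply div_le_div_of_nonneg_right _ (Nat.cast_nonneg _)
    have h2 : (PR D x).filter (fun p => L ∣ p - 1) ⊆
        ((Icc 1 x).filter Nat.Prime).filter (fun q => L ∣ q - 1) := by
      apply filter_subset_filter
      intro p hp
      obtain ⟨h1, _, _, h4⟩ := PR_mem hp
      rw [mem_filter, mem_Icc]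
      exact ⟨⟨h1.pos, h4⟩, h1⟩
    have h3 : NN L x ≤ #((PR D x).filter (fun p => L ∣ p - 1)) + K := by
      unfold NN
      have h4 : ((Icc 1 x).filter Nat.Prime).filter (fun q => L ∣ q - 1) ⊆
          (PR D x).filter (fun p => L ∣ p - 1) ∪ (PrU x \ PR D x) := by
        intro p hp
        rw [mem_filter, mem_filter, mem_Icc] at hp
        rw [mem_union, mem_filter, Finset.mem_sdiff]
        by_cases h5 : p ∈ PR D x
        · exact Or.inl ⟨h5, hp.2⟩
        · refine Or.inr ⟨?_, h5⟩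
          unfold PrU
          rw [mem_filter, mem_Ioc]
          exact ⟨⟨hp.1.2.pos, hp.1.1.2⟩, hp.1.2⟩
      exact (card_le_card h4).trans ((card_union_le _ _).trans
        (Nat.add_le_add_left (PrU_diff D hD x) _))
    have h4 : #((PR D x).filter (fun p => L ∣ p - 1)) ≤ NN L x := card_le_card h2
    have h3' : (NN L x : ℝ) ≤ #((PR D x).filter (fun p => L ∣ p - 1)) + K := by exact_mod_cast h3
    have h4' : (#((PR D x).filter (fun p => L ∣ p - 1)) : ℝ) ≤ NN L x := by exact_mod_cast h4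
    rw [abs_le]
    constructor <;> linarith
  have h2 := h1.add (NN_lim L hL)
  rw [zero_add] at h2
  refine h2.congr fun x => ?_
  rw [← add_div, sub_add_cancel]

lemma AL_lim (D : ℤ) (hD : Squarefree D) (hD1 : D % 4 = 1) (hD2 : D ≠ 1) (L : ℕ) (hL : 1 ≤ L) :
    Tendsto (fun x : ℕ => AL D L x / (Nat.primeCounting x : ℝ)) atTop
      (𝓝 ((1 - (if D.natAbs ∣ L then 1 else 0)) * (Nat.totient L : ℝ)⁻¹)) := by
  have hDodd : ¬ 2 ∣ D.natAbs := by
    intro h
    have h1 : (2 : ℤ) ∣ D := Int.natCast_dvd.2 h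
    omega
  -- the even companion
  obtain ⟨L2, hL2, h2L, htot, hdvd, hD3⟩ : ∃ L2 : ℕ, 1 ≤ L2 ∧ 2 ∣ L2 ∧
      Nat.totient L2 = Nat.totient L ∧ (∀ n : ℕ, 2 ∣ n → (L2 ∣ n ↔ L ∣ n)) ∧
      (2 * D.natAbs ∣ L2 ↔ D.natAbs ∣ L) := by
    by_cases h : 2 ∣ L
    · refine ⟨L, hL, h, rfl, fun n _ => Iff.rfl, ?_⟩
      constructor
      · intro h1
        exact (Dvd.intro_left 2 rfl).trans h1
      · intro h1
        exact Nat.Coprime.mul_dvd_of_dvd_of_dvd
          ((Nat.Prime.coprime_iff_not_dvd Nat.prime_two).2 hDodd) h h1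
    · have hc : Nat.Coprime 2 L := (Nat.Prime.coprime_iff_not_dvd Nat.prime_two).2 h
      refine ⟨2 * L, by omega, Dvd.intro _ rfl, ?_, fun n hn => ?_, ?_⟩
      · rw [Nat.totient_mul hc, Nat.totient_two, one_mul]
      · constructor
        · intro h1
          exact (Dvd.intro_left 2 rfl).trans h1
        · intro h1
          exact Nat.Coprime.mul_dvd_of_dvd_of_dvd hc hn h1
      · exact Nat.mul_dvd_mul_iff_left (by norm_num)
  have h1 := (count_lim D hD.ne_zero L2 hL2).const_mul 2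
  have h2 := Wd_lim D hD hD1 hD2 L2 hL2
  have h3 := h1.sub h2
  have e1 : 2 * ((Nat.totient L2 : ℕ) : ℝ)⁻¹ - om D L2 =
      (1 - (if D.natAbs ∣ L then 1 else 0)) * (Nat.totient L : ℝ)⁻¹ := by
    unfold om
    rw [htot]
    simp only [hD3]
    split_ifs <;> ring
  rw [e1] at h3
  refine h3.congr fun x => ?_
  have h4 : (PR D x).filter (fun p => L2 ∣ p - 1) = (PR D x).filter (fun p => L ∣ p - 1) := by
    apply filter_congr
    intro p hp
    obtain ⟨a1, a2, _, _⟩ := PR_mem hp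
    exact hdvd (p - 1) (by
      have := a1.eq_two_or_odd
      omega)
  have h5 : Wd D L2 x = ∑ p ∈ (PR D x).filter (fun p => L ∣ p - 1), (1 + (jacobiSym D p : ℝ)) := by
    unfold Wd
    simp only [if_pos h2L]
    rw [← h4]
    apply sum_congr _ fun _ _ => rfl
    apply filter_congr
    intro p hp
    exact Pool.Agent.H730R2.AA.MTLib.mod_iff (PR_mem hp).1.one_le
  have h6 : AL D L x = 2 * #((PR D x).filter (fun p => L2 ∣ p - 1)) - Wd D L2 x := by
    unfold AL
    rw [h5, h4, card_eq_sum_ones]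
    push_cast
    rw [mul_sum, ← sum_sub_distrib]
    apply sum_congr rfl
    intro p _
    ring
  rw [h6]
  ring

lemma AL_le (D : ℤ) (L x : ℕ) : |AL D L x| ≤ 2 * NN L x := by
  unfold AL
  refine (abs_sum_le_sum_abs _ _).trans ?_
  calc ∑ p ∈ (PR D x).filter (fun p => L ∣ p - 1), |1 - (jacobiSym D p : ℝ)|
      ≤ ∑ p ∈ (PR D x).filter (fun p => L ∣ p - 1), (2 : ℝ) := by
        apply sum_le_sum
        intro p _
        have := abs_le.1 (jac_abs D p)
        rw [abs_le]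
        constructor <;> linarith [this.1, this.2]
    _ = 2 * #((PR D x).filter (fun p => L ∣ p - 1)) := by rw [sum_const, nsmul_eq_mul, mul_comm]
    _ ≤ 2 * NN L x := by
        have : #((PR D x).filter (fun p => L ∣ p - 1)) ≤ NN L x := by
          unfold NN
          apply card_le_card
          apply filter_subset_filter
          intro p hp
          obtain ⟨h1, _, _, h4⟩ := PR_mem hp
          rw [mem_filter, mem_Icc]
          exact ⟨⟨h1.pos, h4⟩, h1⟩
        have h2 : (#((PR D x).filter (fun p => L ∣ p - 1)) : ℝ) ≤ NN L x := by exact_mod_cast this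
        linarith

/-- `φ(p-1)/(p-1)` squared, expanded -/
lemma rho_sq {p x : ℕ} (hp : p.Prime) (hpx : p ≤ x) :
    ((Nat.totient (p - 1) : ℝ) / ((p : ℝ) - 1)) ^ 2 = ∑ w ∈ range (x + 1) ×ˢ range (x + 1),
      (if Nat.lcm w.1 w.2 ∣ p - 1 then ((ArithmeticFunction.moebius w.1 : ℤ) : ℝ) / w.1 *
        (((ArithmeticFunction.moebius w.2 : ℤ) : ℝ) / w.2) else 0) := by
  have hn : 0 < p - 1 := by have := hp.two_le; omega
  have hc : ((p - 1 : ℕ) : ℝ) = (p : ℝ) - 1 := by
    rw [Nat.cast_sub hp.one_le]; simp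
  have h1 := Pool.Agent.H730R2.AA.MTLib.tot_div (p - 1) hn
  rw [hc] at h1
  have h2 : (Nat.totient (p - 1) : ℝ) / ((p : ℝ) - 1) = ∑ d ∈ range (x + 1),
      (if d ∣ p - 1 then ((ArithmeticFunction.moebius d : ℤ) : ℝ) / d else 0) := by
    rw [h1, ← sum_filter]
    apply sum_congr _ fun _ _ => rfl
    ext d
    rw [Nat.mem_divisors, mem_filter, mem_range]
    constructor
    · rintro ⟨a, b⟩
      have := Nat.le_of_dvd hn a
      exact ⟨by omega, a⟩
    · rintro ⟨a, b⟩
      exact ⟨b, hn.ne'⟩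
  rw [pow_two, h2, sum_mul_sum, ← sum_product']
  apply sum_congr rfl
  rintro ⟨d, e⟩ _
  dsimp only
  by_cases h3 : d ∣ p - 1
  · by_cases h4 : e ∣ p - 1
    · rw [if_pos h3, if_pos h4, if_pos (Nat.lcm_dvd h3 h4)]
    · rw [if_neg h4, mul_zero, if_neg (fun h => h4 ((Nat.dvd_lcm_right d e).trans h))]
  · rw [if_neg h3, zero_mul, if_neg (fun h => h3 ((Nat.dvd_lcm_left d e).trans h))]

/-- the second moment of the local densities -/
noncomputable def v2 (D : ℤ) : ℝ :=
  ∑' w : ℕ × ℕ, ((ArithmeticFunction.moebius w.1 : ℤ) : ℝ) / w.1 *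
    (((ArithmeticFunction.moebius w.2 : ℤ) : ℝ) / w.2) *
      ((1 - (if D.natAbs ∣ Nat.lcm w.1 w.2 then 1 else 0)) * (Nat.totient (Nat.lcm w.1 w.2) : ℝ)⁻¹)

lemma sq_lim (D : ℤ) (hD : Squarefree D) (hD1 : D % 4 = 1) (hD2 : D ≠ 1) :
    Tendsto (fun x : ℕ => (∑ p ∈ PR D x, (1 - (jacobiSym D p : ℝ)) *
      ((Nat.totient (p - 1) : ℝ) / ((p : ℝ) - 1)) ^ 2) / (Nat.primeCounting x : ℝ)) atTop
      (𝓝 (v2 D)) := by
  obtain ⟨C, hC, hb⟩ := NN_bound
  have h1 : ∀ x : ℕ, (∑ p ∈ PR D x, (1 - (jacobiSym D p : ℝ)) *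
      ((Nat.totient (p - 1) : ℝ) / ((p : ℝ) - 1)) ^ 2) / (Nat.primeCounting x : ℝ) =
      ∑' w : ℕ × ℕ, ((ArithmeticFunction.moebius w.1 : ℤ) : ℝ) / w.1 *
        (((ArithmeticFunction.moebius w.2 : ℤ) : ℝ) / w.2) *
          (AL D (Nat.lcm w.1 w.2) x / (Nat.primeCounting x : ℝ)) := by
    intro x
    have h2 : ∀ p ∈ PR D x, (1 - (jacobiSym D p : ℝ)) *
        ((Nat.totient (p - 1) : ℝ) / ((p : ℝ) - 1)) ^ 2 =
        ∑ w ∈ range (x + 1) ×ˢ range (x + 1), (if Nat.lcm w.1 w.2 ∣ p - 1 then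
          ((ArithmeticFunction.moebius w.1 : ℤ) : ℝ) / w.1 *
            (((ArithmeticFunction.moebius w.2 : ℤ) : ℝ) / w.2) * (1 - (jacobiSym D p : ℝ)) else 0) := by
      intro p hp
      obtain ⟨a1, _, _, a4⟩ := PR_mem hp
      rw [rho_sq a1 a4, mul_sum]
      apply sum_congr rfl
      intro w _
      split_ifs <;> ring
    rw [sum_congr rfl h2, sum_comm, tsum_eq_sum (s := range (x + 1) ×ˢ range (x + 1)) (by
      rintro ⟨d, e⟩ hw
      dsimp only
      rcases Nat.eq_zero_or_pos d with rfl | hd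
      · simp
      rcases Nat.eq_zero_or_pos e with rfl | he
      · simp
      have h3 : AL D (Nat.lcm d e) x = 0 := by
        unfold AL
        rw [filter_false_of_mem, sum_empty]
        intro p hp h4
        obtain ⟨a1, _, _, a4⟩ := PR_mem hp
        have a5 := a1.two_le
        have h5 := Nat.le_of_dvd (by omega) ((Nat.dvd_lcm_left d e).trans h4)
        have h6 := Nat.le_of_dvd (by omega) ((Nat.dvd_lcm_right d e).trans h4)
        apply hw
        rw [mem_product, mem_range, mem_range]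
        constructor
        · dsimp only; omega
        · dsimp only; omega
      rw [h3, zero_div, mul_zero]), sum_div]
    apply sum_congr rfl
    intro w _
    rw [← sum_filter, ← mul_sum]
    unfold AL
    ring
  simp_rw [h1]
  unfold v2
  have hs : Summable (fun d : ℕ => (d : ℝ) ^ (-(9 : ℝ) / 8)) := by
    rw [Real.summable_nat_rpow]
    norm_num
  apply tendsto_tsum_of_dominated_convergence
    (bound := fun w : ℕ × ℕ => 2 * C * ((w.1 : ℝ) ^ (-(9 : ℝ) / 8) * (w.2 : ℝ) ^ (-(9 : ℝ) / 8)))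
  · apply Summable.mul_left
    exact hs.mul_of_nonneg hs (fun _ => by positivity) (fun _ => by positivity)
  · rintro ⟨d, e⟩
    dsimp only
    rcases Nat.eq_zero_or_pos d with rfl | hd
    · simp
    rcases Nat.eq_zero_or_pos e with rfl | he
    · simp
    exact (AL_lim D hD hD1 hD2 _ (Nat.lcm_pos hd he)).const_mul _
  · filter_upwards [eventually_ge_atTop 2] with x hx w
    obtain ⟨d, e⟩ := w
    dsimp only
    rcases Nat.eq_zero_or_pos d with rfl | hd
    · simp
    rcases Nat.eq_zero_or_pos e with rfl | he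
    · simp
    have hd0 : (0 : ℝ) < d := by exact_mod_cast hd
    have he0 : (0 : ℝ) < e := by exact_mod_cast he
    by_cases hsd : Squarefree d
    swap
    · rw [ArithmeticFunction.moebius_eq_zero_of_not_squarefree hsd]
      simp
      positivity
    by_cases hse : Squarefree e
    swap
    · rw [ArithmeticFunction.moebius_eq_zero_of_not_squarefree hse]
      simp
      positivity
    have hpi : 0 < (Nat.primeCounting x : ℝ) := by
      have := Pool.Agent.H730R2.AA.pc_pos x hx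
      exact_mod_cast this
    set π := (Nat.primeCounting x : ℝ) with hπ
    set N := (NN (Nat.lcm d e) x : ℝ) with hN
    have hN0 : 0 ≤ N := Nat.cast_nonneg _
    have n1 : N / π ≤ C * (d : ℝ) ^ (-(1 : ℝ) / 4) := by
      refine le_trans ?_ (hb d x hd hsd hx)
      apply div_le_div_of_nonneg_right _ hpi.le
      have h9 : ((NN (Nat.lcm d e) x : ℕ) : ℝ) ≤ ((NN d x : ℕ) : ℝ) :=
        Nat.cast_le.2 (NN_anti (Nat.dvd_lcm_left d e))
      exact h9
    have n2 : N / π ≤ C * (e : ℝ) ^ (-(1 : ℝ) / 4) := by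
      refine le_trans ?_ (hb e x he hse hx)
      apply div_le_div_of_nonneg_right _ hpi.le
      have h9 : ((NN (Nat.lcm d e) x : ℕ) : ℝ) ≤ ((NN e x : ℕ) : ℝ) :=
        Nat.cast_le.2 (NN_anti (Nat.dvd_lcm_right d e))
      exact h9
    have n3 : N / π ≤ C * ((d : ℝ) ^ (-(1 : ℝ) / 8) * (e : ℝ) ^ (-(1 : ℝ) / 8)) := by
      apply le_of_sq_le_sq _ (by positivity)
      have hq : ∀ a : ℝ, 0 < a → (a ^ (-(1 : ℝ) / 8)) ^ 2 = a ^ (-(1 : ℝ) / 4) := by
        intro a ha
        rw [← Real.rpow_natCast, ← Real.rpow_mul ha.le]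
        norm_num
      have hNp : 0 ≤ N / π := by positivity
      calc (N / π) ^ 2 = (N / π) * (N / π) := pow_two _
        _ ≤ (C * (d : ℝ) ^ (-(1 : ℝ) / 4)) * (C * (e : ℝ) ^ (-(1 : ℝ) / 4)) :=
            mul_le_mul n1 n2 hNp (by positivity)
        _ = (C * ((d : ℝ) ^ (-(1 : ℝ) / 8) * (e : ℝ) ^ (-(1 : ℝ) / 8))) ^ 2 := by
            rw [mul_pow, mul_pow, hq _ hd0, hq _ he0]
            ring
    have hA : |AL D (Nat.lcm d e) x / π| ≤ 2 * (C * ((d : ℝ) ^ (-(1 : ℝ) / 8) *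
        (e : ℝ) ^ (-(1 : ℝ) / 8))) := by
      rw [abs_div, abs_of_pos hpi]
      calc |AL D (Nat.lcm d e) x| / π ≤ (2 * N) / π := by
            apply div_le_div_of_nonneg_right (AL_le D _ x) hpi.le
        _ = 2 * (N / π) := by ring
        _ ≤ _ := by linarith
    have hmu : ∀ a : ℕ, 0 < a → |((ArithmeticFunction.moebius a : ℤ) : ℝ) / a| ≤ (a : ℝ)⁻¹ := by
      intro a ha
      have h2 : |((ArithmeticFunction.moebius a : ℤ) : ℝ)| ≤ 1 := by
        have := ArithmeticFunction.abs_moebius_le_one (n := a)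
        exact_mod_cast this
      rw [abs_div, Nat.abs_cast, inv_eq_one_div]
      exact div_le_div_of_nonneg_right h2 (Nat.cast_nonneg _)
    rw [Real.norm_eq_abs, abs_mul, abs_mul]
    have hr : ∀ a : ℝ, 0 < a → a ^ (-(9 : ℝ) / 8) = a⁻¹ * a ^ (-(1 : ℝ) / 8) := by
      intro a ha
      rw [← Real.rpow_neg_one, ← Real.rpow_add ha]
      norm_num
    calc |((ArithmeticFunction.moebius d : ℤ) : ℝ) / d| * |((ArithmeticFunction.moebius e : ℤ) : ℝ) / e|
          * |AL D (Nat.lcm d e) x / π|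
        ≤ ((d : ℝ)⁻¹ * (e : ℝ)⁻¹) * (2 * (C * ((d : ℝ) ^ (-(1 : ℝ) / 8) *
          (e : ℝ) ^ (-(1 : ℝ) / 8)))) := by
          apply mul_le_mul _ hA (abs_nonneg _) (by positivity)
          exact mul_le_mul (hmu d hd) (hmu e he) (abs_nonneg _) (by positivity)
      _ = _ := by
          rw [hr _ hd0, hr _ he0]
          ring

end Pool.Agent.H735A
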