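import Mathlib
import Pool.Agent.H735A.VarLim

set_option autoImplicit false

/-! # The Gaussian law with the asymptotic variance -/

namespace Pool.Agent.H735A

open Finset Filter Topology
open Pool.Agent.H730R2.AA (Wd om PR Wd_lim Wd_bound mainT dens)

lemma log_over_pi (A B : ℝ) (hA : 0 ≤ A) (hB : 0 ≤ B) :
    Tendsto (fun x : ℕ => (A + B * Real.log x) / (Nat.primeCounting x : ℝ)) atTop (𝓝 0) := by
  have h1 : Tendsto (fun x : ℕ => 160 * (A + B) / (x : ℝ) ^ ((1 : ℝ) / 2)) atTop (𝓝 0) :=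
    tendsto_const_nhds.div_atTop
      ((tendsto_rpow_atTop (by norm_num)).comp tendsto_natCast_atTop_atTop)
  refine squeeze_zero_norm' ?_ h1
  filter_upwards [eventually_ge_atTop 3] with x hx
  have hx3 : (3 : ℝ) ≤ x := by exact_mod_cast hx
  have hx0 : (0 : ℝ) < x := by linarith
  have hlog1 : 1 ≤ Real.log x := by
    rw [Real.le_log_iff_exp_le hx0]
    have := Real.exp_one_lt_d9
    linarith
  have h3 := Pool.Agent.H730R2.AA.MTLib.pi_lower x (by omega)
  have hpi0 : 0 < (x : ℝ) / (10 * Real.log x) := by positivity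
  have h4 : Real.log x ≤ (x : ℝ) ^ ((1 : ℝ) / 4) / (1 / 4) :=
    Real.log_le_rpow_div hx0.le (by norm_num)
  set u := (x : ℝ) ^ ((1 : ℝ) / 4) with hu
  have hu0 : 0 < u := by positivity
  have hx4 : (x : ℝ) = u ^ 4 := by
    rw [hu, ← Real.rpow_natCast, ← Real.rpow_mul hx0.le]
    norm_num
  have hx2 : (x : ℝ) ^ ((1 : ℝ) / 2) = u ^ 2 := by
    rw [hu, ← Real.rpow_natCast, ← Real.rpow_mul hx0.le]
    norm_num
  have h5 : Real.log x ≤ 4 * u := by linarith
  have hnum : 0 ≤ A + B * Real.log x := by positivity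
  have hnum2 : A + B * Real.log x ≤ (A + B) * Real.log x := by nlinarith
  rw [Real.norm_eq_abs, abs_div, Nat.abs_cast, hx2, abs_of_nonneg hnum]
  calc (A + B * Real.log x) / (Nat.primeCounting x : ℝ)
      ≤ ((A + B) * Real.log x) / (x / (10 * Real.log x)) :=
        div_le_div₀ (by positivity) hnum2 hpi0 h3
    _ = 10 * (A + B) * (Real.log x) ^ 2 / u ^ 4 := by
        rw [hx4]; field_simp
    _ ≤ 10 * (A + B) * (4 * u) ^ 2 / u ^ 4 := by
        apply div_le_div_of_nonneg_right _ (by positivity)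
        apply mul_le_mul_of_nonneg_left _ (by positivity)
        exact pow_le_pow_left₀ (by linarith) h5 2
    _ = 160 * (A + B) / u ^ 2 := by
        field_simp
        ring

lemma inv_sum_le (P : Finset ℕ) (x : ℕ) (hP : ∀ p ∈ P, p.Prime ∧ p ≤ x) :
    ∑ p ∈ P, (p : ℝ)⁻¹ ≤ 1 + Real.log x := by
  calc ∑ p ∈ P, (p : ℝ)⁻¹ ≤ ∑ q ∈ Icc 1 x, (q : ℝ)⁻¹ := by
        apply sum_le_sum_of_subset_of_nonneg
        · intro p hp
          rw [mem_Icc]
          exact ⟨(hP p hp).1.pos, (hP p hp).2⟩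
        · intro q _ _
          positivity
    _ = ((harmonic x : ℚ) : ℝ) := by
        rw [harmonic_eq_sum_Icc]
        push_cast
        rfl
    _ ≤ 1 + Real.log x := harmonic_le_one_add_log x

lemma w_sq {D : ℤ} {p : ℕ} (hp : p.Prime) (hp2 : p ≠ 2) (hD : ¬ (p : ℤ) ∣ D) :
    |w D p ^ 2 - 2 * ((1 - (jacobiSym D p : ℝ)) *
      ((Nat.totient (p - 1) : ℝ) / ((p : ℝ) - 1)) ^ 2)| ≤ 8 * (p : ℝ)⁻¹ := by
  have hpp : (2 : ℝ) ≤ p := by exact_mod_cast hp.two_le
  have hp0 : (0 : ℝ) < p := by linarith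
  have hp1 : (0 : ℝ) < (p : ℝ) - 1 := by linarith
  have hJ2 : ((jacobiSym D p : ℤ) : ℝ) ^ 2 = 1 := by
    have h1 : Int.gcd D p = 1 := by
      rw [Int.gcd_comm]
      exact (Int.isCoprime_iff_gcd_eq_one.1
        ((Nat.prime_iff_prime_int.1 hp).coprime_iff_not_dvd.2 hD))
    have h2 := jacobiSym.sq_one h1
    exact_mod_cast congrArg (fun z : ℤ => (z : ℝ)) h2
  set J : ℝ := ((jacobiSym D p : ℤ) : ℝ) with hJ
  have hJb := abs_le.1 (jac_abs D p)
  set r := (Nat.totient (p - 1) : ℝ) / ((p : ℝ) - 1) with hr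
  have hr0 : 0 ≤ r := by positivity
  have hr1 : r ≤ 1 := by
    apply div_le_one_of_le₀ _ hp1.le
    have h3 := Nat.totient_le (p - 1)
    have h4 : ((p - 1 : ℕ) : ℝ) = (p : ℝ) - 1 := by
      rw [Nat.cast_sub hp.one_le]; simp
    rw [← h4]
    exact_mod_cast h3
  have hw : w D p = (1 - J) * r * (1 - (p : ℝ)⁻¹) := by
    unfold w
    rw [nu_eq hp hp2 D hD, ← hJ, hr]
    field_simp
  have hinv : (p : ℝ)⁻¹ ≤ 2⁻¹ := inv_anti₀ (by norm_num) hpp
  have hinv0 : 0 < (p : ℝ)⁻¹ := by positivity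
  have e1 : w D p ^ 2 - 2 * ((1 - J) * r ^ 2) =
      -(2 * (1 - J) * r ^ 2 * ((p : ℝ)⁻¹ * (2 - (p : ℝ)⁻¹))) := by
    rw [hw]
    have e2 : ((1 - J) * r * (1 - (p : ℝ)⁻¹)) ^ 2 =
        (1 - 2 * J + J ^ 2) * r ^ 2 * (1 - (p : ℝ)⁻¹) ^ 2 := by ring
    rw [e2, hJ2]
    ring
  rw [e1, abs_neg, abs_of_nonneg (by
    have : 0 ≤ 1 - J := by linarith [hJb.2]
    have : 0 ≤ 2 - (p : ℝ)⁻¹ := by linarith
    positivity)]
  have h1 : 2 * (1 - J) * r ^ 2 ≤ 4 := by
    have h2 : r ^ 2 ≤ 1 := pow_le_one₀ hr0 hr1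
    have h3 : 1 - J ≤ 2 := by linarith [hJb.1]
    have h4 : 0 ≤ 1 - J := by linarith [hJb.2]
    nlinarith [sq_nonneg r]
  calc 2 * (1 - J) * r ^ 2 * ((p : ℝ)⁻¹ * (2 - (p : ℝ)⁻¹)) ≤ 4 * ((p : ℝ)⁻¹ * 2) := by
        apply mul_le_mul h1 _ (by
          have : 0 ≤ 2 - (p : ℝ)⁻¹ := by linarith
          positivity) (by norm_num)
        apply mul_le_mul_of_nonneg_left _ hinv0.le
        linarith
    _ = 8 * (p : ℝ)⁻¹ := by ring

theorem G_mean (D : ℤ) (hD : Squarefree D) (hD1 : D % 4 = 1) (hD2 : D ≠ 1) :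
    Tendsto (fun x : ℕ => (∑ p ∈ PrU x, G D p) / (Nat.primeCounting x : ℝ)) atTop (𝓝 (dens D)) := by
  have hpi : Tendsto (fun x : ℕ => (Nat.primeCounting x : ℝ)) atTop atTop :=
    tendsto_natCast_atTop_atTop.comp Nat.tendsto_primeCounting
  obtain ⟨C, hC, hm⟩ := PrU_main D hD.ne_zero
  have h1 := Pool.Agent.H730R2.AA.main_lim D hD hD1 hD2
  have h2 : Tendsto (fun x : ℕ => (∑ p ∈ PrU x, G D p - Pool.Agent.H730R2.AA.mainT D x) /
      (Nat.primeCounting x : ℝ)) atTop (𝓝 0) := by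
    refine squeeze_zero_norm (fun x => ?_) ((tendsto_const_nhds (x := C)).div_atTop hpi)
    rw [Real.norm_eq_abs, abs_div, Nat.abs_cast]
    exact div_le_div_of_nonneg_right (hm x) (Nat.cast_nonneg _)
  have h3 := h2.add h1
  rw [zero_add] at h3
  refine h3.congr fun x => ?_
  rw [← add_div, sub_add_cancel]

theorem W_lim (D : ℤ) (hD : Squarefree D) (hD1 : D % 4 = 1) (hD2 : D ≠ 1) :
    Tendsto (fun x : ℕ => W D (PrU x) / (Nat.primeCounting x : ℝ)) atTop
      (𝓝 (dens D - 2 * v2 D)) := by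
  have hD0 := hD.ne_zero
  obtain ⟨C, hC, hCm⟩ := main_err D hD0
  have hPrU : ∀ x : ℕ, ∀ p ∈ PrU x, p.Prime ∧ p ≤ x := by
    intro x p hp
    unfold PrU at hp
    rw [mem_filter, mem_Ioc] at hp
    exact ⟨hp.2, hp.1.2⟩
  -- first moment
  have h1 : Tendsto (fun x : ℕ => (∑ p ∈ PrU x, w D p) / (Nat.primeCounting x : ℝ)) atTop
      (𝓝 (dens D)) := by
    have h2 : Tendsto (fun x : ℕ => (∑ p ∈ PrU x, w D p - ∑ p ∈ PrU x, G D p) /
        (Nat.primeCounting x : ℝ)) atTop (𝓝 0) := by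
      refine squeeze_zero_norm' ?_ (log_over_pi C 2 hC (by norm_num))
      filter_upwards [eventually_ge_atTop 1] with x hx
      rw [Real.norm_eq_abs, abs_div, Nat.abs_cast]
      exact div_le_div_of_nonneg_right (hCm x hx (PrU x) (hPrU x)) (Nat.cast_nonneg _)
    have h3 := h2.add (G_mean D hD hD1 hD2)
    rw [zero_add] at h3
    refine h3.congr fun x => ?_
    rw [← add_div, sub_add_cancel]
  -- second moment
  set K := #(2 * D).natAbs.primeFactors with hK
  have h4 : Tendsto (fun x : ℕ => (∑ p ∈ PrU x, w D p ^ 2) / (Nat.primeCounting x : ℝ)) atTop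
      (𝓝 (2 * v2 D)) := by
    have h5 : Tendsto (fun x : ℕ => (∑ p ∈ PrU x, w D p ^ 2 - 2 * ∑ p ∈ PR D x,
        (1 - (jacobiSym D p : ℝ)) * ((Nat.totient (p - 1) : ℝ) / ((p : ℝ) - 1)) ^ 2) /
        (Nat.primeCounting x : ℝ)) atTop (𝓝 0) := by
      refine squeeze_zero_norm (fun x => ?_) (log_over_pi (K + 8) 8 (by positivity) (by norm_num))
      rw [Real.norm_eq_abs, abs_div, Nat.abs_cast]
      apply div_le_div_of_nonneg_right _ (Nat.cast_nonneg _)
      rw [← sum_sdiff (PR_sub D x), add_sub_assoc, mul_sum, ← sum_sub_distrib]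
      refine (abs_add_le _ _).trans ?_
      have h6 : |∑ p ∈ PrU x \ PR D x, w D p ^ 2| ≤ K := by
        refine (abs_sum_le_sum_abs _ _).trans ?_
        calc ∑ p ∈ PrU x \ PR D x, |w D p ^ 2| ≤ ∑ p ∈ PrU x \ PR D x, (1 : ℝ) := by
              apply sum_le_sum
              intro p _
              rw [abs_of_nonneg (sq_nonneg _)]
              exact pow_le_one₀ (w_nonneg D p) (w_le_one D p)
          _ = #(PrU x \ PR D x) := by simp
          _ ≤ K := by exact_mod_cast PrU_diff D hD0 x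
      have h7 : |∑ p ∈ PR D x, (w D p ^ 2 - 2 * ((1 - (jacobiSym D p : ℝ)) *
          ((Nat.totient (p - 1) : ℝ) / ((p : ℝ) - 1)) ^ 2))| ≤ 8 * (1 + Real.log x) := by
        refine (abs_sum_le_sum_abs _ _).trans ?_
        calc ∑ p ∈ PR D x, |w D p ^ 2 - 2 * ((1 - (jacobiSym D p : ℝ)) *
            ((Nat.totient (p - 1) : ℝ) / ((p : ℝ) - 1)) ^ 2)| ≤ ∑ p ∈ PR D x, 8 * (p : ℝ)⁻¹ := by
              apply sum_le_sum
              intro p hp
              obtain ⟨a1, a2, a3, _⟩ := PR_mem hp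
              exact w_sq a1 a2 a3
          _ = 8 * ∑ p ∈ PR D x, (p : ℝ)⁻¹ := by rw [mul_sum]
          _ ≤ _ := by
              have := inv_sum_le (PR D x) x (fun p hp => ⟨(PR_mem hp).1, (PR_mem hp).2.2.2⟩)
              linarith
      linarith
    have h6 := h5.add ((sq_lim D hD hD1 hD2).const_mul 2)
    rw [zero_add] at h6
    refine h6.congr fun x => ?_
    rw [← mul_div_assoc, ← add_div, sub_add_cancel]
  refine (h1.sub h4).congr fun x => ?_
  rw [← sub_div, ← sum_sub_distrib]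
  unfold W
  congr 1
  apply sum_congr rfl
  intro p _
  ring

/-- the asymptotic variance is positive -/
theorem v_pos (D : ℤ) (hD : Squarefree D) (hD1 : D % 4 = 1) (hD2 : D ≠ 1) :
    0 < dens D - 2 * v2 D := by
  obtain ⟨c, hc, h⟩ := W_lower D hD hD1 hD2
  refine lt_of_lt_of_le hc (ge_of_tendsto (W_lim D hD hD1 hD2) ?_)
  filter_upwards [h, eventually_ge_atTop 2] with x h1 h2
  have hpi : 0 < (Nat.primeCounting x : ℝ) := by
    have := Pool.Agent.H730R2.AA.pc_pos x h2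
    exact_mod_cast this
  rwa [le_div_iff₀ hpi]

open Classical in
/-- the law for all primes up to `x`, with the asymptotic variance -/
theorem clt_v (D : ℤ) (hD : Squarefree D) (hD1 : D % 4 = 1) (hD2 : D ≠ 1) (y : ℕ → ℕ)
    (hy : ∀ K : ℕ, ∀ᶠ x in atTop, x ^ K ≤ y x) (t : ℝ) :
    Tendsto (fun x : ℕ => (#((Icc 1 (y x)).filter (fun m => cnt D (PrU x) m ≤ ∑ p ∈ PrU x, G D p +
      t * √((dens D - 2 * v2 D) * Nat.primeCounting x))) : ℝ) / y x) atTop
      (𝓝 ((ProbabilityTheory.gaussianReal 0 1).real (Set.Iic t))) := by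
  obtain ⟨C, hC, hCm⟩ := main_err D hD.ne_zero
  set v := dens D - 2 * v2 D with hv
  have hv0 : 0 < v := v_pos D hD hD1 hD2
  have hPrU : ∀ x : ℕ, ∀ p ∈ PrU x, p.Prime ∧ p ≤ x := by
    intro x p hp
    unfold PrU at hp
    rw [mem_filter, mem_Ioc] at hp
    exact ⟨hp.2, hp.1.2⟩
  have hpi : Tendsto (fun x : ℕ => (Nat.primeCounting x : ℝ)) atTop atTop :=
    tendsto_natCast_atTop_atTop.comp Nat.tendsto_primeCounting
  have hR : Tendsto (fun x : ℕ => v * (Nat.primeCounting x : ℝ)) atTop atTop :=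
    hpi.const_mul_atTop hv0
  have hlog : Tendsto (fun x : ℕ => Real.log x) atTop atTop :=
    Real.tendsto_log_atTop.comp tendsto_natCast_atTop_atTop
  have hs : Tendsto (fun x : ℕ => (∑ p ∈ PrU x, w D p - ∑ p ∈ PrU x, G D p) /
      √(v * (Nat.primeCounting x : ℝ))) atTop (𝓝 0) := by
    have hq : Tendsto (fun x : ℕ => √(v * (Nat.primeCounting x : ℝ)) / Real.log x) atTop atTop := by
      have h1 := W_all D hD hD1 hD2
      have h2 : Tendsto (fun x : ℕ => √(4 * v) * √(W D (PrU x) / (Real.log x) ^ 2)) atTop atTop :=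
        ((Real.tendsto_sqrt_atTop).comp h1).const_mul_atTop (Real.sqrt_pos.2 (by positivity))
      refine tendsto_atTop_mono' _ ?_ h2
      filter_upwards [hlog.eventually_gt_atTop 0] with x hx
      have h3 : √(W D (PrU x) / (Real.log x) ^ 2) = √(W D (PrU x)) / Real.log x := by
        rw [Real.sqrt_div' _ (by positivity), Real.sqrt_sq hx.le]
      rw [h3, ← mul_div_assoc]
      apply div_le_div_of_nonneg_right _ hx.le
      rw [← Real.sqrt_mul (by positivity)]
      apply Real.sqrt_le_sqrt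
      have h4 := W_le D (PrU x)
      rw [PrU_card] at h4
      nlinarith
    have h1 : Tendsto (fun x : ℕ => (C + 2) / (√(v * (Nat.primeCounting x : ℝ)) / Real.log x))
        atTop (𝓝 0) := tendsto_const_nhds.div_atTop hq
    refine squeeze_zero_norm' ?_ h1
    filter_upwards [hlog.eventually_ge_atTop 1, eventually_ge_atTop 1] with x hx hx1
    have h2 := hCm x hx1 (PrU x) (hPrU x)
    have hl0 : 0 < Real.log x := by linarith
    rw [Real.norm_eq_abs, abs_div, abs_of_nonneg (Real.sqrt_nonneg _), div_div_eq_mul_div]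
    apply div_le_div_of_nonneg_right _ (Real.sqrt_nonneg _)
    change |∑ p ∈ PrU x, (nu D p : ℝ) / p - ∑ p ∈ PrU x, G D p| ≤ _
    nlinarith
  have hV : Tendsto (fun x : ℕ => (∑ p ∈ PrU x, (fam D).va p) / (v * (Nat.primeCounting x : ℝ)))
      atTop (𝓝 1) := by
    have h1 := (W_lim D hD hD1 hD2).div_const v
    rw [← hv, div_self hv0.ne'] at h1
    refine h1.congr fun x => ?_
    have h2 : ∑ p ∈ PrU x, (fam D).va p = W D (PrU x) := by
      unfold W
      exact sum_congr rfl fun p hp => va_fam D (hPrU x p hp).1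
    rw [h2, div_div, mul_comm v]
  have key := gauss_law (ι := Unit) (fun _ => fam D) (fun x => x) y (fun x _ => PrU x)
    (fun x _ => hPrU x) (fun x i j hij => absurd (Subsingleton.elim i j) hij) tendsto_id hy
    (fun x _ => v * (Nat.primeCounting x : ℝ)) (fun _ => hR) (fun _ => hV)
    (fun x _ => ∑ p ∈ PrU x, w D p - ∑ p ∈ PrU x, G D p) (fun _ => hs) (fun _ => t)
  have hyr : Tendsto (fun x : ℕ => (y x : ℝ)) atTop atTop := by
    refine tendsto_atTop_mono' _ ?_ tendsto_natCast_atTop_atTop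
    filter_upwards [hy 1] with x hx
    rw [pow_one] at hx
    exact_mod_cast hx
  have hdiff : Tendsto (fun x : ℕ => (#((Icc 1 (y x)).filter (fun m =>
      cnt D (PrU x) m ≤ ∑ p ∈ PrU x, G D p + t * √(v * (Nat.primeCounting x : ℝ)))) : ℝ) / y x -
      (#((range (y x)).filter (fun m => ∀ _i : Unit, (∑ p ∈ PrU x, (fam D).g p m +
        (∑ p ∈ PrU x, w D p - ∑ p ∈ PrU x, G D p)) / √(v * (Nat.primeCounting x : ℝ)) ≤ t)) : ℝ) / y x)
      atTop (𝓝 0) := by
    have h1 : Tendsto (fun x : ℕ => (1 : ℝ) / y x) atTop (𝓝 0) := tendsto_const_nhds.div_atTop hyr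
    refine squeeze_zero_norm' ?_ h1
    filter_upwards [hR.eventually_gt_atTop 0] with x hx
    rw [Real.norm_eq_abs, ← sub_div, abs_div, Nat.abs_cast]
    apply div_le_div_of_nonneg_right _ (Nat.cast_nonneg _)
    have heq : ∀ m, (∀ _i : Unit, (∑ p ∈ PrU x, (fam D).g p m +
        (∑ p ∈ PrU x, w D p - ∑ p ∈ PrU x, G D p)) / √(v * (Nat.primeCounting x : ℝ)) ≤ t) ↔
        cnt D (PrU x) m ≤ ∑ p ∈ PrU x, G D p + t * √(v * (Nat.primeCounting x : ℝ)) := by
      intro m
      rw [forall_const, div_le_iff₀ (Real.sqrt_pos.2 hx), cnt_eq]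
      change _ ↔ ∑ p ∈ PrU x, (fam D).g p m + ∑ p ∈ PrU x, w D p ≤ _
      constructor <;> intro h <;> linarith
    simp only [heq]
    set A := (Icc 1 (y x)).filter (fun m =>
      cnt D (PrU x) m ≤ ∑ p ∈ PrU x, G D p + t * √(v * (Nat.primeCounting x : ℝ))) with hA
    set B := (range (y x)).filter (fun m =>
      cnt D (PrU x) m ≤ ∑ p ∈ PrU x, G D p + t * √(v * (Nat.primeCounting x : ℝ))) with hB
    have h2 : #A ≤ #B + 1 := by
      have : A ⊆ insert (y x) B := by
        intro m hm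
        rw [hA, mem_filter, mem_Icc] at hm
        rw [mem_insert, hB, mem_filter, mem_range]
        by_cases h : m = y x
        · exact Or.inl h
        · exact Or.inr ⟨by omega, hm.2⟩
      exact (card_le_card this).trans (card_insert_le _ _)
    have h3 : #B ≤ #A + 1 := by
      have : B ⊆ insert 0 A := by
        intro m hm
        rw [hB, mem_filter, mem_range] at hm
        rw [mem_insert, hA, mem_filter, mem_Icc]
        by_cases h : m = 0
        · exact Or.inl h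
        · exact Or.inr ⟨by omega, hm.2⟩
      exact (card_le_card this).trans (card_insert_le _ _)
    have h2' : (#A : ℝ) ≤ #B + 1 := by exact_mod_cast h2
    have h3' : (#B : ℝ) ≤ #A + 1 := by exact_mod_cast h3
    rw [abs_le]
    constructor <;> linarith
  have h := hdiff.add key
  rw [zero_add] at h
  simp only [univ_unique, prod_singleton] at h
  refine h.congr fun x => ?_
  rw [sub_add_cancel]

end Pool.Agent.H735A
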